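import Pool.Agent.PFlow.StmtsHX

/-!
# COLE: the gradient in the collar
-/

open MeasureTheory Filter Topology
open scoped ContDiff ENNReal

namespace Pool.Agent.PFlow.HX

open Pool.Agent.PenroseSph

namespace COLEaux

/-! ### Algebra -/

theorem vsz_eq (p : Cov) : vsz p = ‖(WithLp.toLp 2 p : E3)‖ := by
  rw [EuclideanSpace.norm_eq]
  unfold vsz
  congr 1
  apply Finset.sum_congr rfl
  intro i _
  simp [Real.norm_eq_abs, sq_abs]

theorem vsz_nonneg (p : Cov) : 0 ≤ vsz p := Real.sqrt_nonneg _

theorem vsz_sub (p q : Cov) : |vsz p - vsz q| ≤ vsz (p - q) := by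
  rw [vsz_eq, vsz_eq, vsz_eq, WithLp.toLp_sub]
  exact abs_norm_sub_norm_le _ _

theorem sqrt_sum_le {ι : Type} [Fintype ι] (a : ι → ℝ) :
    Real.sqrt (∑ i, a i ^ 2) ≤ ∑ i, |a i| := by
  rw [Real.sqrt_le_left (Finset.sum_nonneg fun i _ => abs_nonneg _)]
  have h : ∀ s : Finset ι, ∑ i ∈ s, a i ^ 2 ≤ (∑ i ∈ s, |a i|) ^ 2 := by
    classical
    intro s
    induction s using Finset.induction_on with
    | empty => simp
    | insert i s hi ih =>
      rw [Finset.sum_insert hi, Finset.sum_insert hi]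
      have h1 : 0 ≤ |a i| := abs_nonneg _
      have h2 : 0 ≤ ∑ j ∈ s, |a j| := Finset.sum_nonneg fun _ _ => abs_nonneg _
      have h3 : a i ^ 2 = |a i| ^ 2 := (sq_abs _).symm
      nlinarith [mul_nonneg h1 h2]
  exact h Finset.univ

theorem vsz_le (p : Cov) : vsz p ≤ ∑ i, |p i| := sqrt_sum_le p

theorem msz_nonneg (B : Bil) : 0 ≤ msz B := Real.sqrt_nonneg _

theorem msz_eq (B : Bil) : msz B =
    ‖(WithLp.toLp 2 (fun z : Fin 3 × Fin 3 => B z.1 z.2) : EuclideanSpace ℝ (Fin 3 × Fin 3))‖ := by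
  rw [EuclideanSpace.norm_eq]
  unfold msz
  congr 1
  rw [Fintype.sum_prod_type]
  apply Finset.sum_congr rfl
  intro i _
  apply Finset.sum_congr rfl
  intro j _
  simp [Real.norm_eq_abs, sq_abs]

theorem msz_sub (A B : Bil) : |msz A - msz B| ≤ ∑ z : Fin 3 × Fin 3, |A z.1 z.2 - B z.1 z.2| := by
  rw [msz_eq, msz_eq]
  refine (abs_norm_sub_norm_le _ _).trans ?_
  rw [← WithLp.toLp_sub, EuclideanSpace.norm_eq]
  refine le_trans (le_of_eq ?_) (sqrt_sum_le (fun z : Fin 3 × Fin 3 => A z.1 z.2 - B z.1 z.2))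
  congr 1
  apply Finset.sum_congr rfl
  intro z _
  simp [Real.norm_eq_abs, sq_abs]

theorem norm_sq (x : E3) : ‖x‖ ^ 2 = ∑ i, x i ^ 2 := by
  rw [EuclideanSpace.norm_sq_eq]
  apply Finset.sum_congr rfl
  intro i _
  rw [Real.norm_eq_abs, sq_abs]

theorem tanP_le (x : E3) (p : Cov) : tanP x p ≤ vsz p := by
  unfold tanP vsz
  apply Real.sqrt_le_sqrt
  have h1 := norm_sq x
  rcases eq_or_ne (‖x‖ ^ 2) 0 with h0 | h0
  · rw [h0]
    simp
  · set t := (∑ j, p j * x j) / ‖x‖ ^ 2 with ht
    have h2 : ∑ j, p j * x j = t * ‖x‖ ^ 2 := by rw [ht, div_mul_cancel₀ _ h0]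
    have h3 : ∑ i, (p i - t * x i) ^ 2 = ∑ i, p i ^ 2 - 2 * t * (∑ j, p j * x j) +
        t ^ 2 * ∑ i, x i ^ 2 := by
      rw [Finset.mul_sum, Finset.mul_sum, ← Finset.sum_sub_distrib, ← Finset.sum_add_distrib]
      apply Finset.sum_congr rfl
      intro i _
      ring
    rw [h3, h2, ← h1]
    nlinarith [mul_nonneg (sq_nonneg t) (sq_nonneg ‖x‖)]

theorem tanP_sub (x : E3) (p q : Cov) : |tanP x p - tanP x q| ≤ ∑ i, |p i - q i| := by
  have h1 : tanP x (p - q) ≤ ∑ i, |p i - q i| := (tanP_le x _).trans (vsz_le _)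
  refine le_trans ?_ h1
  unfold tanP
  refine (vsz_sub _ _).trans (le_of_eq ?_)
  congr 1
  funext i
  simp only [Pi.sub_apply, sub_mul, Finset.sum_sub_distrib, sub_div]
  ring

theorem coord_le (x : E3) (i : Fin 3) : |x i| ≤ ‖x‖ := by
  have h1 := norm_sq x
  have h2 : x i ^ 2 ≤ ∑ j, x j ^ 2 :=
    Finset.single_le_sum (f := fun j => x j ^ 2) (fun j _ => sq_nonneg _) (Finset.mem_univ i)
  rw [← h1] at h2
  exact abs_le_of_sq_le_sq h2 (norm_nonneg _)

theorem negP_sub (x : E3) (p q : Cov) : |negP x p - negP x q| ≤ ∑ i, |p i - q i| := by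
  unfold negP
  refine (abs_max_sub_max_le_max _ _ _ _).trans ?_
  rw [sub_self, abs_zero]
  apply max_le
  · have h1 : -((∑ j, p j * x j) / ‖x‖) - -((∑ j, q j * x j) / ‖x‖)
        = ∑ j, (q j - p j) * (x j / ‖x‖) := by
      simp only [sub_mul, Finset.sum_sub_distrib, mul_div_assoc', ← Finset.sum_div]
      ring
    rw [h1]
    refine (Finset.abs_sum_le_sum_abs _ _).trans ?_
    apply Finset.sum_le_sum
    intro j _
    rw [abs_mul, abs_sub_comm]
    have h2 : |x j / ‖x‖| ≤ 1 := by
      rw [abs_div, abs_norm]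
      exact div_le_one_of_le₀ (coord_le x j) (norm_nonneg _)
    exact mul_le_of_le_one_right (abs_nonneg _) h2
  · exact Finset.sum_nonneg fun _ _ => abs_nonneg _

theorem measurable_tanP : Measurable (fun z : E3 × Cov => tanP z.1 z.2) := by
  unfold tanP vsz
  fun_prop

theorem measurable_negP : Measurable (fun z : E3 × Cov => negP z.1 z.2) := by
  unfold negP
  fun_prop

theorem measurable_vsz : Measurable vsz := by
  unfold vsz
  fun_prop

theorem measurable_msz : Measurable (fun z : Fin 3 → Fin 3 → ℝ => msz (Matrix.of z)) := by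
  unfold msz
  simp only [Matrix.of_apply]
  fun_prop

/-! ### Measure theory -/

/-- Cauchy-Schwarz. -/
theorem cs {α : Type} [MeasurableSpace α] (μ : Measure α) [IsFiniteMeasure μ] {f : α → ℝ}
    (hf : MemLp f 2 μ) :
    ∫ x, f x ∂μ ≤ Real.sqrt (μ.real Set.univ) * Real.sqrt (∫ x, f x ^ 2 ∂μ) := by
  set m := μ.real Set.univ with hm
  set a := ∫ x, f x ∂μ with ha
  set b := ∫ x, f x ^ 2 ∂μ with hb
  have hm0 : 0 ≤ m := measureReal_nonneg
  have hi : Integrable f μ := hf.integrable (by norm_num)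
  have hi2 : Integrable (fun x => f x ^ 2) μ := hf.integrable_sq
  have key : ∀ c : ℝ, 0 ≤ b - 2 * c * a + c ^ 2 * m := by
    intro c
    have h1 : 0 ≤ ∫ x, (f x - c) ^ 2 ∂μ := integral_nonneg fun x => sq_nonneg _
    have h2 : ∫ x, (f x - c) ^ 2 ∂μ = b - 2 * c * a + c ^ 2 * m := by
      have e : (fun x => (f x - c) ^ 2) = fun x => (f x ^ 2 - 2 * c * f x) + c ^ 2 := by
        funext x; ring
      have hi3 : Integrable (fun x => 2 * c * f x) μ := hi.const_mul (2 * c)
      have hi4 : Integrable (fun x => f x ^ 2 - 2 * c * f x) μ := hi2.sub hi3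
      rw [e, integral_add hi4 (integrable_const _), integral_sub hi2 hi3, integral_const_mul,
        integral_const, smul_eq_mul]
      ring
    rwa [h2] at h1
  rcases hm0.eq_or_lt with h0 | h0
  · rw [← h0, Real.sqrt_zero, zero_mul]
    by_contra hcon
    rw [not_le] at hcon
    have := key (b / a)
    rw [← h0] at this
    have h3 : b / a * a = b := div_mul_cancel₀ _ hcon.ne'
    have hb0 := key 0
    have := key ((b + 1) / a)
    rw [← h0] at this
    have h4 : (b + 1) / a * a = b + 1 := div_mul_cancel₀ _ hcon.ne'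
    nlinarith
  · have h1 := key (a / m)
    rw [← Real.sqrt_mul hm0]
    apply Real.le_sqrt_of_sq_le
    have h2 : a / m * m = a := div_mul_cancel₀ _ h0.ne'
    have h3 : (a / m) ^ 2 * m = a / m * a := by rw [sq, mul_assoc, h2]
    rw [h3] at h1
    have h4 : a / m * a ≤ b := by linarith
    have h5 : a ^ 2 = (a / m * a) * m := by
      rw [mul_right_comm, h2]; ring
    rw [h5, mul_comm m b]
    exact mul_le_mul_of_nonneg_right h4 h0.le

theorem tendsto_L1 {S K : Set E3} (hK : IsCompact K) (hSK : S ⊆ K) (f : ℕ → E3 → ℝ)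
    (hf : ∀ n, MemLp (f n) 2 (volume.restrict K))
    (h : Tendsto (fun n => ∫ x in K, f n x ^ 2) atTop (𝓝 0)) :
    Tendsto (fun n => ∫ x in S, |f n x|) atTop (𝓝 0) := by
  have : IsFiniteMeasure (volume.restrict K) := isFiniteMeasure_restrict.2 hK.measure_lt_top.ne
  have h1 : Tendsto (fun n => Real.sqrt ((volume.restrict K).real Set.univ) *
      Real.sqrt (∫ x in K, f n x ^ 2)) atTop (𝓝 0) := by
    have := (Real.continuous_sqrt.tendsto 0).comp h
    rw [Real.sqrt_zero] at this
    have h2 := this.const_mul (Real.sqrt ((volume.restrict K).real Set.univ))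
    rw [mul_zero] at h2
    exact h2
  refine squeeze_zero (fun n => integral_nonneg fun x => abs_nonneg _) (fun n => ?_) h1
  have h2 : MemLp (fun x => |f n x|) 2 (volume.restrict K) := (hf n).abs
  have h3 := cs (volume.restrict K) h2
  have h4 : ∫ x in K, |f n x| ^ 2 = ∫ x in K, f n x ^ 2 := by
    apply integral_congr_ae
    filter_upwards with x
    exact sq_abs _
  rw [h4] at h3
  refine le_trans ?_ h3
  exact setIntegral_mono_set (h2.integrable (by norm_num))
    (Eventually.of_forall fun x => abs_nonneg _) (LE.le.eventuallyLE hSK)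

theorem tendsto_int {ι : Type} [Fintype ι] {S K : Set E3} (hK : IsCompact K) (hSK : S ⊆ K)
    (f : ℕ → ι → E3 → ℝ) (hf : ∀ n i, MemLp (f n i) 2 (volume.restrict K))
    (h : ∀ i, Tendsto (fun n => ∫ x in K, f n i x ^ 2) atTop (𝓝 0))
    (Φ : ℕ → E3 → ℝ) (Ψ : E3 → ℝ) (hΦ : ∀ n, IntegrableOn (Φ n) S) (hΨ : IntegrableOn Ψ S)
    (hb : ∀ n x, |Φ n x - Ψ x| ≤ ∑ i, |f n i x|) :
    Tendsto (fun n => ∫ x in S, Φ n x) atTop (𝓝 (∫ x in S, Ψ x)) := by
  have : IsFiniteMeasure (volume.restrict K) := isFiniteMeasure_restrict.2 hK.measure_lt_top.ne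
  rw [tendsto_iff_dist_tendsto_zero]
  have h1 : Tendsto (fun n => ∑ i, ∫ x in S, |f n i x|) atTop (𝓝 0) := by
    have := tendsto_finsetSum (Finset.univ : Finset ι)
      (fun i _ => tendsto_L1 hK hSK (fun n => f n i) (fun n => hf n i) (h i))
    simpa using this
  refine squeeze_zero (fun n => dist_nonneg) (fun n => ?_) h1
  have hint : ∀ i, IntegrableOn (fun x => |f n i x|) S := fun i =>
    IntegrableOn.mono_set ((hf n i).abs.integrable (by norm_num)) hSK
  rw [Real.dist_eq, ← integral_sub (hΦ n) hΨ, ← integral_finsetSum _ (fun i _ => hint i)]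
  have h2 : |∫ x in S, (Φ n x - Ψ x)| ≤ ∫ x in S, |Φ n x - Ψ x| := abs_integral_le_integral_abs
  refine h2.trans ?_
  have h3 : Integrable (fun x => |Φ n x - Ψ x|) (volume.restrict S) := ((hΦ n).sub hΨ).abs
  have h4 : Integrable (fun x => ∑ i, |f n i x|) (volume.restrict S) :=
    integrable_finsetSum _ (fun i _ => hint i)
  exact integral_mono h3 h4 (fun x => hb n x)

/-! ### The collar -/

theorem exp_le {τ : ℝ} (h0 : 0 < τ) (h : τ ≤ 1 / 10) :
    Real.exp τ ≤ 1 + 10 / 9 * τ ∧ 1 < Real.exp τ := by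
  refine ⟨?_, Real.one_lt_exp_iff.2 h0⟩
  have h1 : 1 - τ ≤ Real.exp (-τ) := by
    have := Real.add_one_le_exp (-τ)
    linarith
  have h2 : Real.exp τ * Real.exp (-τ) = 1 := by rw [← Real.exp_add]; simp
  have h3 := Real.exp_pos τ
  have h4 : Real.exp τ * (1 - τ) ≤ 1 := by
    have h5 := mul_le_mul_of_nonneg_left h1 h3.le
    rwa [h2] at h5
  nlinarith

theorem isCompact_cAnn (a b : ℝ) : IsCompact (cAnn a b) := by
  have h1 : IsClosed (cAnn a b) := by
    have : cAnn a b = {x : E3 | a ≤ ‖x‖} ∩ {x : E3 | ‖x‖ ≤ b} := by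
      ext x; simp [cAnn]
    rw [this]
    exact (isClosed_le continuous_const continuous_norm).inter
      (isClosed_le continuous_norm continuous_const)
  refine IsCompact.of_isClosed_subset (isCompact_closedBall (0 : E3) b) h1 ?_
  intro x hx
  simpa [Metric.mem_closedBall, dist_zero_right] using hx.2

theorem vol_collar {τ : ℝ} (h0 : 0 < τ) (h : τ ≤ 1 / 10) :
    volume.real (cAnn 1 (Real.exp τ)) ≤ 5 * τ * volume.real (Metric.ball (0 : E3) 1) := by
  obtain ⟨h1, h2⟩ := exp_le h0 h
  set y := Real.exp τ with hy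
  have e1 : cAnn 1 y = Metric.closedBall (0 : E3) y \ Metric.ball 0 1 := by
    ext x
    simp only [cAnn, Set.mem_ofPred_eq, Set.mem_sdiff, Metric.mem_closedBall, dist_zero_right,
      Metric.mem_ball, not_lt]
    tauto
  have e2 : volume.real (Metric.closedBall (0 : E3) y) =
      y ^ 3 * volume.real (Metric.ball (0 : E3) 1) := by
    have := Measure.addHaar_closedBall (volume : Measure E3) 0 (by linarith : (0 : ℝ) ≤ y)
    unfold Measure.real
    rw [this, finrank_euclideanSpace_fin, ENNReal.toReal_mul, ENNReal.toReal_ofReal (by positivity)]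
  have hsub : Metric.ball (0 : E3) 1 ⊆ Metric.closedBall 0 y :=
    Metric.ball_subset_closedBall.trans (Metric.closedBall_subset_closedBall h2.le)
  have hfin : volume (Metric.closedBall (0 : E3) y) ≠ ⊤ :=
    (isCompact_closedBall (0 : E3) y).measure_lt_top.ne
  rw [e1, measureReal_sdiff hsub measurableSet_ball hfin, e2]
  have hB : 0 ≤ volume.real (Metric.ball (0 : E3) 1) := measureReal_nonneg
  have h3 : y ^ 3 - 1 ≤ 5 * τ := by
    have h4 : y ^ 3 - 1 = (y - 1) * (y ^ 2 + y + 1) := by ring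
    have h5 : y ≤ 10 / 9 := by linarith
    have h6 : y ^ 2 + y + 1 ≤ 4 := by nlinarith
    rw [h4]
    have h7 : (y - 1) * (y ^ 2 + y + 1) ≤ (10 / 9 * τ) * 4 := by
      apply mul_le_mul (by linarith) h6 (by positivity) (by positivity)
    linarith
  nlinarith

theorem contDiff_pd {f : E3 → ℝ} (hf : ContDiff ℝ ∞ f) (i : Fin 3) : ContDiff ℝ ∞ (pd i f) := by
  unfold pd
  exact (hf.fderiv_right (m := ∞) (by simp)).clm_apply contDiff_const

/-! ### Integrability -/

theorem aemeas {S : Set E3} {p : E3 → Cov} (hp : ∀ i, IntegrableOn (fun x => p x i) S) :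
    AEMeasurable p (volume.restrict S) :=
  aemeasurable_pi_iff.2 fun i => (hp i).aemeasurable

theorem int_sum {S : Set E3} {p : E3 → Cov} (hp : ∀ i, IntegrableOn (fun x => p x i) S) :
    IntegrableOn (fun x => ∑ i, |p x i|) S :=
  integrable_finsetSum _ fun i _ => (hp i).abs

theorem int_tan {S : Set E3} {p : E3 → Cov} (hp : ∀ i, IntegrableOn (fun x => p x i) S) :
    IntegrableOn (fun x => tanP x (p x)) S := by
  refine Integrable.mono' (int_sum hp) ?_ ?_
  · exact (measurable_tanP.comp_aemeasurable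
      (aemeasurable_id.prodMk (aemeas hp))).aestronglyMeasurable
  · filter_upwards with x
    rw [Real.norm_eq_abs, abs_of_nonneg (show 0 ≤ tanP x (p x) from vsz_nonneg _)]
    exact (tanP_le x _).trans (vsz_le _)

theorem int_neg {S : Set E3} {p : E3 → Cov} (hp : ∀ i, IntegrableOn (fun x => p x i) S) :
    IntegrableOn (fun x => negP x (-p x)) S := by
  refine Integrable.mono' (int_sum hp) ?_ ?_
  · exact (measurable_negP.comp_aemeasurable
      (aemeasurable_id.prodMk (aemeas hp).neg)).aestronglyMeasurable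
  · filter_upwards with x
    have h1 := negP_sub x (-p x) 0
    have h2 : negP x 0 = 0 := by simp [negP]
    rw [h2, sub_zero] at h1
    rw [Real.norm_eq_abs]
    refine h1.trans (le_of_eq ?_)
    apply Finset.sum_congr rfl
    intro i _
    simp

theorem int_vsz {S : Set E3} {p : E3 → Cov} (hp : ∀ i, IntegrableOn (fun x => p x i) S) :
    IntegrableOn (fun x => vsz (p x)) S := by
  refine Integrable.mono' (int_sum hp) ?_ ?_
  · exact (measurable_vsz.comp_aemeasurable (aemeas hp)).aestronglyMeasurable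
  · filter_upwards with x
    rw [Real.norm_eq_abs, abs_of_nonneg (vsz_nonneg _)]
    exact vsz_le _

theorem aemeas_msz {S : Set E3} {B : E3 → Bil} (hB : ∀ i j, AEMeasurable (fun x => B x i j)
    (volume.restrict S)) : AEMeasurable (fun x => msz (B x)) (volume.restrict S) := by
  have h1 : AEMeasurable (fun x => (fun i j => B x i j : Fin 3 → Fin 3 → ℝ))
      (volume.restrict S) :=
    aemeasurable_pi_iff.2 fun i => aemeasurable_pi_iff.2 fun j => hB i j
  exact measurable_msz.comp_aemeasurable h1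

theorem int_msz {S : Set E3} {B : E3 → Bil} (hB : ∀ i j, IntegrableOn (fun x => B x i j) S) :
    IntegrableOn (fun x => msz (B x)) S := by
  have hs : IntegrableOn (fun x => ∑ z : Fin 3 × Fin 3, |B x z.1 z.2|) S :=
    integrable_finsetSum _ fun z _ => (hB z.1 z.2).abs
  refine Integrable.mono' hs ?_ ?_
  · exact (aemeas_msz fun i j => (hB i j).aemeasurable).aestronglyMeasurable
  · filter_upwards with x
    rw [Real.norm_eq_abs, abs_of_nonneg (msz_nonneg _)]
    have h1 := msz_sub (B x) 0
    have h2 : msz 0 = 0 := by simp [msz]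
    rw [h2, sub_zero, abs_of_nonneg (msz_nonneg _)] at h1
    refine h1.trans (le_of_eq ?_)
    apply Finset.sum_congr rfl
    intro z _
    simp

end COLEaux

open COLEaux in
/-- **COLE**: the gradient in the collar. -/
theorem COLE (hHXRAY : Stmt_HXRAY) (hHXTR : Stmt_HXTR) (hHXANTI : Stmt_HXANTI) : Stmt_COLE := by
  set vB := volume.real (Metric.ball (0 : E3) 1) with hvB
  set vK := volume.real (cAnn 1 (4 / 3)) with hvK
  have hvB0 : 0 ≤ vB := measureReal_nonneg
  have hvK0 : 0 ≤ vK := measureReal_nonneg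
  refine ⟨4 * Real.sqrt (5 * vB) + 100 * Real.sqrt (2 * vK) + 1, by positivity, ?_⟩
  intro u G M A hH hanti hle hA τ hτ0 hτ1
  obtain ⟨-, v, hv, hv1, hvu, hvG, hvM⟩ := hHXANTI u G M hH hanti
  obtain ⟨hy1, hy2⟩ := exp_le hτ0 hτ1
  set K := cAnn (3 / 4) (4 / 3) with hKdef
  have hK : IsCompact K := isCompact_cAnn _ _
  have hKsub : K ⊆ Ann (1 / 2) 2 := fun x hx => ⟨by linarith [hx.1], by linarith [hx.2]⟩
  have : IsFiniteMeasure (volume.restrict K) := isFiniteMeasure_restrict.2 hK.measure_lt_top.ne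
  have hG : ∀ i, MemLp (fun x => G x i) 2 (volume.restrict K) := hH.memG K hK hKsub
  have hM : ∀ i j, MemLp (fun x => M x i j) 2 (volume.restrict K) := hH.memM K hK hKsub
  have hgc : ∀ n i, Continuous (pd i (v n)) := fun n i => (contDiff_pd (hv n) i).continuous
  have hhc : ∀ n i j, Continuous (pd i (pd j (v n))) := fun n i j =>
    (contDiff_pd (contDiff_pd (hv n) j) i).continuous
  have hcL : ∀ f : E3 → ℝ, Continuous f → MemLp f 2 (volume.restrict K) := by
    intro f hf
    obtain ⟨C, hC⟩ := hK.exists_bound_of_continuousOn hf.continuousOn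
    refine MemLp.of_bound hf.aestronglyMeasurable C ?_
    exact (ae_restrict_iff' hK.measurableSet).2 (Eventually.of_forall fun x hx => hC x hx)
  have hfG : ∀ n i, MemLp (fun x => pd i (v n) x - G x i) 2 (volume.restrict K) := fun n i =>
    (hcL _ (hgc n i)).sub (hG i)
  have hfM : ∀ n (z : Fin 3 × Fin 3),
      MemLp (fun x => pd z.1 (pd z.2 (v n)) x - M x z.1 z.2) 2 (volume.restrict K) := fun n z =>
    (hcL _ (hhc n z.1 z.2)).sub (hM z.1 z.2)
  -- sets
  set S := cAnn 1 (Real.exp τ) with hSdef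
  set S' := cAnn 1 (4 / 3) with hS'def
  have hS'K : S' ⊆ K := fun x hx => ⟨by linarith [hx.1], hx.2⟩
  have hSS' : S ⊆ S' := fun x hx => ⟨hx.1, by linarith [hx.2]⟩
  have hSK : S ⊆ K := hSS'.trans hS'K
  -- integrability on `K`
  have hGi : ∀ i, IntegrableOn (fun x => G x i) K := fun i => (hG i).integrable (by norm_num)
  have hMi : ∀ i j, IntegrableOn (fun x => M x i j) K := fun i j =>
    (hM i j).integrable (by norm_num)
  have hgi : ∀ n i, IntegrableOn (fun x => grad (v n) x i) K := fun n i =>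
    (hgc n i).continuousOn.integrableOn_compact hK
  have hhi : ∀ n i j, IntegrableOn (fun x => hess2 (v n) x i j) K := fun n i j =>
    (hhc n i j).continuousOn.integrableOn_compact hK
  -- limits
  have T1 : Tendsto (fun n => ∫ x in S, tanP x (grad (v n) x)) atTop
      (𝓝 (∫ x in S, tanP x (G x))) :=
    tendsto_int hK hSK (fun n i x => pd i (v n) x - G x i) hfG hvG _ _
      (fun n => (int_tan (hgi n)).mono_set hSK) ((int_tan hGi).mono_set hSK)
      (fun n x => tanP_sub x _ _)
  have T2 : ∀ T : Set E3, T ⊆ K → Tendsto (fun n => ∫ x in T, negP x (-grad (v n) x)) atTop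
      (𝓝 (∫ x in T, negP x (-G x))) := fun T hT =>
    tendsto_int hK hT (fun n i x => pd i (v n) x - G x i) hfG hvG _ _
      (fun n => (int_neg (hgi n)).mono_set hT) ((int_neg hGi).mono_set hT)
      (fun n x => (negP_sub x _ _).trans (le_of_eq (by
        apply Finset.sum_congr rfl
        intro i _
        show |-(pd i (v n) x) - -(G x i)| = |pd i (v n) x - G x i|
        rw [← neg_sub', abs_neg])))
  have T3 : ∀ T : Set E3, T ⊆ K → Tendsto (fun n => ∫ x in T, vsz (grad (v n) x)) atTop
      (𝓝 (∫ x in T, vsz (G x))) := fun T hT =>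
    tendsto_int hK hT (fun n i x => pd i (v n) x - G x i) hfG hvG _ _
      (fun n => (int_vsz (hgi n)).mono_set hT) ((int_vsz hGi).mono_set hT)
      (fun n x => (vsz_sub _ _).trans (vsz_le _))
  have T4 : ∀ T : Set E3, T ⊆ K → Tendsto (fun n => ∫ x in T, msz (hess2 (v n) x)) atTop
      (𝓝 (∫ x in T, msz (M x))) := fun T hT =>
    tendsto_int hK hT (fun n (z : Fin 3 × Fin 3) x => pd z.1 (pd z.2 (v n)) x - M x z.1 z.2)
      hfM (fun z => hvM z.1 z.2) _ _
      (fun n => (int_msz (hhi n)).mono_set hT) ((int_msz hMi).mono_set hT)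
      (fun n x => msz_sub _ _)
  -- the squares
  have hsqG : ∀ x, vsz (G x) ^ 2 = ∑ i, G x i ^ 2 := fun x =>
    Real.sq_sqrt (Finset.sum_nonneg fun _ _ => sq_nonneg _)
  have hsqM : ∀ x, msz (M x) ^ 2 = ∑ i, ∑ j, M x i j ^ 2 := fun x =>
    Real.sq_sqrt (Finset.sum_nonneg fun _ _ => Finset.sum_nonneg fun _ _ => sq_nonneg _)
  have hiG2 : IntegrableOn (fun x => vsz (G x) ^ 2) K := by
    simp only [hsqG]
    exact integrable_finsetSum _ fun i _ => (hG i).integrable_sq
  have hiM2 : IntegrableOn (fun x => msz (M x) ^ 2) K := by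
    simp only [hsqM]
    exact integrable_finsetSum _ fun i _ => integrable_finsetSum _ fun j _ =>
      (hM i j).integrable_sq
  have hLG : MemLp (fun x => vsz (G x)) 2 (volume.restrict K) :=
    (memLp_two_iff_integrable_sq (int_vsz hGi).aestronglyMeasurable).2 hiG2
  have hLM : MemLp (fun x => msz (M x)) 2 (volume.restrict K) :=
    (memLp_two_iff_integrable_sq (int_msz hMi).aestronglyMeasurable).2 hiM2
  have hAint : IntegrableOn (fun x => vsz (G x) ^ 2 + msz (M x) ^ 2) K := hiG2.add hiM2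
  have hA0 : 0 ≤ A := le_trans (integral_nonneg fun x => by positivity) hA
  have hbd : ∀ (T : Set E3), MeasurableSet T → T ⊆ K → ∀ f : E3 → ℝ, ∀ c : ℝ, 0 ≤ c →
      MemLp f 2 (volume.restrict K) → (∀ x, f x ^ 2 ≤ c * (vsz (G x) ^ 2 + msz (M x) ^ 2)) →
      ∫ x in T, f x ≤ Real.sqrt (volume.real T) * Real.sqrt (c * A) := by
    intro T hTm hT f c hc hf hfc
    have hfT : MemLp f 2 (volume.restrict T) := hf.mono_measure (Measure.restrict_mono hT le_rfl)
    have : IsFiniteMeasure (volume.restrict T) :=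
      isFiniteMeasure_restrict.2 ((measure_mono hT).trans_lt hK.measure_lt_top).ne
    have h1 := cs (volume.restrict T) hfT
    have h2 : (volume.restrict T).real Set.univ = volume.real T := by
      simp [Measure.real]
    rw [h2] at h1
    refine h1.trans ?_
    apply mul_le_mul_of_nonneg_left _ (Real.sqrt_nonneg _)
    apply Real.sqrt_le_sqrt
    have h3 : ∫ x in T, f x ^ 2 ≤ ∫ x in K, c * (vsz (G x) ^ 2 + msz (M x) ^ 2) := by
      refine (setIntegral_mono_set hf.integrable_sq
        (Eventually.of_forall fun x => sq_nonneg _) (LE.le.eventuallyLE hT)).trans ?_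
      exact integral_mono hf.integrable_sq (hAint.const_mul c) hfc
    refine h3.trans ?_
    rw [integral_const_mul]
    exact mul_le_mul_of_nonneg_left hA hc
  have hSm : MeasurableSet S := (isCompact_cAnn _ _).measurableSet
  have hS'm : MeasurableSet S' := (isCompact_cAnn _ _).measurableSet
  -- the integral of the second derivatives over the collar
  have hB : ∫ x in S, msz (M x) ≤ Real.sqrt (5 * vB) * Real.sqrt τ * Real.sqrt A := by
    have h1 := hbd S hSm hSK (fun x => msz (M x)) 1 zero_le_one hLM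
      (fun x => by rw [one_mul]; nlinarith [sq_nonneg (vsz (G x))])
    rw [one_mul] at h1
    refine h1.trans ?_
    apply mul_le_mul_of_nonneg_right _ (Real.sqrt_nonneg _)
    rw [← Real.sqrt_mul (by positivity)]
    apply Real.sqrt_le_sqrt
    have := vol_collar hτ0 hτ1
    calc volume.real S ≤ 5 * τ * vB := this
      _ = 5 * vB * τ := by ring
  have hB' : 4 * τ * (∫ x in S, msz (M x)) ≤
      (4 * Real.sqrt (5 * vB) + 100 * Real.sqrt (2 * vK) + 1) * τ * Real.sqrt τ * Real.sqrt A := by
    have h1 := mul_le_mul_of_nonneg_left hB (by positivity : 0 ≤ 4 * τ)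
    have h2 : 0 ≤ τ * Real.sqrt τ * Real.sqrt A := by positivity
    have h3 : 0 ≤ Real.sqrt (2 * vK) := Real.sqrt_nonneg _
    nlinarith [mul_nonneg h3 h2]
  refine ⟨(int_tan hGi).mono_set hSK, (int_neg hGi).mono_set hSK, (int_vsz hGi).mono_set hSK,
    ?_, ?_, ?_⟩
  · -- tangential part
    refine le_trans ?_ hB'
    exact le_of_tendsto_of_tendsto' T1 ((T4 S hSK).const_mul (4 * τ))
      (fun n => (hHXRAY (v n) τ (hv n) (hv1 n) hτ0 hτ1).1)
  · -- radial part
    refine le_trans ?_ hB'
    have key : ∀ δ : ℝ, 0 < δ → δ < τ →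
        ∫ x in cAnn (Real.exp δ) (Real.exp τ), negP x (-G x) ≤ 4 * τ * (∫ x in S, msz (M x)) := by
      intro δ hδ0 hδτ
      have hδ1 : 1 < Real.exp δ := Real.one_lt_exp_iff.2 hδ0
      set T := cAnn (Real.exp δ) (Real.exp τ) with hTdef
      have hTS : T ⊆ S := fun x hx => ⟨by linarith [hx.1], hx.2⟩
      have hTK : T ⊆ K := hTS.trans hSK
      have hTfin : volume T < ⊤ := (isCompact_cAnn _ _).measure_lt_top
      have h0 : Tendsto (fun n => ∫ x in T, max ((v n x - 1) / (‖x‖ - 1)) 0) atTop (𝓝 0) := by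
        rw [Metric.tendsto_atTop]
        intro e he
        set w := volume.real T with hw
        have hw0 : 0 ≤ w := measureReal_nonneg
        set e' := e * (Real.exp δ - 1) / (2 * (w + 1)) with he'
        have he'0 : 0 < e' := by
          apply div_pos (mul_pos he (by linarith)) (by linarith)
        have h1 := Metric.tendstoUniformlyOn_iff.1 hvu e' he'0
        obtain ⟨N, hN⟩ := eventually_atTop.1 h1
        refine ⟨N, fun n hn => ?_⟩
        rw [Real.dist_eq, sub_zero]
        have h2 : ∀ x ∈ T, ‖max ((v n x - 1) / (‖x‖ - 1)) 0‖ ≤ e' / (Real.exp δ - 1) := by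
          intro x hx
          have h3 := hN n hn x (hTK hx)
          rw [Real.dist_eq, abs_lt] at h3
          have h4 : u x ≤ 1 := hle x (hTS hx).1 (by linarith [hx.2])
          have h5 : Real.exp δ - 1 ≤ ‖x‖ - 1 := by linarith [hx.1]
          rw [Real.norm_eq_abs, abs_of_nonneg (le_max_right _ _)]
          apply max_le
          · have h6 : (v n x - 1) / (‖x‖ - 1) ≤ e' / (‖x‖ - 1) :=
              div_le_div_of_nonneg_right (by linarith [h3.1]) (by linarith)
            exact h6.trans (div_le_div_of_nonneg_left he'0.le (by linarith) h5)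
          · exact div_nonneg he'0.le (by linarith)
        have h3 := norm_setIntegral_le_of_norm_le_const hTfin h2
        rw [Real.norm_eq_abs] at h3
        refine lt_of_le_of_lt h3 ?_
        have h4 : e' / (Real.exp δ - 1) * w = e * (w / (2 * (w + 1))) := by
          rw [he']
          have h5 : Real.exp δ - 1 ≠ 0 := by linarith
          field_simp
        show e' / (Real.exp δ - 1) * w < e
        rw [h4]
        have h5 : w / (2 * (w + 1)) < 1 := by
          rw [div_lt_one (by linarith)]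
          linarith
        nlinarith
      have h1 := h0.add ((T4 S hSK).const_mul (4 * τ))
      rw [zero_add] at h1
      exact le_of_tendsto_of_tendsto' (T2 T hTK) h1
        (fun n => (hHXRAY (v n) τ (hv n) (hv1 n) hτ0 hτ1).2 δ hδ0 hδτ)
    -- exhaustion
    set s : ℕ → Set E3 := fun n => cAnn (Real.exp (τ / (n + 2))) (Real.exp τ) with hs
    have hsm : ∀ n, MeasurableSet (s n) := fun n => (isCompact_cAnn _ _).measurableSet
    have hmono : Monotone s := by
      intro m n hmn x hx
      refine ⟨le_trans ?_ hx.1, hx.2⟩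
      apply Real.exp_le_exp.2
      apply div_le_div_of_nonneg_left hτ0.le (by positivity)
      have : (m : ℝ) ≤ n := by exact_mod_cast hmn
      linarith
    have hU : (⋃ n, s n) = S \ Metric.sphere 0 1 := by
      ext x
      constructor
      · intro hx
        obtain ⟨n, hn⟩ := Set.mem_iUnion.1 hx
        have h1 : 1 < Real.exp (τ / (n + 2)) := Real.one_lt_exp_iff.2 (by positivity)
        have h2 : 1 < ‖x‖ := lt_of_lt_of_le h1 hn.1
        refine ⟨⟨h2.le, hn.2⟩, ?_⟩
        rw [mem_sphere_zero_iff_norm]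
        exact h2.ne'
      · rintro ⟨hx, hx1⟩
        rw [mem_sphere_zero_iff_norm] at hx1
        have h2 : 1 < ‖x‖ := lt_of_le_of_ne hx.1 (Ne.symm hx1)
        have h3 : 0 < Real.log ‖x‖ := Real.log_pos h2
        obtain ⟨n, hn⟩ := exists_nat_gt (τ / Real.log ‖x‖)
        apply Set.mem_iUnion.2
        refine ⟨n, ?_, hx.2⟩
        rw [← Real.le_log_iff_exp_le (by linarith), div_le_iff₀ (by positivity)]
        rw [div_lt_iff₀ h3] at hn
        nlinarith
    have hUae : (⋃ n, s n) =ᵐ[volume] S := by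
      rw [hU]
      apply sdiff_null_ae_eq_self
      exact Measure.addHaar_sphere _ _ _
    have hint : IntegrableOn (fun x => negP x (-G x)) (⋃ n, s n) := by
      rw [hU]
      exact ((int_neg hGi).mono_set hSK).mono_set Set.sdiff_subset
    have hlim := tendsto_setIntegral_of_monotone hsm hmono hint
    rw [setIntegral_congr_set hUae] at hlim
    refine le_of_tendsto' hlim (fun n => key _ (by positivity) ?_)
    apply div_lt_self hτ0
    have : (0 : ℝ) ≤ n := by positivity
    linarith
  · -- all derivatives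
    have h1 : Tendsto (fun n => ∫ x in S', (vsz (grad (v n) x) + msz (hess2 (v n) x))) atTop
        (𝓝 (∫ x in S', (vsz (G x) + msz (M x)))) := by
      have h2 := (T3 S' hS'K).add (T4 S' hS'K)
      rw [← integral_add ((int_vsz hGi).mono_set hS'K) ((int_msz hMi).mono_set hS'K)] at h2
      refine h2.congr fun n => ?_
      rw [← integral_add ((int_vsz (hgi n)).mono_set hS'K) ((int_msz (hhi n)).mono_set hS'K)]
    have h2 : ∫ x in S, vsz (G x) ≤ 100 * τ * (∫ x in S', (vsz (G x) + msz (M x))) :=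
      le_of_tendsto_of_tendsto' (T3 S hSK) (h1.const_mul (100 * τ))
        (fun n => hHXTR (v n) τ (hv n) hτ0 hτ1)
    have h3 := hbd S' hS'm hS'K (fun x => vsz (G x) + msz (M x)) 2 zero_le_two (hLG.add hLM)
      (fun x => by nlinarith [sq_nonneg (vsz (G x) - msz (M x))])
    have h4 : Real.sqrt (volume.real S') * Real.sqrt (2 * A) =
        Real.sqrt (2 * vK) * Real.sqrt A := by
      rw [← Real.sqrt_mul hvK0, ← Real.sqrt_mul (by positivity)]
      congr 1
      ring
    rw [h4] at h3
    have h5 := mul_le_mul_of_nonneg_left h3 (by positivity : 0 ≤ 100 * τ)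
    have h6 : 0 ≤ τ * Real.sqrt A := by positivity
    have h7 : 0 ≤ Real.sqrt (5 * vB) := Real.sqrt_nonneg _
    refine h2.trans (h5.trans ?_)
    nlinarith [mul_nonneg h7 h6]

end Pool.Agent.PFlow.HX
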