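import Pool.Agent.PFlow.StmtsHX
import Pool.Agent.PFlow.E.XWI
import Pool.Agent.PFlow.E.SHELL
import Pool.Agent.PFlow.P.CordI

/-!
# HXA: Cordes' inequality at a point, with the raw second derivatives
-/

open MeasureTheory Filter Topology
open scoped ContDiff Matrix

namespace Pool.Agent.PFlow.HX

open Pool.Agent.PenroseSph Pool.Agent.PFlow

namespace HXAaux

theorem det_bound {B : Bil} {L : ℝ} (h : ∀ i j, |B i j| ≤ L) : B.det ≤ 6 * L ^ 3 := by
  have hL : 0 ≤ L := (abs_nonneg _).trans (h 0 0)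
  have key : ∀ i j k l m n : Fin 3, |B i j * B k l * B m n| ≤ L ^ 3 := by
    intro i j k l m n
    rw [abs_mul, abs_mul]
    calc |B i j| * |B k l| * |B m n| ≤ L * L * L := by
          gcongr
          · exact h i j
          · exact h k l
          · exact h m n
      _ = L ^ 3 := by ring
  rw [Matrix.det_fin_three]
  have k1 := (abs_le.1 (key 0 0 1 1 2 2)).2
  have k2 := (abs_le.1 (key 0 0 1 2 2 1)).1
  have k3 := (abs_le.1 (key 0 1 1 0 2 2)).1
  have k4 := (abs_le.1 (key 0 1 1 2 2 0)).2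
  have k5 := (abs_le.1 (key 0 2 1 0 2 1)).2
  have k6 := (abs_le.1 (key 0 2 1 1 2 0)).1
  linarith

theorem sq_entry {g : TensorField} {x : E3} (hg : (g x).PosDef) {L : ℝ}
    (h : ∀ i j, |g x i j| ≤ L) (B : Bil) (i j : Fin 3) : B i j ^ 2 ≤ L ^ 2 * nsq g x B := by
  have hL : 0 ≤ L := (abs_nonneg _).trans (h 0 0)
  have hG : (g x)⁻¹.PosDef := hg.inv
  have hs : ((g x)⁻¹)ᵀ = (g x)⁻¹ := by
    have := hG.isHermitian
    rwa [Matrix.IsHermitian, Matrix.conjTranspose_eq_transpose_of_trivial] at this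
  have hi : (g x)⁻¹ * g x = 1 := Matrix.nonsing_inv_mul _ hg.det_pos.ne'.isUnit
  have hi' : g x * (g x)⁻¹ = 1 := Matrix.mul_nonsing_inv _ hg.det_pos.ne'.isUnit
  have hgs : (g x)ᵀ = g x := by
    have := hg.isHermitian
    rwa [Matrix.IsHermitian, Matrix.conjTranspose_eq_transpose_of_trivial] at this
  set D : Bil := g x * Matrix.single i j 1 * g x with hD
  have hc := KTN.bin_cs hG.posSemidef B D
  have e0 : (g x)⁻¹ * D * (g x)⁻¹ = Matrix.single i j 1 := by
    have : (g x)⁻¹ * D * (g x)⁻¹ =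
        ((g x)⁻¹ * g x) * Matrix.single i j 1 * (g x * (g x)⁻¹) := by
      rw [hD]
      simp only [Matrix.mul_assoc]
    rw [this, hi, hi', Matrix.one_mul, Matrix.mul_one]
  have e1 : KTN.bin (g x)⁻¹ B D = B i j := by
    unfold KTN.bin
    rw [e0]
    simp only [Matrix.trace, Matrix.diag_apply, Matrix.mul_apply, Matrix.transpose_apply,
      Matrix.single_apply]
    rw [Finset.sum_eq_single j, Finset.sum_eq_single i]
    · simp
    · intro b _ hb
      simp [hb.symm]
    · simp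
    · intro b _ hb
      refine Finset.sum_eq_zero fun a _ => ?_
      simp [hb.symm]
    · simp
  have e2 : KTN.bin (g x)⁻¹ D D = g x i i * g x j j := by
    unfold KTN.bin
    rw [e0]
    have hDij : D i j = g x i i * g x j j := by
      rw [hD]
      simp only [Matrix.mul_apply, Matrix.single_apply]
      rw [Finset.sum_eq_single j, Finset.sum_eq_single i]
      · simp
      · intro b _ hb
        simp [hb.symm]
      · simp
      · intro b _ hb
        rw [Finset.sum_eq_zero, zero_mul]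
        intro a _
        simp [hb.symm]
      · simp
    rw [← hDij]
    simp only [Matrix.trace, Matrix.diag_apply, Matrix.mul_apply, Matrix.transpose_apply,
      Matrix.single_apply]
    rw [Finset.sum_eq_single j, Finset.sum_eq_single i]
    · simp
    · intro b _ hb
      simp [hb.symm]
    · simp
    · intro b _ hb
      refine Finset.sum_eq_zero fun a _ => ?_
      simp [hb.symm]
    · simp
  have e3 : KTN.bin (g x)⁻¹ B B = nsq g x B := by
    rw [KTN.bin_eq _ _ _ hs]
    rfl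
  rw [e1, e2, e3] at hc
  have hn := XWI.nsq_nonneg hg B
  have h1 : g x i i * g x j j ≤ L ^ 2 := by
    have a1 := h i i
    have a2 := h j j
    calc g x i i * g x j j ≤ |g x i i * g x j j| := le_abs_self _
      _ = |g x i i| * |g x j j| := abs_mul _ _
      _ ≤ L * L := mul_le_mul a1 a2 (abs_nonneg _) hL
      _ = L ^ 2 := by ring
  calc B i j ^ 2 ≤ nsq g x B * (g x i i * g x j j) := hc
    _ ≤ nsq g x B * L ^ 2 := mul_le_mul_of_nonneg_left h1 hn
    _ = L ^ 2 * nsq g x B := by ring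

theorem vsz_sq (p : Cov) : vsz p ^ 2 = ∑ i, p i ^ 2 :=
  Real.sq_sqrt (Finset.sum_nonneg fun _ _ => sq_nonneg _)

theorem abs_le_vsz (p : Cov) (i : Fin 3) : |p i| ≤ vsz p := by
  unfold vsz
  apply Real.abs_le_sqrt
  exact Finset.single_le_sum (f := fun i => p i ^ 2) (fun _ _ => sq_nonneg _) (Finset.mem_univ i)

theorem msz_sq (B : Bil) : msz B ^ 2 = ∑ i, ∑ j, B i j ^ 2 :=
  Real.sq_sqrt (Finset.sum_nonneg fun _ _ => Finset.sum_nonneg fun _ _ => sq_nonneg _)

theorem msz_le {g : TensorField} {x : E3} (hg : (g x).PosDef) {L : ℝ}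
    (h : ∀ i j, |g x i j| ≤ L) (B : Bil) : msz B ^ 2 ≤ 9 * L ^ 2 * nsq g x B := by
  rw [msz_sq]
  have h1 : ∑ i, ∑ j, B i j ^ 2 ≤ ∑ _i : Fin 3, ∑ _j : Fin 3, L ^ 2 * nsq g x B :=
    Finset.sum_le_sum fun i _ => Finset.sum_le_sum fun j _ => sq_entry hg h B i j
  refine h1.trans (le_of_eq ?_)
  simp
  ring

theorem vol_bounds {g : TensorField} {x : E3} (hg : (g x).PosDef) {L : ℝ} (hL : 0 < L)
    (h : ∀ i j, |g x i j| ≤ L) (hi : ∀ i j, |(g x)⁻¹ i j| ≤ L) :
    (Real.sqrt (6 * L ^ 3))⁻¹ ≤ volDen g x ∧ volDen g x ≤ Real.sqrt (6 * L ^ 3) := by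
  have h1 := det_bound h
  have h2 := det_bound hi
  have hd := hg.det_pos
  have hdi : (g x)⁻¹.det * (g x).det = 1 := by
    rw [← Matrix.det_mul, Matrix.nonsing_inv_mul _ hd.ne'.isUnit, Matrix.det_one]
  constructor
  · unfold volDen
    rw [← Real.sqrt_inv]
    apply Real.sqrt_le_sqrt
    have h3 : 0 < 6 * L ^ 3 := by positivity
    rw [inv_le_iff_one_le_mul₀ h3]
    calc (1 : ℝ) = (g x)⁻¹.det * (g x).det := hdi.symm
      _ ≤ (6 * L ^ 3) * (g x).det := mul_le_mul_of_nonneg_right h2 hd.le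
      _ = (g x).det * (6 * L ^ 3) := mul_comm _ _
  · unfold volDen
    exact Real.sqrt_le_sqrt h1

theorem chr_bound {g : TensorField} {x : E3} {L : ℝ}
    (hi : ∀ i j, |(g x)⁻¹ i j| ≤ L) (hd : ∀ i j m, |pd m (fun y => g y i j) x| ≤ L)
    (k i j : Fin 3) : |christoffel g k i j x| ≤ 5 * L ^ 2 := by
  have hL : 0 ≤ L := (abs_nonneg _).trans (hi 0 0)
  have key : ∀ l : Fin 3, |(g x)⁻¹ k l * (pd i (fun y => g y j l) x + pd j (fun y => g y i l) x
      - pd l (fun y => g y i j) x)| ≤ 3 * L ^ 2 := by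
    intro l
    rw [abs_mul]
    have h1 : |pd i (fun y => g y j l) x + pd j (fun y => g y i l) x
        - pd l (fun y => g y i j) x| ≤ 3 * L := by
      have a1 := abs_le.1 (hd j l i)
      have a2 := abs_le.1 (hd i l j)
      have a3 := abs_le.1 (hd i j l)
      rw [abs_le]
      constructor <;> linarith
    calc _ ≤ L * (3 * L) := mul_le_mul (hi k l) h1 (abs_nonneg _) hL
      _ = 3 * L ^ 2 := by ring
  unfold christoffel
  rw [abs_mul]
  have h2 := Finset.abs_sum_le_sum_abs (fun l => (g x)⁻¹ k l * (pd i (fun y => g y j l) x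
    + pd j (fun y => g y i l) x - pd l (fun y => g y i j) x)) Finset.univ
  have h3 : ∑ l : Fin 3, |(g x)⁻¹ k l * (pd i (fun y => g y j l) x
    + pd j (fun y => g y i l) x - pd l (fun y => g y i j) x)| ≤ ∑ _l : Fin 3, 3 * L ^ 2 :=
    Finset.sum_le_sum fun l _ => key l
  have h4 : ∑ _l : Fin 3, 3 * L ^ 2 = 9 * L ^ 2 := by
    simp
    ring
  rw [h4] at h3
  have h5 : |(1 / 2 : ℝ)| = 1 / 2 := abs_of_pos (by norm_num)
  rw [h5]
  nlinarith [h2.trans h3, sq_nonneg L]

/-- the algebra of the final estimate -/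
theorem alg {ε n N t T e f : ℝ} (hε : 0 < ε) (hε1 : ε < 1) (hn : 0 ≤ n) (he : 0 ≤ e)
    (hf : 0 ≤ f)
    (h1 : N ≤ (1 + ε / 4) * n + (1 + 4 / ε) * e)
    (h2 : T ^ 2 ≤ (1 - ε) * N + f)
    (h3 : t ^ 2 ≤ (1 + ε / 4) * T ^ 2 + (1 + 4 / ε) * e) :
    ε / 2 * n - (3 * ((1 + 4 / ε) * e) + 2 * f) ≤ n - t ^ 2 := by
  set q := (1 + 4 / ε) * e with hq
  have hq0 : 0 ≤ q := by positivity
  have a1 : (1 - ε) * N ≤ (1 - ε) * ((1 + ε / 4) * n + q) :=
    mul_le_mul_of_nonneg_left h1 (by linarith)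
  have a2 : T ^ 2 ≤ (1 - ε) * ((1 + ε / 4) * n + q) + f := by linarith
  have a3 : (1 + ε / 4) * T ^ 2 ≤ (1 + ε / 4) * ((1 - ε) * ((1 + ε / 4) * n + q) + f) :=
    mul_le_mul_of_nonneg_left a2 (by linarith)
  have a4 : (1 + ε / 4) * (1 - ε) * (1 + ε / 4) ≤ 1 - ε / 2 := by nlinarith [sq_nonneg ε]
  have a5 : (1 + ε / 4) * (1 - ε) * (1 + ε / 4) * n ≤ (1 - ε / 2) * n :=
    mul_le_mul_of_nonneg_right a4 hn
  have a6 : (1 + ε / 4) * (1 - ε) ≤ 2 := by nlinarith [sq_nonneg ε]
  have a7 : (1 + ε / 4) * (1 - ε) * q ≤ 2 * q := mul_le_mul_of_nonneg_right a6 hq0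
  have a8 : (1 + ε / 4) * f ≤ 2 * f := mul_le_mul_of_nonneg_right (by linarith) hf
  nlinarith

end HXAaux

open HXAaux in
theorem HXA : Stmt_HXA := by
  intro ε Λ hε hε1 hΛ
  set v := Real.sqrt (6 * Λ ^ 3) with hv
  have hv0 : 0 < v := Real.sqrt_pos.2 (by positivity)
  set K1 : ℝ := 18225 * Λ ^ 6 with hK1
  set K2 : ℝ := 324 * Λ ^ 5 with hK2
  set K3 : ℝ := 3 * ((1 + 4 / ε) * K1) + 2 * ((1 + 1 / ε) * K2) with hK3
  have hK10 : 0 ≤ K1 := by positivity
  have hK20 : 0 ≤ K2 := by positivity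
  have hK30 : 0 ≤ K3 := by positivity
  refine ⟨v⁻¹ * (ε / 2) / (9 * Λ ^ 2), v * K3 + 1, by positivity, by positivity, ?_⟩
  intro g h x p M hb heq hzero
  have hg := hb.posDef
  have hinv : ∀ i j, |(g x)⁻¹ i j| ≤ Λ := EShell.inv_entry hg hb.elliptic
  obtain ⟨hvl, hvu⟩ := vol_bounds hg hΛ hb.metric hinv
  by_cases hp : p = 0
  · have hM := hzero hp
    have e1 : msz M = 0 := by
      rw [hM]
      simp [msz]
    have e2 : nsq g x M = 0 := by
      rw [hM]
      simp [nsq]
    have e3 : trg g x M = 0 := by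
      rw [hM]
      simp [trg]
    rw [e1, e2, e3]
    have : 0 ≤ (v * K3 + 1) * vsz p ^ 2 := by positivity
    simpa using this
  · set P := vsz p with hP
    have hP0 : 0 ≤ P := Real.sqrt_nonneg _
    set H : Bil := cHess g x p M with hH
    set E : Bil := M - H with hE
    have hEe : ∀ i j, E i j = ∑ k, christoffel g k i j x * p k := by
      intro i j
      simp only [hE, hH, cHess, Matrix.sub_apply, Matrix.of_apply]
      ring
    have hEb : ∀ i j, |E i j| ≤ 15 * Λ ^ 2 * P := by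
      intro i j
      rw [hEe]
      refine (Finset.abs_sum_le_sum_abs _ _).trans ?_
      calc ∑ k, |christoffel g k i j x * p k| ≤ ∑ _k : Fin 3, 5 * Λ ^ 2 * P := by
            refine Finset.sum_le_sum fun k _ => ?_
            rw [abs_mul]
            exact mul_le_mul (chr_bound hinv hb.deriv k i j) (abs_le_vsz p k) (abs_nonneg _)
              (by positivity)
        _ = 15 * Λ ^ 2 * P := by simp; ring
    have hnn : ∀ B : Bil, 0 ≤ nsq g x B := XWI.nsq_nonneg hg
    have hEn : nsq g x E ≤ K1 * P ^ 2 := by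
      have h1 := (le_abs_self _).trans (EShell.nsq_le E hinv hEb)
      refine h1.trans (le_of_eq ?_)
      rw [hK1]
      ring
    have hEt : trg g x E ^ 2 ≤ K1 * P ^ 2 := by
      have h1 := EShell.trg_le E hinv hEb
      have h2 : trg g x E ^ 2 ≤ (9 * (Λ * (15 * Λ ^ 2 * P))) ^ 2 :=
        sq_le_sq' (by linarith [neg_abs_le (trg g x E)]) ((le_abs_self _).trans h1)
      refine h2.trans (le_of_eq ?_)
      rw [hK1]
      ring
    -- the equation
    set F : ℝ := len g x p * beps ε g x p (h x) with hF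
    have hlen : len g x p ^ 2 ≤ Λ * P ^ 2 := by
      obtain ⟨h1, h2⟩ := EShell.ev_inv_le hg hb.elliptic p
      unfold len
      rw [Real.sq_sqrt h1, hP, vsz_sq]
      exact h2
    have hbh : beps ε g x p (h x) ^ 2 ≤ 324 * Λ ^ 4 := by
      have h1 := EShell.trg_le (h x) hinv hb.tensor
      have h2 := XWI.bnn_abs hg p (h x)
      have h3 := (le_abs_self _).trans (EShell.nsq_le (h x) hinv hb.tensor)
      have h4 : Real.sqrt (nsq g x (h x)) ≤ 9 * (Λ * Λ) := by
        apply Real.sqrt_le_iff.mpr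
        refine ⟨by positivity, h3.trans (le_of_eq (by ring))⟩
      have h5 : |beps ε g x p (h x)| ≤ 18 * Λ ^ 2 := by
        unfold beps
        calc |trg g x (h x) - (1 - ε) * bnn g x p (h x)|
            ≤ |trg g x (h x)| + |(1 - ε) * bnn g x p (h x)| := abs_sub _ _
          _ ≤ 9 * (Λ * Λ) + 1 * (9 * (Λ * Λ)) := by
              refine add_le_add h1 ?_
              rw [abs_mul]
              refine mul_le_mul ?_ (h2.trans h4) (abs_nonneg _) zero_le_one
              rw [abs_le]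
              constructor <;> linarith
          _ = 18 * Λ ^ 2 := by ring
      have h6 := sq_le_sq' (by linarith [neg_abs_le (beps ε g x p (h x))])
        ((le_abs_self _).trans h5)
      refine h6.trans (le_of_eq (by ring))
    have hF2 : F ^ 2 ≤ K2 * P ^ 2 := by
      rw [hF, mul_pow]
      calc len g x p ^ 2 * beps ε g x p (h x) ^ 2 ≤ (Λ * P ^ 2) * (324 * Λ ^ 4) :=
            mul_le_mul hlen hbh (sq_nonneg _) (by positivity)
        _ = K2 * P ^ 2 := by rw [hK2]; ring
    have hT : trg g x H = (1 - ε) * bnn g x p H - F := by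
      have h1 := heq hp
      rw [beps] at h1
      linarith
    have hT2 : trg g x H ^ 2 ≤ (1 - ε) * nsq g x H + (1 + 1 / ε) * K2 * P ^ 2 := by
      have hs0 : 0 < √ε := Real.sqrt_pos.2 hε
      have hy := PB.CordI.sq_young ((1 - ε) * bnn g x p H) F hs0
      rw [Real.sq_sqrt hε.le] at hy
      rw [← hT] at hy
      have h1 : bnn g x p H ^ 2 ≤ nsq g x H := by
        have := XWI.bnn_abs hg p H
        have h2 := sq_le_sq' (by linarith [neg_abs_le (bnn g x p H)])
          ((le_abs_self _).trans this)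
        rwa [Real.sq_sqrt (hnn H)] at h2
      have h2 : (1 + ε) * ((1 - ε) * bnn g x p H) ^ 2 ≤ (1 - ε) * nsq g x H := by
        have h3 : (1 + ε) * ((1 - ε) * bnn g x p H) ^ 2 =
            ((1 - ε ^ 2) * (1 - ε)) * bnn g x p H ^ 2 := by ring
        rw [h3]
        calc ((1 - ε ^ 2) * (1 - ε)) * bnn g x p H ^ 2
            ≤ (1 * (1 - ε)) * bnn g x p H ^ 2 := by
              refine mul_le_mul_of_nonneg_right ?_ (sq_nonneg _)
              refine mul_le_mul_of_nonneg_right ?_ (by linarith)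
              nlinarith [sq_nonneg ε]
          _ = (1 - ε) * bnn g x p H ^ 2 := by ring
          _ ≤ (1 - ε) * nsq g x H := mul_le_mul_of_nonneg_left h1 (by linarith)
      have h4 : (1 + ε⁻¹) * F ^ 2 ≤ (1 + 1 / ε) * K2 * P ^ 2 := by
        rw [one_div, mul_assoc]
        exact mul_le_mul_of_nonneg_left hF2 (by positivity)
      linarith
    -- Young
    set s : ℝ := √ε / 2 with hs
    have hs0 : 0 < s := by
      have := Real.sqrt_pos.2 hε
      positivity
    have hs2 : s ^ 2 = ε / 4 := by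
      rw [hs, div_pow, Real.sq_sqrt hε.le]
      norm_num
    have hs3 : (s ^ 2)⁻¹ = 4 / ε := by
      rw [hs2, inv_div]
    have hneg : nsq g x (-E) = nsq g x E := by
      unfold nsq
      refine Finset.sum_congr rfl fun i _ => Finset.sum_congr rfl fun j _ =>
        Finset.sum_congr rfl fun k _ => Finset.sum_congr rfl fun l _ => ?_
      rw [Matrix.neg_apply, Matrix.neg_apply]
      ring
    have hy1 := PB.CordI.nsq_young g x hnn M (-E) hs0
    have hME : M + -E = H := by rw [hE]; abel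
    rw [hME, hs3, hs2, hneg] at hy1
    have htr : trg g x M = trg g x H - -trg g x E := by
      have h1 : M = H + E := by rw [hE]; abel
      have : trg g x (H + E) = trg g x H + trg g x E := by
        simp only [trg, Matrix.add_apply, mul_add, Finset.sum_add_distrib]
      rw [← h1] at this
      linarith
    have hy2 := PB.CordI.sq_young (trg g x H) (-trg g x E) hs0
    rw [← htr, hs3, hs2, neg_sq] at hy2
    have h14 : 0 ≤ 1 + 4 / ε := by positivity
    have k1 : nsq g x H ≤ (1 + ε / 4) * nsq g x M + (1 + 4 / ε) * (K1 * P ^ 2) :=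
      hy1.trans (by linarith [mul_le_mul_of_nonneg_left hEn h14])
    have k3 : trg g x M ^ 2 ≤ (1 + ε / 4) * trg g x H ^ 2 + (1 + 4 / ε) * (K1 * P ^ 2) :=
      hy2.trans (by linarith [mul_le_mul_of_nonneg_left hEt h14])
    have key := alg hε hε1 (hnn M) (by positivity) (by positivity) k1 hT2 k3
    have hmm := msz_le hg hb.metric M
    have hm2 : msz M ^ 2 / (9 * Λ ^ 2) ≤ nsq g x M := by
      rw [div_le_iff₀ (by positivity)]
      linarith
    have hkey : ε / 2 * nsq g x M - K3 * P ^ 2 ≤ nsq g x M - trg g x M ^ 2 := by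
      refine le_trans (le_of_eq ?_) key
      rw [hK3]
      ring
    have hvn : 0 ≤ volDen g x := Real.sqrt_nonneg _
    have f1 := mul_le_mul_of_nonneg_left hkey hvn
    have f2 : v⁻¹ * (ε / 2 * nsq g x M) ≤ volDen g x * (ε / 2 * nsq g x M) :=
      mul_le_mul_of_nonneg_right hvl (mul_nonneg (by positivity) (hnn M))
    have f3 : volDen g x * (K3 * P ^ 2) ≤ v * (K3 * P ^ 2) :=
      mul_le_mul_of_nonneg_right hvu (by positivity)
    have f4 : v⁻¹ * (ε / 2) / (9 * Λ ^ 2) * msz M ^ 2 ≤ v⁻¹ * (ε / 2 * nsq g x M) := by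
      calc v⁻¹ * (ε / 2) / (9 * Λ ^ 2) * msz M ^ 2
          = v⁻¹ * (ε / 2) * (msz M ^ 2 / (9 * Λ ^ 2)) := by ring
        _ ≤ v⁻¹ * (ε / 2) * nsq g x M := mul_le_mul_of_nonneg_left hm2 (by positivity)
        _ = v⁻¹ * (ε / 2 * nsq g x M) := by ring
    have f5 : 0 ≤ P ^ 2 := sq_nonneg _
    rw [mul_sub] at f1
    linarith

end Pool.Agent.PFlow.HX
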