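import Pool.Agent.PFlow.StmtsHX
import Pool.Agent.PFlow.E.LEYa

/-!
# Module HXANTI: functions odd under the inversion, approximations equal to `1` on the sphere
-/

set_option autoImplicit false
set_option maxHeartbeats 400000

open MeasureTheory Filter Topology
open scoped ContDiff ENNReal Manifold

namespace Pool.Agent.PFlow.HX

open Pool.Agent.PenroseSph Pool.Agent.PFlow Pool.Agent.PFlow.GB.COVGm
open Pool.Agent.PenroseConvex.CovR (D2 Chg chg_eventually)

namespace HXANTIaux

open Pool.Agent.PFlow.LEYaux

/-- A function which is equal to `2 - u`. -/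
theorem h2_two_sub {U : Set E3} {u w : E3 → ℝ} {G : E3 → Cov} {M : E3 → Bil}
    (hu : H2On U u G M) (hw : ∀ x ∈ U, w x = 2 - u x) :
    H2On U w (fun x => -G x) (fun x => -M x) := by
  refine ⟨(continuousOn_const.sub hu.cont).congr hw, ?_, ?_, ?_⟩
  · intro K hK hKU i
    exact (hu.memG K hK hKU i).neg
  · intro K hK hKU i j
    exact (hu.memM K hK hKU i j).neg
  · intro K hK hKU
    obtain ⟨v, hv, hvu, hvG, hvM⟩ := hu.approx K hK hKU
    have e1 : ∀ n i, pd i (fun x => 2 - v n x) = fun x => - pd i (v n) x := by
      intro n i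
      funext x
      have := pd_sub (i := i) (f := fun _ => (2 : ℝ)) (f' := v n) (x := x)
        (differentiableAt_const _) ((hv n).contDiffAt.differentiableAt (by simp))
      rw [this, pd_const, zero_sub]
    have e2 : ∀ n i j, pd i (pd j (fun x => 2 - v n x)) = fun x => - pd i (pd j (v n)) x := by
      intro n i j
      rw [e1]
      funext x
      unfold pd
      rw [fderiv_fun_neg]
      rfl
    refine ⟨fun n x => 2 - v n x, fun n => contDiff_const.sub (hv n), ?_, ?_, ?_⟩
    · rw [Metric.tendstoUniformlyOn_iff] at hvu ⊢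
      intro δ hδ
      filter_upwards [hvu δ hδ] with n hn x hx
      have := hn x hx
      rw [Real.dist_eq] at this ⊢
      rw [hw x (hKU hx), show 2 - u x - (2 - v n x) = -(u x - v n x) by ring, abs_neg]
      exact this
    · intro i
      refine (hvG i).congr fun n => ?_
      congr 1
      funext x
      rw [e1]
      simp only [Pi.neg_apply]
      ring
    · intro i j
      refine (hvM i j).congr fun n => ?_
      congr 1
      funext x
      rw [e2]
      simp only [Matrix.neg_apply]
      ring

theorem pd_contDiff {f : E3 → ℝ} (hf : ContDiff ℝ ∞ f) (i : Fin 3) : ContDiff ℝ ∞ (pd i f) := by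
  have h4 : ContDiff ℝ ∞ (fderiv ℝ f) := hf.fderiv_right (m := ∞) (by simp)
  exact h4.clm_apply contDiff_const

theorem memLp_cont {K : Set E3} (hKc : IsCompact K) {f : E3 → ℝ} (hf : Continuous f) :
    MemLp f 2 (volume.restrict K) := by
  have : MemLp (fun x => f x * (fun _ => (1 : ℝ)) x) 2 (volume.restrict K) :=
    memLp_bdd_mul hKc hf.continuousOn (by
      have : IsFiniteMeasure (volume.restrict K) :=
        ⟨by rw [Measure.restrict_apply_univ]; exact hKc.measure_lt_top⟩
      exact memLp_const 1)
  simpa using this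

/-- Convergence of the transformed functions. -/
theorem conv_inv {K : Set E3} (hKc : IsCompact K) (hK : K ⊆ {0}ᶜ) {G : E3 → Cov} {M : E3 → Bil}
    (hmG : ∀ a, MemLp (fun x => G x a) 2 (volume.restrict (inversion '' K)))
    (hmM : ∀ a b, MemLp (fun x => M x a b) 2 (volume.restrict (inversion '' K)))
    {v : ℕ → E3 → ℝ} (hv : ∀ n, ContDiff ℝ ∞ (v n))
    (hvG : ∀ i, Tendsto (fun n => ∫ x in inversion '' K, (pd i (v n) x - G x i) ^ 2) atTop (𝓝 0))
    (hvM : ∀ i j, Tendsto (fun n => ∫ x in inversion '' K,
      (pd i (pd j (v n)) x - M x i j) ^ 2) atTop (𝓝 0))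
    {χ : E3 → ℝ} (hχ1 : ∀ y ∈ K, ∀ᶠ z in 𝓝 y, χ z = 1) :
    (∀ i, Tendsto (fun n => ∫ y in K, (pd i (fun z => χ z * v n (inversion z)) y
      - gy G y i) ^ 2) atTop (𝓝 0)) ∧
    (∀ i j, Tendsto (fun n => ∫ y in K, (pd i (pd j (fun z => χ z * v n (inversion z))) y
      - my G M y i j) ^ 2) atTop (𝓝 0)) := by
  have hKc' := isCompact_image hKc hK
  have e : ∀ n, ∀ y ∈ K, (fun z => χ z * v n (inversion z)) =ᶠ[𝓝 y]
      fun z => v n (inversion z) := by
    intro n y hy
    filter_upwards [hχ1 y hy] with z hz
    rw [hz, one_mul]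
  have hpdc : ∀ n a, ContDiff ℝ ∞ (pd a (v n)) := fun n a => pd_contDiff (hv n) a
  refine ⟨?_, ?_⟩
  · intro i
    have h1 := tendsto_sum hKc hK (fun (a : Fin 3) y => PenroseConvex.jac inversion y a i)
      (fun a => jac_continuousOn hK a i) (fun n a x => pd a (v n) x - G x a)
      (fun n a => (memLp_cont hKc' (hpdc n a).continuous).sub (hmG a)) hvG
    refine h1.congr fun n => setIntegral_congr_fun hKc.measurableSet fun y hy => ?_
    have h2 : pd i (fun y => χ y * v n (inversion y)) y
        = ∑ a, pd a (v n) (inversion y) * PenroseConvex.jac inversion y a i := by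
      rw [pd_congr (e n y hy)]
      have h3 := congrFun (grad_comp (Φ := inversion) (f := v n) (y := y)
        ((hv n).contDiffAt.differentiableAt (by simp))
        ((inversion_contDiffAt (hK hy)).differentiableAt (by simp))) i
      exact h3
    have h4 : gy G y i = ∑ a, G (inversion y) a * PenroseConvex.jac inversion y a i := rfl
    show (∑ a, PenroseConvex.jac inversion y a i
      * (pd a (v n) (inversion y) - G (inversion y) a)) ^ 2 = _
    rw [h2, h4, ← Finset.sum_sub_distrib]
    congr 1
    exact Finset.sum_congr rfl fun a _ => by ring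
  · intro i j
    have h1 := tendsto_sum hKc hK
      (fun (s : (Fin 3 × Fin 3) ⊕ Fin 3) y => Sum.elim
        (fun p : Fin 3 × Fin 3 => PenroseConvex.jac inversion y p.1 i
          * PenroseConvex.jac inversion y p.2 j) (fun a => D2 inversion a i j y) s)
      (by
        rintro (p | a)
        · exact (jac_continuousOn hK p.1 i).mul (jac_continuousOn hK p.2 j)
        · exact D2_continuousOn hK a i j)
      (fun n (s : (Fin 3 × Fin 3) ⊕ Fin 3) x => Sum.elim
        (fun p : Fin 3 × Fin 3 => pd p.1 (pd p.2 (v n)) x - M x p.1 p.2)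
        (fun a => pd a (v n) x - G x a) s)
      (by
        rintro n (p | a)
        · exact (memLp_cont hKc' (pd_contDiff (hpdc n p.2) p.1).continuous).sub (hmM p.1 p.2)
        · exact (memLp_cont hKc' (hpdc n a).continuous).sub (hmG a))
      (by
        rintro (p | a)
        · exact hvM p.1 p.2
        · exact hvG a)
    refine h1.congr fun n => setIntegral_congr_fun hKc.measurableSet fun y hy => ?_
    have h2 : pd i (pd j (fun y => χ y * v n (inversion y))) y
        = (∑ b, ∑ c, hess2 (v n) (inversion y) b c * PenroseConvex.jac inversion y b i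
            * PenroseConvex.jac inversion y c j)
          + ∑ a, grad (v n) (inversion y) a * D2 inversion a i j y := by
      have h5 : pd j (fun y => χ y * v n (inversion y)) =ᶠ[𝓝 y]
          pd j (fun z => v n (inversion z)) := by
        filter_upwards [(e n y hy).eventuallyEq_nhds] with z hz
        exact pd_congr hz
      rw [pd_congr h5]
      exact hess_comp (Φ := inversion) (f := v n)
        (((hv n).contDiffAt).of_le (WithTop.coe_le_coe.2 le_top))
        ((inversion_contDiffAt (hK hy)).of_le (WithTop.coe_le_coe.2 le_top)) i j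
    simp only [Fintype.sum_sum_type, Sum.elim_inl, Sum.elim_inr, Fintype.sum_prod_type]
    rw [h2]
    simp only [my, Matrix.of_apply, hess2, grad]
    congr 1
    have h6 : (∑ b, ∑ c, pd b (pd c (v n)) (inversion y) * PenroseConvex.jac inversion y b i
            * PenroseConvex.jac inversion y c j)
        + (∑ a, pd a (v n) (inversion y) * D2 inversion a i j y)
        - ((∑ b, ∑ c, M (inversion y) b c * PenroseConvex.jac inversion y b i
            * PenroseConvex.jac inversion y c j)
          + ∑ a, G (inversion y) a * D2 inversion a i j y)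
        = ((∑ b, ∑ c, pd b (pd c (v n)) (inversion y) * PenroseConvex.jac inversion y b i
            * PenroseConvex.jac inversion y c j)
            - (∑ b, ∑ c, M (inversion y) b c * PenroseConvex.jac inversion y b i
            * PenroseConvex.jac inversion y c j))
          + ((∑ a, pd a (v n) (inversion y) * D2 inversion a i j y)
            - ∑ a, G (inversion y) a * D2 inversion a i j y) := by ring
    rw [h6, ← Finset.sum_sub_distrib, ← Finset.sum_sub_distrib]
    congr 1
    · refine Finset.sum_congr rfl fun b _ => ?_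
      rw [← Finset.sum_sub_distrib]
      refine Finset.sum_congr rfl fun c _ => ?_
      ring
    · refine Finset.sum_congr rfl fun a _ => ?_
      ring

/-- Half the difference of two convergent sequences. -/
theorem tendsto_half {K : Set E3} (hKm : MeasurableSet K) (f g w : ℕ → E3 → ℝ)
    (F F' : E3 → ℝ)
    (hf : ∀ n, MemLp (fun x => f n x - F x) 2 (volume.restrict K))
    (hg : ∀ n, MemLp (fun x => g n x - F' x) 2 (volume.restrict K))
    (h1 : Tendsto (fun n => ∫ x in K, (f n x - F x) ^ 2) atTop (𝓝 0))
    (h2 : Tendsto (fun n => ∫ x in K, (g n x - F' x) ^ 2) atTop (𝓝 0))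
    (hF : ∀ᵐ x ∂(volume.restrict K), F' x = -F x)
    (hw : ∀ n, ∀ x ∈ K, w n x = (f n x - g n x) / 2) :
    Tendsto (fun n => ∫ x in K, (w n x - F x) ^ 2) atTop (𝓝 0) := by
  have i1 : ∀ n, IntegrableOn (fun x => (f n x - F x) ^ 2) K := fun n =>
    (memLp_two_iff_integrable_sq (hf n).1).1 (hf n)
  have i2 : ∀ n, IntegrableOn (fun x => (g n x - F' x) ^ 2) K := fun n =>
    (memLp_two_iff_integrable_sq (hg n).1).1 (hg n)
  have hb : ∀ n, ∫ x in K, (w n x - F x) ^ 2
      ≤ (∫ x in K, (f n x - F x) ^ 2) + ∫ x in K, (g n x - F' x) ^ 2 := by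
    intro n
    rw [← integral_add (i1 n) (i2 n)]
    have hle : ∀ᵐ x ∂(volume.restrict K),
        (w n x - F x) ^ 2 ≤ (f n x - F x) ^ 2 + (g n x - F' x) ^ 2 := by
      filter_upwards [hF, ae_restrict_mem hKm] with x hx hxK
      rw [hw n x hxK, hx]
      nlinarith [sq_nonneg (f n x - F x), sq_nonneg (g n x - -F x),
        sq_nonneg ((f n x - F x) + (g n x - -F x))]
    exact integral_mono_of_nonneg (Eventually.of_forall fun x => sq_nonneg _)
      ((i1 n).add (i2 n)) hle
  refine squeeze_zero (fun n => integral_nonneg fun x => sq_nonneg _) hb ?_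
  simpa using h1.add h2

theorem cAnn_sub : cAnn (3 / 4) (4 / 3) ⊆ Ann (1 / 2) 2 := by
  intro x hx
  obtain ⟨h1, h2⟩ := hx
  constructor <;> linarith

theorem ann_sub : Ann (1 / 2) 2 ⊆ ({0}ᶜ : Set E3) := by
  intro x hx h0
  rw [Set.mem_singleton_iff] at h0
  have := hx.1
  rw [h0, norm_zero] at this
  linarith

theorem isOpen_ann : IsOpen (Ann (1 / 2) 2) :=
  (isOpen_lt continuous_const continuous_norm).inter (isOpen_lt continuous_norm continuous_const)

theorem mapsTo_ann : Set.MapsTo inversion (Ann (1 / 2) 2) (Ann (1 / 2) 2) := by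
  intro x hx
  have h0 : x ≠ 0 := ann_sub hx
  have hp : 0 < ‖x‖ := norm_pos_iff.2 h0
  obtain ⟨h1, h2⟩ := hx
  refine ⟨?_, ?_⟩
  · rw [HSM2.norm_inversion x h0, inv_eq_one_div, div_lt_div_iff₀ (by norm_num) hp]
    linarith
  · rw [HSM2.norm_inversion x h0, inv_eq_one_div, div_lt_iff₀ hp]
    linarith

theorem mapsTo_cAnn : Set.MapsTo inversion (cAnn (3 / 4) (4 / 3)) (cAnn (3 / 4) (4 / 3)) := by
  intro x hx
  have h0 : x ≠ 0 := ann_sub (cAnn_sub hx)
  have hp : 0 < ‖x‖ := norm_pos_iff.2 h0
  obtain ⟨h1, h2⟩ := hx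
  refine ⟨?_, ?_⟩
  · rw [HSM2.norm_inversion x h0, inv_eq_one_div, div_le_div_iff₀ (by norm_num) hp]
    linarith
  · rw [HSM2.norm_inversion x h0, inv_eq_one_div, div_le_iff₀ hp]
    linarith

theorem image_cAnn : inversion '' (cAnn (3 / 4) (4 / 3)) = cAnn (3 / 4) (4 / 3) := by
  apply Set.Subset.antisymm mapsTo_cAnn.image_subset
  intro x hx
  exact ⟨inversion x, mapsTo_cAnn hx, HSM2.inversion_inversion x (ann_sub (cAnn_sub hx))⟩

theorem isCompact_K : IsCompact (cAnn (3 / 4) (4 / 3)) := by
  refine (isCompact_closedBall (0 : E3) (4 / 3)).of_isClosed_subset ?_ ?_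
  · exact (isClosed_le continuous_const continuous_norm).inter
      (isClosed_le continuous_norm continuous_const)
  · intro x hx
    rw [mem_closedBall_zero_iff]
    exact hx.2

end HXANTIaux

open HXANTIaux LEYaux in
theorem HXANTI (hHXUNI : Stmt_HXUNI) : Stmt_HXANTI := by
  intro u G M hu hodd
  have hinv := h2_inv ann_sub mapsTo_ann hu
  have hneg := h2_two_sub (w := fun x => u (inversion x)) hu hodd
  obtain ⟨hG, hM⟩ := hHXUNI _ _ _ _ _ _ isOpen_ann hinv hneg
  refine ⟨?_, ?_⟩
  · filter_upwards [hG, ae_restrict_mem isOpen_ann.measurableSet] with x hx hxA i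
    have h1 := congrFun hx i
    have h2 : gy G x i = ∑ a, G (inversion x) a * PenroseConvex.jac inversion x a i := rfl
    rw [h2, jac_inversion (ann_sub hxA)] at h1
    simp only [Pi.neg_apply] at h1
    rw [← h1]
    exact Finset.sum_congr rfl fun a _ => by ring
  · have hK : cAnn (3 / 4) (4 / 3) ⊆ ({0}ᶜ : Set E3) := cAnn_sub.trans ann_sub
    obtain ⟨V, hV, hVu, hVG, hVM⟩ := hu.approx _ isCompact_K cAnn_sub
    obtain ⟨χ, hχ, hχ0, hχ1⟩ := exists_ext isCompact_K hK
    have hmG := fun a => hu.memG _ isCompact_K cAnn_sub a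
    have hmM := fun a b => hu.memM _ isCompact_K cAnn_sub a b
    have hext : ∀ n, ContDiff ℝ ∞ (fun y => χ y * V n (inversion y)) := fun n =>
      ext_contDiff hχ hχ0 (hV n)
    obtain ⟨hcG, hcM⟩ := conv_inv (G := G) (M := M) (v := V) (χ := χ) isCompact_K hK
      (by rw [image_cAnn]; exact hmG) (by rw [image_cAnn]; exact hmM) hV
      (by rw [image_cAnn]; exact hVG) (by rw [image_cAnn]; exact hVM) hχ1
    have hGK : ∀ᵐ x ∂(volume.restrict (cAnn (3 / 4) (4 / 3))), gy G x = -G x :=
      ae_mono (Measure.restrict_mono cAnn_sub le_rfl) hG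
    have hMK : ∀ᵐ x ∂(volume.restrict (cAnn (3 / 4) (4 / 3))), my G M x = -M x :=
      ae_mono (Measure.restrict_mono cAnn_sub le_rfl) hM
    set v : ℕ → E3 → ℝ := fun n y => 1 + (χ y * V n y - χ y * V n (inversion y)) / 2 with hvdef
    have hvs : ∀ n, ContDiff ℝ ∞ (v n) := fun n =>
      contDiff_const.add (((hχ.mul (hV n)).sub (hext n)).div_const 2)
    have hnear : ∀ n, ∀ y ∈ cAnn (3 / 4) (4 / 3), v n =ᶠ[𝓝 y]
        fun z => 1 + (V n z - χ z * V n (inversion z)) * (1 / 2) := by
      intro n y hy
      filter_upwards [hχ1 y hy] with z hz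
      rw [hvdef]
      simp only [hz]
      ring
    have hd1 : ∀ n (z : E3) i, pd i (fun z => 1 + (V n z - χ z * V n (inversion z)) * (1 / 2)) z
        = (pd i (V n) z - pd i (fun z => χ z * V n (inversion z)) z) / 2 := by
      intro n z i
      have d1 : DifferentiableAt ℝ (V n) z := (hV n).contDiffAt.differentiableAt (by simp)
      have d2 : DifferentiableAt ℝ (fun z => χ z * V n (inversion z)) z :=
        (hext n).contDiffAt.differentiableAt (by simp)
      have h := ((d1.hasFDerivAt.fun_sub d2.hasFDerivAt).mul_const (1 / 2 : ℝ)).const_add (1 : ℝ)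
      unfold pd
      rw [h.fderiv]
      simp
      ring
    have hd2 : ∀ n (z : E3) i j,
        pd i (pd j (fun z => 1 + (V n z - χ z * V n (inversion z)) * (1 / 2))) z
        = (pd i (pd j (V n)) z - pd i (pd j (fun z => χ z * V n (inversion z))) z) / 2 := by
      intro n z i j
      have e : pd j (fun z => 1 + (V n z - χ z * V n (inversion z)) * (1 / 2))
          = fun z => (pd j (V n) z - pd j (fun z => χ z * V n (inversion z)) z) * (1 / 2) := by
        funext y
        rw [hd1 n y j]
        ring
      have d1 : DifferentiableAt ℝ (pd j (V n)) z :=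
        (pd_contDiff (hV n) j).contDiffAt.differentiableAt (by simp)
      have d2 : DifferentiableAt ℝ (pd j (fun z => χ z * V n (inversion z))) z :=
        (pd_contDiff (hext n) j).contDiffAt.differentiableAt (by simp)
      rw [e]
      show fderiv ℝ _ z _ = (fderiv ℝ _ z _ - fderiv ℝ _ z _) / 2
      have h := (d1.hasFDerivAt.fun_sub d2.hasFDerivAt).mul_const (1 / 2 : ℝ)
      rw [h.fderiv]
      simp
      ring
    refine ⟨v, hvs, ?_, ?_, ?_, ?_⟩
    · intro n x hx
      have hix : inversion x = x := by
        unfold inversion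
        rw [hx]
        simp
      rw [hvdef]
      simp only [hix]
      ring
    · rw [Metric.tendstoUniformlyOn_iff] at hVu ⊢
      intro δ hδ
      filter_upwards [hVu δ hδ] with n hn y hy
      have h1 := hn y hy
      have h2 := hn _ (mapsTo_cAnn hy)
      rw [hodd y (cAnn_sub hy)] at h2
      rw [(hnear n y hy).self_of_nhds]
      show dist (u y) (1 + (V n y - χ y * V n (inversion y)) * (1 / 2)) < δ
      rw [(hχ1 y hy).self_of_nhds]
      rw [Real.dist_eq, abs_lt] at h1 h2 ⊢
      obtain ⟨h11, h12⟩ := h1
      obtain ⟨h21, h22⟩ := h2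
      constructor <;> linarith
    · intro i
      refine tendsto_half isCompact_K.measurableSet (fun n x => pd i (V n) x)
        (fun n x => pd i (fun z => χ z * V n (inversion z)) x)
        (fun n x => pd i (v n) x) (fun x => G x i) (fun x => gy G x i) ?_ ?_ (hVG i) (hcG i) ?_ ?_
      · intro n
        exact (memLp_cont isCompact_K (pd_contDiff (hV n) i).continuous).sub (hmG i)
      · intro n
        exact (memLp_cont isCompact_K (pd_contDiff (hext n) i).continuous).sub
          (memLp_gy isCompact_K hK (by rw [image_cAnn]; exact hmG) i)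
      · filter_upwards [hGK] with x hx
        rw [hx]
        rfl
      · intro n x hx
        rw [pd_congr (hnear n x hx), hd1]
    · intro i j
      refine tendsto_half isCompact_K.measurableSet (fun n x => pd i (pd j (V n)) x)
        (fun n x => pd i (pd j (fun z => χ z * V n (inversion z))) x)
        (fun n x => pd i (pd j (v n)) x) (fun x => M x i j) (fun x => my G M x i j) ?_ ?_
        (hVM i j) (hcM i j) ?_ ?_
      · intro n
        exact (memLp_cont isCompact_K (pd_contDiff (pd_contDiff (hV n) j) i).continuous).sub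
          (hmM i j)
      · intro n
        exact (memLp_cont isCompact_K (pd_contDiff (pd_contDiff (hext n) j) i).continuous).sub
          (memLp_my isCompact_K hK (by rw [image_cAnn]; exact hmG)
            (by rw [image_cAnn]; exact hmM) i j)
      · filter_upwards [hMK] with x hx
        rw [hx]
        rfl
      · intro n x hx
        have h5 : pd j (v n) =ᶠ[𝓝 x]
            pd j (fun z => 1 + (V n z - χ z * V n (inversion z)) * (1 / 2)) := by
          filter_upwards [(hnear n x hx).eventuallyEq_nhds] with z hz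
          exact pd_congr hz
        rw [pd_congr h5, hd2]

end Pool.Agent.PFlow.HX
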