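import Pool.Agent.PFlow.StmtsHX
import Pool.Agent.PFlow.M_BAD
import Pool.Agent.PFlow.M_INT
import Pool.Agent.PFlow.M_L4

/-!
# HXB: integration by parts for the quadratic form of second derivatives
-/

open MeasureTheory Filter Topology
open scoped ContDiff ENNReal

namespace Pool.Agent.PFlow.HX

open Pool.Agent.PenroseSph

namespace HXBaux

variable {μ : Measure E3}

theorem N_eq {φ : E3 → ℝ} (hφ : MemLp φ 2 μ) : MBAD.N μ φ = Real.sqrt (∫ x, φ x ^ 2 ∂μ) := by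
  unfold MBAD.N
  rw [ML4.eLp2 hφ, ENNReal.toReal_ofReal (Real.sqrt_nonneg _)]

/-- Cauchy-Schwarz. -/
theorem cs {φ ψ : E3 → ℝ} (hφ : MemLp φ 2 μ) (hψ : MemLp ψ 2 μ) :
    Integrable (fun x => φ x * ψ x) μ ∧ ∫ x, |φ x * ψ x| ∂μ
      ≤ Real.sqrt (∫ x, φ x ^ 2 ∂μ) * Real.sqrt (∫ x, ψ x ^ 2 ∂μ) := by
  have h := MBAD.cs hφ hψ
  rwa [N_eq hφ, N_eq hψ] at h

/-- Limits of integrals of products. -/
theorem prod_lim {c : E3 → ℝ} {B : ℝ} (hc : AEStronglyMeasurable c μ)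
    (hB : ∀ᵐ x ∂μ, |c x| ≤ B) {f g : ℕ → E3 → ℝ} {f' g' : E3 → ℝ}
    (hf : ∀ n, MemLp (f n) 2 μ) (hf' : MemLp f' 2 μ) (hg : ∀ n, MemLp (g n) 2 μ)
    (hg' : MemLp g' 2 μ) (tf : Tendsto (fun n => ∫ x, (f n x - f' x) ^ 2 ∂μ) atTop (𝓝 0))
    (tg : Tendsto (fun n => ∫ x, (g n x - g' x) ^ 2 ∂μ) atTop (𝓝 0)) :
    (∀ n, Integrable (fun x => c x * (f n x * g n x)) μ) ∧
    Integrable (fun x => c x * (f' x * g' x)) μ ∧
    Tendsto (fun n => ∫ x, c x * (f n x * g n x) ∂μ) atTop (𝓝 (∫ x, c x * (f' x * g' x) ∂μ)) := by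
  have hB' : ∀ᵐ x ∂μ, ‖c x‖ ≤ B := hB
  have i1 : ∀ n, Integrable (fun x => c x * (f n x * g n x)) μ := fun n =>
    (cs (hf n) (hg n)).1.bdd_mul hc hB'
  have i2 : Integrable (fun x => c x * (f' x * g' x)) μ := (cs hf' hg').1.bdd_mul hc hB'
  refine ⟨i1, i2, ?_⟩
  rcases isEmpty_or_nonempty E3 with he | he
  · exact absurd (he.false 0) id
  have ha : ∀ n, MemLp (fun x => f n x - f' x) 2 μ := fun n => (hf n).sub hf'
  have hb : ∀ n, MemLp (fun x => g n x - g' x) 2 μ := fun n => (hg n).sub hg'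
  rw [tendsto_iff_norm_sub_tendsto_zero]
  have hlim : Tendsto (fun n => |B| * (Real.sqrt (∫ x, (f n x - f' x) ^ 2 ∂μ)
      * Real.sqrt (∫ x, (g n x - g' x) ^ 2 ∂μ)
      + Real.sqrt (∫ x, (f n x - f' x) ^ 2 ∂μ) * Real.sqrt (∫ x, g' x ^ 2 ∂μ)
      + Real.sqrt (∫ x, f' x ^ 2 ∂μ) * Real.sqrt (∫ x, (g n x - g' x) ^ 2 ∂μ))) atTop (𝓝 0) := by
    have t1 : Tendsto (fun n => Real.sqrt (∫ x, (f n x - f' x) ^ 2 ∂μ)) atTop (𝓝 0) := by
      have := (Real.continuous_sqrt.tendsto 0).comp tf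
      rwa [Real.sqrt_zero] at this
    have t2 : Tendsto (fun n => Real.sqrt (∫ x, (g n x - g' x) ^ 2 ∂μ)) atTop (𝓝 0) := by
      have := (Real.continuous_sqrt.tendsto 0).comp tg
      rwa [Real.sqrt_zero] at this
    have t3 := (((t1.mul t2).add (t1.mul_const (Real.sqrt (∫ x, g' x ^ 2 ∂μ)))).add
      (t2.const_mul (Real.sqrt (∫ x, f' x ^ 2 ∂μ)))).const_mul |B|
    simpa using t3
  refine squeeze_zero (fun n => norm_nonneg _) (fun n => ?_) hlim
  obtain ⟨j1, k1⟩ := cs (ha n) (hb n)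
  obtain ⟨j2, k2⟩ := cs (ha n) hg'
  obtain ⟨j3, k3⟩ := cs hf' (hb n)
  rw [← integral_sub (i1 n) i2]
  have h1 : ‖∫ x, (c x * (f n x * g n x) - c x * (f' x * g' x)) ∂μ‖ ≤
      ∫ x, |B| * (|(f n x - f' x) * (g n x - g' x)| + |(f n x - f' x) * g' x|
        + |f' x * (g n x - g' x)|) ∂μ := by
    refine norm_integral_le_of_norm_le (((j1.abs.add j2.abs).add j3.abs).const_mul _) ?_
    filter_upwards [hB] with x hx
    have e : c x * (f n x * g n x) - c x * (f' x * g' x) = c x * ((f n x - f' x) * (g n x - g' x)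
        + (f n x - f' x) * g' x + f' x * (g n x - g' x)) := by ring
    rw [e, Real.norm_eq_abs, abs_mul]
    refine mul_le_mul (hx.trans (le_abs_self B)) ?_ (abs_nonneg _) (abs_nonneg _)
    exact (abs_add_le _ _).trans (add_le_add_left (abs_add_le _ _) _)
  refine h1.trans ?_
  have e1 : ∫ x, (|(f n x - f' x) * (g n x - g' x)| + |(f n x - f' x) * g' x|
      + |f' x * (g n x - g' x)|) ∂μ = ∫ x, |(f n x - f' x) * (g n x - g' x)| ∂μ
      + ∫ x, |(f n x - f' x) * g' x| ∂μ + ∫ x, |f' x * (g n x - g' x)| ∂μ := by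
    have e2 := integral_add (μ := μ) (f := fun x => |(f n x - f' x) * (g n x - g' x)|
      + |(f n x - f' x) * g' x|) (g := fun x => |f' x * (g n x - g' x)|) (j1.abs.add j2.abs) j3.abs
    have e3 := integral_add (μ := μ) (f := fun x => |(f n x - f' x) * (g n x - g' x)|)
      (g := fun x => |(f n x - f' x) * g' x|) j1.abs j2.abs
    rw [e2, e3]
  rw [integral_const_mul, e1]
  gcongr

/-- Limits of integrals of quadratic expressions. -/
theorem quad_lim {ι : Type} [Fintype ι] {c : ι → ι → E3 → ℝ} {B : ℝ}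
    (hc : ∀ i j, AEStronglyMeasurable (c i j) μ) (hB : ∀ i j, ∀ᵐ x ∂μ, |c i j x| ≤ B)
    {f : ℕ → ι → E3 → ℝ} {f' : ι → E3 → ℝ} (hf : ∀ n i, MemLp (f n i) 2 μ)
    (hf' : ∀ i, MemLp (f' i) 2 μ)
    (tf : ∀ i, Tendsto (fun n => ∫ x, (f n i x - f' i x) ^ 2 ∂μ) atTop (𝓝 0)) :
    (∀ n, Integrable (fun x => ∑ i, ∑ j, c i j x * (f n i x * f n j x)) μ) ∧
    Integrable (fun x => ∑ i, ∑ j, c i j x * (f' i x * f' j x)) μ ∧
    Tendsto (fun n => ∫ x, ∑ i, ∑ j, c i j x * (f n i x * f n j x) ∂μ) atTop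
      (𝓝 (∫ x, ∑ i, ∑ j, c i j x * (f' i x * f' j x) ∂μ)) := by
  have H : ∀ i j, _ := fun i j => prod_lim (hc i j) (hB i j) (fun n => hf n i) (hf' i)
    (fun n => hf n j) (hf' j) (tf i) (tf j)
  refine ⟨fun n => integrable_finsetSum _ fun i _ => integrable_finsetSum _ fun j _ =>
    (H i j).1 n, integrable_finsetSum _ fun i _ => integrable_finsetSum _ fun j _ =>
    (H i j).2.1, ?_⟩
  have e : ∀ n, ∫ x, ∑ i, ∑ j, c i j x * (f n i x * f n j x) ∂μ =
      ∑ i, ∑ j, ∫ x, c i j x * (f n i x * f n j x) ∂μ := by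
    intro n
    rw [integral_finsetSum _ fun i _ => integrable_finsetSum _ fun j _ => (H i j).1 n]
    exact Finset.sum_congr rfl fun i _ => integral_finsetSum _ fun j _ => (H i j).1 n
  have e' : ∫ x, ∑ i, ∑ j, c i j x * (f' i x * f' j x) ∂μ =
      ∑ i, ∑ j, ∫ x, c i j x * (f' i x * f' j x) ∂μ := by
    rw [integral_finsetSum _ fun i _ => integrable_finsetSum _ fun j _ => (H i j).2.1]
    exact Finset.sum_congr rfl fun i _ => integral_finsetSum _ fun j _ => (H i j).2.1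
  simp only [e]
  rw [e']
  exact tendsto_finsetSum _ fun i _ => tendsto_finsetSum _ fun j _ => (H i j).2.2

theorem msz_sq (B : Bil) : msz B ^ 2 = ∑ i, ∑ j, B i j ^ 2 :=
  Real.sq_sqrt (Finset.sum_nonneg fun _ _ => Finset.sum_nonneg fun _ _ => sq_nonneg _)

theorem vsz_sq (p : Cov) : vsz p ^ 2 = ∑ i, p i ^ 2 :=
  Real.sq_sqrt (Finset.sum_nonneg fun _ _ => sq_nonneg _)

theorem quad_eq (g : TensorField) (x : E3) (B : Bil) (z : ℝ) :
    z * (volDen g x * (nsq g x B - trg g x B ^ 2)) = ∑ a : Fin 3 × Fin 3, ∑ b : Fin 3 × Fin 3,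
      z * (volDen g x * ((g x)⁻¹ a.1 b.1 * (g x)⁻¹ a.2 b.2 - (g x)⁻¹ a.1 a.2 * (g x)⁻¹ b.1 b.2))
        * (B a.1 a.2 * B b.1 b.2) := by
  have h1 : nsq g x B = ∑ a : Fin 3 × Fin 3, ∑ b : Fin 3 × Fin 3,
      (g x)⁻¹ a.1 b.1 * (g x)⁻¹ a.2 b.2 * (B a.1 a.2 * B b.1 b.2) := by
    unfold nsq
    simp only [Fintype.sum_prod_type]
    refine Finset.sum_congr rfl fun i _ => Finset.sum_congr rfl fun j _ =>
      Finset.sum_congr rfl fun k _ => Finset.sum_congr rfl fun l _ => ?_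
    ring
  have h2 : trg g x B ^ 2 = ∑ a : Fin 3 × Fin 3, ∑ b : Fin 3 × Fin 3,
      (g x)⁻¹ a.1 a.2 * (g x)⁻¹ b.1 b.2 * (B a.1 a.2 * B b.1 b.2) := by
    have h3 : trg g x B = ∑ a : Fin 3 × Fin 3, (g x)⁻¹ a.1 a.2 * B a.1 a.2 := by
      unfold trg
      rw [Fintype.sum_prod_type]
    rw [h3, sq, Finset.sum_mul_sum]
    refine Finset.sum_congr rfl fun a _ => Finset.sum_congr rfl fun b _ => ?_
    ring
  rw [h1, h2, ← Finset.sum_sub_distrib, Finset.mul_sum, Finset.mul_sum]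
  refine Finset.sum_congr rfl fun a _ => ?_
  rw [← Finset.sum_sub_distrib, Finset.mul_sum, Finset.mul_sum]
  refine Finset.sum_congr rfl fun b _ => ?_
  ring

theorem msz_eq (B : Bil) (z : ℝ) : z * msz B ^ 2 = ∑ a : Fin 3 × Fin 3, ∑ b : Fin 3 × Fin 3,
    (if a = b then z else 0) * (B a.1 a.2 * B b.1 b.2) := by
  have h : ∀ a : Fin 3 × Fin 3, ∑ b : Fin 3 × Fin 3,
      (if a = b then z else 0) * (B a.1 a.2 * B b.1 b.2) = z * B a.1 a.2 ^ 2 := by
    intro a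
    rw [Finset.sum_eq_single a]
    · rw [if_pos rfl, sq]
    · intro b _ hb
      rw [if_neg hb.symm, zero_mul]
    · exact fun h => absurd (Finset.mem_univ _) h
  simp only [h]
  rw [msz_sq, ← Finset.mul_sum, Fintype.sum_prod_type]

theorem vsz_eq (p : Cov) (z : ℝ) : z * vsz p ^ 2 = ∑ a : Fin 3, ∑ b : Fin 3,
    (if a = b then z else 0) * (p a * p b) := by
  have h : ∀ a : Fin 3, ∑ b : Fin 3, (if a = b then z else 0) * (p a * p b) = z * p a ^ 2 := by
    intro a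
    rw [Finset.sum_eq_single a]
    · rw [if_pos rfl, sq]
    · intro b _ hb
      rw [if_neg hb.symm, zero_mul]
    · exact fun h => absurd (Finset.mem_univ _) h
  simp only [h]
  rw [vsz_sq, ← Finset.mul_sum]

theorem coef {K : Set E3} (hK : IsCompact K) {c : E3 → ℝ} (hc : ContinuousOn c K) :
    AEStronglyMeasurable c (volume.restrict K) ∧ ∃ B : ℝ, ∀ x ∈ K, |c x| ≤ B := by
  refine ⟨hc.aestronglyMeasurable hK.measurableSet, ?_⟩
  obtain ⟨B, hB⟩ := hK.exists_bound_of_continuousOn hc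
  exact ⟨B, hB⟩

theorem coef2 {ι : Type} [Fintype ι] {K : Set E3} (hK : IsCompact K) {c : ι → ι → E3 → ℝ}
    (hc : ∀ i j, ContinuousOn (c i j) K) :
    (∀ i j, AEStronglyMeasurable (c i j) (volume.restrict K)) ∧
      ∃ B : ℝ, ∀ i j, ∀ᵐ x ∂(volume.restrict K), |c i j x| ≤ B := by
  refine ⟨fun i j => (coef hK (hc i j)).1, ?_⟩
  choose B hB using fun i j => (coef hK (hc i j)).2
  refine ⟨∑ i, ∑ j, |B i j|, fun i j => (ae_restrict_iff' hK.measurableSet).2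
    (Eventually.of_forall fun x hx => ?_)⟩
  refine (hB i j x hx).trans ((le_abs_self _).trans ?_)
  refine le_trans (Finset.single_le_sum (f := fun j => |B i j|) (fun _ _ => abs_nonneg _)
    (Finset.mem_univ j)) ?_
  exact Finset.single_le_sum (f := fun i => ∑ j, |B i j|)
    (fun _ _ => Finset.sum_nonneg fun _ _ => abs_nonneg _) (Finset.mem_univ i)

end HXBaux

open HXBaux in
/-- HXB: integration by parts for the quadratic form of second derivatives. -/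
theorem HXB (hHXBS : Stmt_HXBS) : Stmt_HXB := by
  intro Λ ζ hΛ hζ
  obtain ⟨C, hC, H⟩ := hHXBS Λ ζ hΛ hζ
  refine ⟨C, hC, ?_⟩
  intro g h u G M hg hb hu
  have hK : IsCompact (tsupport ζ) := hζ.compact
  have hKA : tsupport ζ ⊆ Ann (1 / 2) 2 := hζ.supp
  have hAo : IsOpen (Ann (1 / 2) 2) :=
    (isOpen_lt continuous_const continuous_norm).inter (isOpen_lt continuous_norm continuous_const)
  have hζK : ∀ x, x ∉ tsupport ζ → ζ x = 0 := fun x hx => image_eq_zero_of_notMem_tsupport hx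
  have hζc : Continuous ζ := hζ.smooth.continuous
  obtain ⟨v, hv, -, hv1, hv2⟩ := hu.approx _ hK hKA
  have red : ∀ F : E3 → ℝ, (∀ x, x ∉ tsupport ζ → F x = 0) →
      ∫ x in Ann (1 / 2) 2, F x = ∫ x in tsupport ζ, F x := fun F hF =>
    setIntegral_eq_of_subset_of_forall_diff_eq_zero hAo.measurableSet hKA fun x hx => hF x hx.2
  have mG : ∀ i, MemLp (fun x => G x i) 2 (volume.restrict (tsupport ζ)) := hu.memG _ hK hKA
  have mM : ∀ i j, MemLp (fun x => M x i j) 2 (volume.restrict (tsupport ζ)) := hu.memM _ hK hKA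
  have mv1 : ∀ n i, MemLp (pd i (v n)) 2 (volume.restrict (tsupport ζ)) := fun n i =>
    MBAD.memLp_cont hK (MBAD.contDiff_pd (hv n) i).continuous
  have mv2 : ∀ n i j, MemLp (pd i (pd j (v n))) 2 (volume.restrict (tsupport ζ)) := fun n i j =>
    MBAD.memLp_cont hK (MBAD.contDiff_pd (MBAD.contDiff_pd (hv n) j) i).continuous
  -- the quadratic form
  have hinv : ∀ i j, ContinuousOn (fun x => (g x)⁻¹ i j) (tsupport ζ) := fun i j x hx =>
    (MINT.inv_cd hAo hg (hKA hx) i j).continuousAt.continuousWithinAt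
  have hvol : ContinuousOn (fun x => volDen g x) (tsupport ζ) := fun x hx =>
    (MINT.vol_cd hAo hg (hKA hx)).continuousAt.continuousWithinAt
  have hcQ : ∀ a b : Fin 3 × Fin 3, ContinuousOn (fun x => ζ x ^ 4 * (volDen g x *
      ((g x)⁻¹ a.1 b.1 * (g x)⁻¹ a.2 b.2 - (g x)⁻¹ a.1 a.2 * (g x)⁻¹ b.1 b.2))) (tsupport ζ) :=
    fun a b => (hζc.continuousOn.pow 4).mul (hvol.mul
      (((hinv _ _).mul (hinv _ _)).sub ((hinv _ _).mul (hinv _ _))))
  obtain ⟨q1, BQ, q2⟩ := coef2 hK hcQ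
  obtain ⟨-, Q2, Q3⟩ := quad_lim (f := fun n (a : Fin 3 × Fin 3) x => pd a.1 (pd a.2 (v n)) x)
    (f' := fun a x => M x a.1 a.2) q1 q2 (fun n a => mv2 n a.1 a.2) (fun a => mM a.1 a.2)
    (fun a => hv2 a.1 a.2)
  -- the squares
  have hcM : ∀ a b : Fin 3 × Fin 3, ContinuousOn (fun x => if a = b then ζ x ^ 4 else 0)
      (tsupport ζ) := by
    intro a b
    split_ifs
    · exact (hζc.pow 4).continuousOn
    · exact continuousOn_const
  obtain ⟨m1, BM, m2⟩ := coef2 hK hcM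
  obtain ⟨-, -, M3⟩ := quad_lim (f := fun n (a : Fin 3 × Fin 3) x => pd a.1 (pd a.2 (v n)) x)
    (f' := fun a x => M x a.1 a.2) m1 m2 (fun n a => mv2 n a.1 a.2) (fun a => mM a.1 a.2)
    (fun a => hv2 a.1 a.2)
  have hcG : ∀ a b : Fin 3, ContinuousOn (fun x => if a = b then ζ x ^ 2 else 0)
      (tsupport ζ) := by
    intro a b
    split_ifs
    · exact (hζc.pow 2).continuousOn
    · exact continuousOn_const
  obtain ⟨g1, BG, g2⟩ := coef2 hK hcG
  obtain ⟨-, -, G3⟩ := quad_lim (f := fun n (a : Fin 3) x => pd a (v n) x)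
    (f' := fun a x => G x a) g1 g2 mv1 mG hv1
  have eQ : ∀ n x, ζ x ^ 4 * (volDen g x * (nsq g x (hess2 (v n) x)
      - trg g x (hess2 (v n) x) ^ 2)) = _ := fun n x => quad_eq g x (hess2 (v n) x) (ζ x ^ 4)
  have eQ' : ∀ x, ζ x ^ 4 * (volDen g x * (nsq g x (M x) - trg g x (M x) ^ 2)) = _ :=
    fun x => quad_eq g x (M x) (ζ x ^ 4)
  have eM : ∀ n x, ζ x ^ 4 * msz (hess2 (v n) x) ^ 2 = _ := fun n x =>
    msz_eq (hess2 (v n) x) (ζ x ^ 4)
  have eM' : ∀ x, ζ x ^ 4 * msz (M x) ^ 2 = _ := fun x => msz_eq (M x) (ζ x ^ 4)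
  have eG : ∀ n x, ζ x ^ 2 * vsz (grad (v n) x) ^ 2 = _ := fun n x =>
    vsz_eq (grad (v n) x) (ζ x ^ 2)
  have eG' : ∀ x, ζ x ^ 2 * vsz (G x) ^ 2 = _ := fun x => vsz_eq (G x) (ζ x ^ 2)
  have tQ : Tendsto (fun n => ∫ x in tsupport ζ, ζ x ^ 4 * (volDen g x *
      (nsq g x (hess2 (v n) x) - trg g x (hess2 (v n) x) ^ 2))) atTop
      (𝓝 (∫ x in tsupport ζ, ζ x ^ 4 * (volDen g x * (nsq g x (M x) - trg g x (M x) ^ 2)))) := by
    simp only [eQ, eQ']
    exact Q3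
  have tM : Tendsto (fun n => ∫ x in tsupport ζ, ζ x ^ 4 * msz (hess2 (v n) x) ^ 2) atTop
      (𝓝 (∫ x in tsupport ζ, ζ x ^ 4 * msz (M x) ^ 2)) := by
    simp only [eM, eM']
    exact M3
  have tG : Tendsto (fun n => ∫ x in tsupport ζ, ζ x ^ 2 * vsz (grad (v n) x) ^ 2) atTop
      (𝓝 (∫ x in tsupport ζ, ζ x ^ 2 * vsz (G x) ^ 2)) := by
    simp only [eG, eG']
    exact G3
  have iQ : IntegrableOn (fun x => ζ x ^ 4 * (volDen g x * (nsq g x (M x) - trg g x (M x) ^ 2)))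
      (tsupport ζ) := by
    simp only [eQ']
    exact Q2
  constructor
  · refine iQ.of_forall_diff_eq_zero hAo.measurableSet fun x hx => ?_
    rw [hζK x hx.2]
    ring
  · rw [red _ fun x hx => by rw [hζK x hx]; ring, red _ fun x hx => by rw [hζK x hx]; ring,
      red _ fun x hx => by rw [hζK x hx]; ring]
    refine le_of_tendsto_of_tendsto' tQ (((Real.continuous_sqrt.tendsto _).comp tM).mul
      ((Real.continuous_sqrt.tendsto _).comp tG) |>.const_mul C) fun n => ?_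
    have h1 := H g h (v n) hg hb (hv n)
    rw [red _ fun x hx => by rw [hζK x hx]; ring, red _ fun x hx => by rw [hζK x hx]; ring] at h1
    refine h1.trans (mul_le_mul_of_nonneg_left ?_ hC.le)
    have c1 : Continuous fun x => msz (hess2 (v n) x) := by
      unfold msz
      refine Real.continuous_sqrt.comp (continuous_finsetSum _ fun i _ =>
        continuous_finsetSum _ fun j _ => Continuous.pow ?_ 2)
      exact (MBAD.contDiff_pd (MBAD.contDiff_pd (hv n) j) i).continuous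
    have c2 : Continuous fun x => vsz (grad (v n) x) := by
      unfold vsz
      refine Real.continuous_sqrt.comp (continuous_finsetSum _ fun i _ => Continuous.pow ?_ 2)
      exact (MBAD.contDiff_pd (hv n) i).continuous
    obtain ⟨h2, h3⟩ := cs (φ := fun x => ζ x ^ 2 * msz (hess2 (v n) x))
      (ψ := fun x => ζ x * vsz (grad (v n) x)) (MBAD.memLp_cont hK ((hζc.pow 2).mul c1))
      (MBAD.memLp_cont hK (hζc.mul c2))
    have e1 : ∀ x, (ζ x ^ 2 * msz (hess2 (v n) x)) ^ 2 = ζ x ^ 4 * msz (hess2 (v n) x) ^ 2 :=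
      fun x => by ring
    have e2 : ∀ x, (ζ x * vsz (grad (v n) x)) ^ 2 = ζ x ^ 2 * vsz (grad (v n) x) ^ 2 :=
      fun x => by ring
    simp only [e1, e2] at h3
    refine le_trans ?_ h3
    refine le_trans (le_of_eq ?_) (integral_mono h2 h2.abs fun x => le_abs_self _)
    refine integral_congr_ae (Eventually.of_forall fun x => ?_)
    show ζ x ^ 3 * (vsz (grad (v n) x) * msz (hess2 (v n) x)) =
      ζ x ^ 2 * msz (hess2 (v n) x) * (ζ x * vsz (grad (v n) x))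
    ring

end Pool.Agent.PFlow.HX
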