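import Pool.Agent.PFlow.StmtsHX
import Pool.Agent.PFlow.X.XCURV
import Pool.Agent.PFlow.M_Coef
import Pool.Agent.PFlow.G.IBP
import Pool.Agent.PFlow.E.LE1

/-!
# HXBS: integration by parts for the quadratic form of second derivatives
-/

open MeasureTheory Filter Topology
open scoped ContDiff

namespace Pool.Agent.PFlow.HX

open Pool.Agent.PenroseSph Pool.Agent.PFlow

namespace HXBSaux

open Pool.Agent.PFlow.XXCURV (Hyp p2 a2 m2 s3)

theorem isOpen_Ann (a b : ℝ) : IsOpen (Ann a b) :=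
  (isOpen_lt continuous_const continuous_norm).inter (isOpen_lt continuous_norm continuous_const)

/-- Every point lies in the annulus or off the support of the cut-off function. -/
theorem mem_or {ζ : E3 → ℝ} (hζ : CutZ ζ) (x : E3) :
    x ∈ Ann (1 / 2) 2 ∨ x ∉ tsupport ζ := by
  by_cases h : x ∈ tsupport ζ
  · exact Or.inl (hζ.supp h)
  · exact Or.inr h

theorem ev_zero {ζ : E3 → ℝ} {x : E3} (h : x ∉ tsupport ζ) : ζ =ᶠ[𝓝 x] 0 :=
  notMem_tsupport_iff_eventuallyEq.mp h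

theorem smooth_mul {ζ ψ : E3 → ℝ} (hζ : CutZ ζ)
    (hψ : ∀ x ∈ Ann (1 / 2) 2, ContDiffAt ℝ ∞ ψ x) :
    ContDiff ℝ ∞ (fun x => ζ x ^ 4 * ψ x) := by
  rw [contDiff_iff_contDiffAt]
  intro x
  rcases mem_or hζ x with h | h
  · exact (hζ.smooth.contDiffAt.pow 4).mul (hψ x h)
  · have h1 : (fun x => ζ x ^ 4 * ψ x) =ᶠ[𝓝 x] fun _ => 0 := by
      filter_upwards [ev_zero h] with y hy
      simp [hy]
    exact contDiffAt_const.congr_of_eventuallyEq h1

theorem compact_mul {ζ ψ : E3 → ℝ} (hζ : CutZ ζ) :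
    HasCompactSupport (fun x => ζ x ^ 4 * ψ x) := by
  refine HasCompactSupport.intro hζ.compact fun x hx => ?_
  simp [image_eq_zero_of_notMem_tsupport hx]

theorem pd_bound {ζ : E3 → ℝ} (hζ : CutZ ζ) : ∃ Z : ℝ, 0 ≤ Z ∧ ∀ m x, |pd m ζ x| ≤ Z := by
  have h1 : ∀ m : Fin 3, ∃ Z : ℝ, ∀ x, |pd m ζ x| ≤ Z := by
    intro m
    have hc : Continuous (pd m ζ) :=
      (hζ.smooth.continuous_fderiv (by simp)).clm_apply continuous_const
    have hs : HasCompactSupport (pd m ζ) := hζ.compact.fderiv_apply ℝ _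
    obtain ⟨C, hC⟩ := hc.bounded_above_of_compact_support hs
    exact ⟨C, fun x => by simpa using hC x⟩
  choose Z hZ using h1
  refine ⟨|Z 0| + |Z 1| + |Z 2|, by positivity, fun m x => (hZ m x).trans ?_⟩
  have a0 := le_abs_self (Z 0)
  have a1 := le_abs_self (Z 1)
  have a2 := le_abs_self (Z 2)
  have b0 := abs_nonneg (Z 0)
  have b1 := abs_nonneg (Z 1)
  have b2 := abs_nonneg (Z 2)
  fin_cases m <;> simp <;> linarith

theorem vol_bound {g : TensorField} {x : E3} {Λ : ℝ} (h : ∀ i j, |g x i j| ≤ Λ) :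
    volDen g x ≤ √(6 * Λ ^ 3) := by
  unfold volDen
  refine Real.sqrt_le_sqrt ?_
  have h3 : ∀ a b c : ℝ, |a| ≤ Λ → |b| ≤ Λ → |c| ≤ Λ → |a * b * c| ≤ Λ ^ 3 := by
    intro a b c ha hb hc
    have := p2 (p2 ha hb) hc
    calc _ ≤ Λ * Λ * Λ := this
      _ = Λ ^ 3 := by ring
  rw [Matrix.det_fin_three]
  have e1 := abs_le.mp (h3 _ _ _ (h 0 0) (h 1 1) (h 2 2))
  have e2 := abs_le.mp (h3 _ _ _ (h 0 0) (h 1 2) (h 2 1))
  have e3 := abs_le.mp (h3 _ _ _ (h 0 1) (h 1 0) (h 2 2))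
  have e4 := abs_le.mp (h3 _ _ _ (h 0 1) (h 1 2) (h 2 0))
  have e5 := abs_le.mp (h3 _ _ _ (h 0 2) (h 1 0) (h 2 1))
  have e6 := abs_le.mp (h3 _ _ _ (h 0 2) (h 1 1) (h 2 0))
  linarith [e1.2, e2.1, e3.1, e4.2, e5.2, e6.1]

/-- The weight. -/
noncomputable def q (ζ : E3 → ℝ) (g : TensorField) (i j k l : Fin 3) (x : E3) : ℝ :=
  ζ x ^ 4 * (volDen g x * ((g x)⁻¹ i k * (g x)⁻¹ j l))

theorem hyp_of {Λ : ℝ} {g h : TensorField} (hΛ : 0 < Λ) (hg : MetricOn (Ann (1 / 2) 2) g)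
    (hb : ∀ x ∈ Ann (1 / 2) 2, BdAt Λ g h x) {x : E3} (hx : x ∈ Ann (1 / 2) 2) : Hyp g x Λ := by
  have ho : IsOpen (Ann (1 / 2) 2) := isOpen_Ann _ _
  have hp := MJD.pt_of ho hg hx
  exact ⟨hp, fun i j => (hg.smooth i j).contDiffAt (ho.mem_nhds hx), hΛ,
    fun i j => XXCURV.inv_le hp hΛ (hb x hx).elliptic i j, (hb x hx).metric,
    fun k i j => (hb x hx).deriv i j k⟩

theorem q_smooth {ζ : E3 → ℝ} {g : TensorField} (hζ : CutZ ζ) (hg : MetricOn (Ann (1 / 2) 2) g)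
    (i j k l : Fin 3) : ContDiff ℝ ∞ (q ζ g i j k l) := by
  have ho : IsOpen (Ann (1 / 2) 2) := isOpen_Ann _ _
  exact smooth_mul hζ fun x hx => (MCF.volDen_smooth ho hg hx).mul
    ((MCF.inv_smooth ho hg hx i k).mul (MCF.inv_smooth ho hg hx j l))

theorem q_compact {ζ : E3 → ℝ} {g : TensorField} (hζ : CutZ ζ) (i j k l : Fin 3) :
    HasCompactSupport (q ζ g i j k l) := compact_mul hζ

theorem q_pd {ζ : E3 → ℝ} {g : TensorField} {Λ Z : ℝ} (hζ : CutZ ζ)
    (hZ : ∀ m x, |pd m ζ x| ≤ Z) (i j k l m : Fin 3) {x : E3} (h : Hyp g x Λ) :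
    |pd m (q ζ g i j k l) x| ≤ √(6 * Λ ^ 3) * (4 * Z * Λ ^ 2 + 75 * Λ ^ 4) * ζ x ^ 3 := by
  set V := √(6 * Λ ^ 3) with hV
  have hV0 : 0 ≤ V := Real.sqrt_nonneg _
  have hΛ := h.pos
  have hv : |volDen g x| ≤ V := by
    have h0 : 0 ≤ volDen g x := Real.sqrt_nonneg _
    rw [abs_of_nonneg h0]
    exact vol_bound h.b0
  have hdζ : DifferentiableAt ℝ ζ x := hζ.smooth.contDiffAt.differentiableAt (by simp)
  have hd4 : DifferentiableAt ℝ (fun y => ζ y ^ 4) x := hdζ.pow 4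
  have hdV : DifferentiableAt ℝ (volDen g) x := h.pt.diffVol
  have hdI : DifferentiableAt ℝ (fun y => (g y)⁻¹ i k * (g y)⁻¹ j l) x :=
    (h.pt.diffInv i k).mul (h.pt.diffInv j l)
  have e : pd m (q ζ g i j k l) x =
      ζ x ^ 4 * (volDen g x * ((g x)⁻¹ i k * pd m (fun y => (g y)⁻¹ j l) x
        + (g x)⁻¹ j l * pd m (fun y => (g y)⁻¹ i k) x)
        + ((g x)⁻¹ i k * (g x)⁻¹ j l) * pd m (volDen g) x)
      + (volDen g x * ((g x)⁻¹ i k * (g x)⁻¹ j l)) * pd m (fun y => ζ y ^ 4) x := by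
    unfold q
    rw [GB.IBP.pd_mul hd4 (hdV.fun_mul hdI), GB.IBP.pd_mul hdV hdI,
      GB.IBP.pd_mul (h.pt.diffInv i k) (h.pt.diffInv j l)]
  have e4 : pd m (fun y => ζ y ^ 4) x = ζ x ^ 3 * (4 * pd m ζ x) := by
    have h1 := GB.IBP.pd_comp (F := fun t : ℝ => t ^ 4) (W := ζ) (x := x)
      (differentiableAt_id.pow 4) hdζ m
    rw [h1]
    have h2 : deriv (fun t : ℝ => t ^ 4) (ζ x) = 4 * ζ x ^ 3 := by
      simp
    rw [h2]
    ring
  have hvol' : |pd m (volDen g) x| ≤ V * (3 * (5 * Λ ^ 2)) := by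
    rw [h.pt.pd_vol]
    exact p2 hv (s3 fun l => h.bG l m l)
  have hz3 : 0 ≤ ζ x ^ 3 := pow_nonneg (hζ.nonneg x) 3
  have hz4 : ζ x ^ 4 ≤ ζ x ^ 3 := by
    have : ζ x ^ 4 = ζ x ^ 3 * ζ x := by ring
    rw [this]
    exact mul_le_of_le_one_right hz3 (hζ.le_one x)
  have hz4' : |ζ x ^ 4| ≤ ζ x ^ 3 := by
    rw [abs_of_nonneg (pow_nonneg (hζ.nonneg x) 4)]
    exact hz4
  rw [e, e4]
  have b1 : |ζ x ^ 4 * (volDen g x * ((g x)⁻¹ i k * pd m (fun y => (g y)⁻¹ j l) x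
        + (g x)⁻¹ j l * pd m (fun y => (g y)⁻¹ i k) x)
        + ((g x)⁻¹ i k * (g x)⁻¹ j l) * pd m (volDen g) x)| ≤
      ζ x ^ 3 * (V * (Λ * (30 * Λ ^ 3) + Λ * (30 * Λ ^ 3)) + (Λ * Λ) * (V * (3 * (5 * Λ ^ 2)))) :=
    p2 hz4' (a2 (p2 hv (a2 (p2 (h.bA _ _) (h.bA' _ _ _)) (p2 (h.bA _ _) (h.bA' _ _ _))))
      (p2 (p2 (h.bA _ _) (h.bA _ _)) hvol'))
  have b2 : |(volDen g x * ((g x)⁻¹ i k * (g x)⁻¹ j l)) * (ζ x ^ 3 * (4 * pd m ζ x))| ≤
      (V * (Λ * Λ)) * (ζ x ^ 3 * (4 * Z)) :=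
    p2 (p2 hv (p2 (h.bA _ _) (h.bA _ _))) (p2 (le_of_eq (abs_of_nonneg hz3))
      (p2 (by norm_num) (hZ m x)))
  refine (a2 b1 b2).trans (le_of_eq ?_)
  ring

theorem q_pd' {ζ : E3 → ℝ} {g h : TensorField} {Λ Z : ℝ} (hΛ : 0 < Λ) (hζ : CutZ ζ)
    (hZ : ∀ m x, |pd m ζ x| ≤ Z) (hg : MetricOn (Ann (1 / 2) 2) g)
    (hb : ∀ x ∈ Ann (1 / 2) 2, BdAt Λ g h x) (i j k l m : Fin 3) (x : E3) :
    |pd m (q ζ g i j k l) x| ≤ √(6 * Λ ^ 3) * (4 * Z * Λ ^ 2 + 75 * Λ ^ 4) * ζ x ^ 3 := by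
  rcases mem_or hζ x with hx | hx
  · exact q_pd hζ hZ i j k l m (hyp_of hΛ hg hb hx)
  · have h1 : q ζ g i j k l =ᶠ[𝓝 x] fun _ => 0 := by
      filter_upwards [ev_zero hx] with y hy
      simp [q, hy]
    rw [GB.IBP.pd_congr h1]
    have h2 : ζ x = 0 := image_eq_zero_of_notMem_tsupport hx
    have h3 : pd m (fun _ : E3 => (0 : ℝ)) x = 0 := by
      simp [pd]
    rw [h3, h2]
    simp

theorem le_vsz (p : Cov) (i : Fin 3) : |p i| ≤ vsz p := by
  unfold vsz
  rw [← Real.sqrt_sq_eq_abs]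
  exact Real.sqrt_le_sqrt (Finset.single_le_sum (f := fun i => p i ^ 2)
    (fun i _ => sq_nonneg _) (Finset.mem_univ i))

theorem le_msz (B : Bil) (i j : Fin 3) : |B i j| ≤ msz B := by
  unfold msz
  rw [← Real.sqrt_sq_eq_abs]
  refine Real.sqrt_le_sqrt ((Finset.single_le_sum (f := fun j => B i j ^ 2)
    (fun j _ => sq_nonneg _) (Finset.mem_univ j)).trans ?_)
  exact Finset.single_le_sum (f := fun i => ∑ j, B i j ^ 2)
    (fun i _ => Finset.sum_nonneg fun j _ => sq_nonneg _) (Finset.mem_univ i)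

theorem contDiff_pd {f : E3 → ℝ} (h : ContDiff ℝ ∞ f) (i : Fin 3) : ContDiff ℝ ∞ (pd i f) :=
  contDiff_iff_contDiffAt.mpr fun _ => MCF.pd_smooth h.contDiffAt i

theorem cont_vsz {v : E3 → ℝ} (hv : ContDiff ℝ ∞ v) : Continuous fun x => vsz (grad v x) := by
  unfold vsz grad
  exact (continuous_finsetSum _ fun i _ => (contDiff_pd hv i).continuous.pow 2).sqrt

theorem cont_msz {v : E3 → ℝ} (hv : ContDiff ℝ ∞ v) : Continuous fun x => msz (hess2 v x) := by
  unfold msz hess2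
  exact (continuous_finsetSum _ fun i _ => continuous_finsetSum _ fun j _ =>
    (contDiff_pd (contDiff_pd hv j) i).continuous.pow 2).sqrt

theorem rhs_int {v ζ : E3 → ℝ} (hv : ContDiff ℝ ∞ v) (hζ : CutZ ζ) :
    Integrable fun x => ζ x ^ 3 * (vsz (grad v x) * msz (hess2 v x)) := by
  have hc : Continuous fun x => ζ x ^ 3 * (vsz (grad v x) * msz (hess2 v x)) :=
    (hζ.smooth.continuous.pow 3).mul ((cont_vsz hv).mul (cont_msz hv))
  refine hc.integrable_of_hasCompactSupport (HasCompactSupport.intro hζ.compact fun x hx => ?_)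
  simp [image_eq_zero_of_notMem_tsupport hx]

/-- One term. -/
theorem term {q v : E3 → ℝ} {ζ : E3 → ℝ} {K : ℝ} (hq : ContDiff ℝ ∞ q) (hqc : HasCompactSupport q)
    (hv : ContDiff ℝ ∞ v) (hζ : CutZ ζ) (hK : ∀ m x, |pd m q x| ≤ K * ζ x ^ 3)
    (i j k l : Fin 3) :
    Integrable (fun x => q x * (hess2 v x i j * hess2 v x k l - hess2 v x i k * hess2 v x j l)) ∧
    ∫ x, q x * (hess2 v x i j * hess2 v x k l - hess2 v x i k * hess2 v x j l) ≤
      2 * K * ∫ x, ζ x ^ 3 * (vsz (grad v x) * msz (hess2 v x)) := by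
  have hv1 : ∀ a, ContDiff ℝ ∞ (pd a v) := fun a => contDiff_pd hv a
  have hv2 : ∀ a b, ContDiff ℝ ∞ (pd a (pd b v)) := fun a b => contDiff_pd (hv1 b) a
  have hdq : Differentiable ℝ q := hq.differentiable (by simp)
  have hd1 : ∀ a, Differentiable ℝ (pd a v) := fun a => (hv1 a).differentiable (by simp)
  have hd2 : ∀ a b, Differentiable ℝ (pd a (pd b v)) := fun a b =>
    (hv2 a b).differentiable (by simp)
  have hT : ∀ a b m : Fin 3, Integrable (pd m fun x => q x * (pd i v x * pd a (pd b v) x)) ∧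
      ∫ x, pd m (fun x => q x * (pd i v x * pd a (pd b v) x)) x = 0 := by
    intro a b m
    refine GB.IBP.integral_pd_zero ((hq.mul ((hv1 i).mul (hv2 a b))).of_le (by simp)) ?_ m
    exact HasCompactSupport.intro hqc fun x hx => by
      simp [image_eq_zero_of_notMem_tsupport hx]
  have hR : ∀ a b m : Fin 3, Integrable fun x => pd m q x * (pd i v x * pd a (pd b v) x) := by
    intro a b m
    have hc : Continuous fun x => pd m q x * (pd i v x * pd a (pd b v) x) :=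
      (contDiff_pd hq m).continuous.mul ((hv1 i).continuous.mul (hv2 a b).continuous)
    refine hc.integrable_of_hasCompactSupport ?_
    have h1 : HasCompactSupport (pd m q) := hqc.fderiv_apply ℝ _
    exact HasCompactSupport.intro h1 fun x hx => by
      simp [image_eq_zero_of_notMem_tsupport hx]
  have hpt : ∀ x, q x * (hess2 v x i j * hess2 v x k l - hess2 v x i k * hess2 v x j l) =
      (pd j (fun x => q x * (pd i v x * pd k (pd l v) x)) x
        - pd k (fun x => q x * (pd i v x * pd j (pd l v) x)) x)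
      - (pd j q x * (pd i v x * pd k (pd l v) x) - pd k q x * (pd i v x * pd j (pd l v) x)) := by
    intro x
    rw [GB.IBP.pd_mul (hdq x) ((hd1 i x).fun_mul (hd2 k l x)),
      GB.IBP.pd_mul (hd1 i x) (hd2 k l x),
      GB.IBP.pd_mul (hdq x) ((hd1 i x).fun_mul (hd2 j l x)),
      GB.IBP.pd_mul (hd1 i x) (hd2 j l x)]
    have c1 : pd j (pd k (pd l v)) x = pd k (pd j (pd l v)) x :=
      ML4.pd_comm (hv1 l).contDiffAt j k
    have c2 : pd j (pd i v) x = pd i (pd j v) x := ML4.pd_comm hv.contDiffAt j i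
    have c3 : pd k (pd i v) x = pd i (pd k v) x := ML4.pd_comm hv.contDiffAt k i
    rw [c1, c2, c3]
    simp only [hess2, Matrix.of_apply]
    ring
  have hI : Integrable (fun x => (pd j (fun x => q x * (pd i v x * pd k (pd l v) x)) x
        - pd k (fun x => q x * (pd i v x * pd j (pd l v) x)) x)
      - (pd j q x * (pd i v x * pd k (pd l v) x) - pd k q x * (pd i v x * pd j (pd l v) x))) :=
    ((hT k l j).1.sub (hT j l k).1).sub ((hR k l j).sub (hR j l k))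
  simp only [hpt]
  refine ⟨hI, ?_⟩
  have e1 := integral_sub (f := fun x => pd j (fun x => q x * (pd i v x * pd k (pd l v) x)) x
        - pd k (fun x => q x * (pd i v x * pd j (pd l v) x)) x)
      (g := fun x => pd j q x * (pd i v x * pd k (pd l v) x)
        - pd k q x * (pd i v x * pd j (pd l v) x))
      ((hT k l j).1.sub (hT j l k).1) ((hR k l j).sub (hR j l k))
  have e2 := integral_sub (hT k l j).1 (hT j l k).1
  rw [e1, e2, (hT k l j).2, (hT j l k).2, sub_zero, zero_sub,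
    ← integral_neg, ← integral_const_mul]
  refine integral_mono ((hR k l j).sub (hR j l k)).neg ((rhs_int hv hζ).const_mul _) fun x => ?_
  have hz3 : 0 ≤ ζ x ^ 3 := pow_nonneg (hζ.nonneg x) 3
  have hpv : |pd i v x| ≤ vsz (grad v x) := le_vsz (grad v x) i
  have hb1 : |pd k (pd l v) x| ≤ msz (hess2 v x) := le_msz (hess2 v x) k l
  have hb2 : |pd j (pd l v) x| ≤ msz (hess2 v x) := le_msz (hess2 v x) j l
  have h1 := m2 (p2 (hK j x) (p2 hpv hb1)) (p2 (hK k x) (p2 hpv hb2))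
  have h2 := (neg_abs_le _).trans_eq' rfl |>.trans' (neg_le_neg h1)
  show -(pd j q x * (pd i v x * pd k (pd l v) x) - pd k q x * (pd i v x * pd j (pd l v) x)) ≤
    2 * K * (ζ x ^ 3 * (vsz (grad v x) * msz (hess2 v x)))
  linarith

end HXBSaux

open HXBSaux in
theorem HXBS : Stmt_HXBS := by
  intro Λ ζ hΛ hζ
  obtain ⟨Z, hZ0, hZ⟩ := pd_bound hζ
  set K := √(6 * Λ ^ 3) * (4 * Z * Λ ^ 2 + 75 * Λ ^ 4) with hKdef
  have hK0 : 0 ≤ K := by positivity
  refine ⟨162 * K + 1, by positivity, fun g h v hg hb hv => ?_⟩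
  have hvan : ∀ x, x ∉ Ann (1 / 2) 2 → ζ x = 0 := fun x hx =>
    image_eq_zero_of_notMem_tsupport fun h => hx (hζ.supp h)
  rw [setIntegral_eq_integral_of_forall_compl_eq_zero (fun x hx => by simp [hvan x hx]),
    setIntegral_eq_integral_of_forall_compl_eq_zero (fun x hx => by simp [hvan x hx])]
  have ht : ∀ i j k l : Fin 3, _ := fun i j k l =>
    term (q_smooth hζ hg i j k l) (q_compact hζ i j k l) hv hζ
      (fun m x => q_pd' hΛ hζ hZ hg hb i j k l m x) i j k l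
  have hpt : ∀ x, ζ x ^ 4 * (volDen g x * (nsq g x (hess2 v x) - trg g x (hess2 v x) ^ 2)) =
      ∑ i, ∑ j, ∑ k, ∑ l, q ζ g i j k l x *
        (hess2 v x i j * hess2 v x k l - hess2 v x i k * hess2 v x j l) := by
    intro x
    have e1 : trg g x (hess2 v x) ^ 2 = ∑ i, ∑ j, ∑ k, ∑ l,
        (g x)⁻¹ i k * (g x)⁻¹ j l * (hess2 v x i k * hess2 v x j l) := by
      have e2 : trg g x (hess2 v x) ^ 2 = (∑ i, ∑ k, (g x)⁻¹ i k * hess2 v x i k) *
          (∑ j, ∑ l, (g x)⁻¹ j l * hess2 v x j l) := by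
        rw [sq]
        rfl
      rw [e2, Finset.sum_mul_sum]
      refine Finset.sum_congr rfl fun i _ => Finset.sum_congr rfl fun j _ => ?_
      rw [Finset.sum_mul_sum]
      refine Finset.sum_congr rfl fun k _ => Finset.sum_congr rfl fun l _ => ?_
      ring
    rw [e1]
    unfold nsq q
    simp only [← Finset.sum_sub_distrib, Finset.mul_sum]
    refine Finset.sum_congr rfl fun i _ => Finset.sum_congr rfl fun j _ =>
      Finset.sum_congr rfl fun k _ => Finset.sum_congr rfl fun l _ => ?_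
    ring
  simp only [hpt]
  set J := ∫ x, ζ x ^ 3 * (vsz (grad v x) * msz (hess2 v x)) with hJ
  have hJ0 : 0 ≤ J := integral_nonneg fun x => by
    have := hζ.nonneg x
    unfold vsz msz
    positivity
  rw [integral_finsetSum _ fun i _ => integrable_finsetSum _ fun j _ =>
    integrable_finsetSum _ fun k _ => integrable_finsetSum _ fun l _ => (ht i j k l).1]
  have hsum : ∀ f : Fin 3 → ℝ, ∀ B : ℝ, (∀ i, f i ≤ B) → ∑ i, f i ≤ 3 * B := by
    intro f B hf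
    rw [Fin.sum_univ_three]
    linarith [hf 0, hf 1, hf 2]
  have h1 : ∑ i : Fin 3, ∫ x, ∑ j, ∑ k, ∑ l, q ζ g i j k l x *
        (hess2 v x i j * hess2 v x k l - hess2 v x i k * hess2 v x j l) ≤
      3 * (3 * (3 * (3 * (2 * K * J)))) := by
    refine hsum _ _ fun i => ?_
    rw [integral_finsetSum _ fun j _ =>
      integrable_finsetSum _ fun k _ => integrable_finsetSum _ fun l _ => (ht i j k l).1]
    refine hsum _ _ fun j => ?_
    rw [integral_finsetSum _ fun k _ => integrable_finsetSum _ fun l _ => (ht i j k l).1]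
    refine hsum _ _ fun k => ?_
    rw [integral_finsetSum _ fun l _ => (ht i j k l).1]
    exact hsum _ _ fun l => (ht i j k l).2
  refine h1.trans ?_
  nlinarith

end Pool.Agent.PFlow.HX
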