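import Pool.Agent.PFlow.StmtsHX
import Pool.Agent.PFlow.E.RADN
import Pool.Agent.PFlow.M_Coef

/-!
# HXBT: the boundary term has a sign
-/

open MeasureTheory Filter Topology
open scoped ContDiff ENNReal

namespace Pool.Agent.PFlow.HX

open Pool.Agent.PenroseSph

namespace HXBTaux

theorem isOpen_Ann (a b : ℝ) : IsOpen (Ann a b) :=
  (isOpen_lt continuous_const continuous_norm).inter (isOpen_lt continuous_norm continuous_const)

/-- the derivative of an even function about `1` -/
theorem deriv_odd {L : ℝ → ℝ} (hL : ∀ t, L (2 - t) = L t) (t : ℝ) :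
    deriv L (2 - t) = -deriv L t := by
  have h1 : deriv (fun s => L (2 - s)) t = -deriv L (2 - t) := deriv_comp_const_sub L 2 t
  have h2 : (fun s => L (2 - s)) = L := funext hL
  rw [h2] at h1
  linarith

/-- the derivatives of the rise -/
theorem deriv2 {ε σ : ℝ} {L lam : ℝ → ℝ} (hε : 0 < ε) (hR : Rise ε σ L lam) (s : ℝ) :
    ε * deriv (deriv lam) s = -(deriv L (Real.exp (-s / ε)) * Real.exp (-s / ε) ^ 3
      + 2 * (L (Real.exp (-s / ε)) * Real.exp (-s / ε) ^ 2)) / ε ^ 2 := by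
  have h0 : deriv lam = fun s => L (Real.exp (-s / ε)) * Real.exp (-s / ε) ^ 2 / ε ^ 2 :=
    funext hR.deriv
  have h1 : HasDerivAt (fun s : ℝ => Real.exp (-s / ε)) (Real.exp (-s / ε) * (-1 / ε)) s := by
    have h2 : HasDerivAt (fun s : ℝ => -s / ε) (-1 / ε) s := by
      have := ((hasDerivAt_id s).neg).div_const ε
      simpa using this
    exact h2.exp
  have h3 : HasDerivAt L (deriv L (Real.exp (-s / ε))) (Real.exp (-s / ε)) :=
    (hR.smoothL.differentiable (by simp) _).hasDerivAt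
  have h4 : HasDerivAt (fun s : ℝ => L (Real.exp (-s / ε)))
      (deriv L (Real.exp (-s / ε)) * (Real.exp (-s / ε) * (-1 / ε))) s := h3.comp s h1
  have h5 := (h4.mul (h1.pow 2)).div_const (ε ^ 2)
  have h6 : HasDerivAt (deriv lam) (-(deriv L (Real.exp (-s / ε)) * Real.exp (-s / ε) ^ 3
      + 2 * (L (Real.exp (-s / ε)) * Real.exp (-s / ε) ^ 2)) / (ε * ε ^ 2)) s := by
    rw [h0]
    refine h5.congr_deriv ?_
    simp only [Pi.pow_apply]
    push_cast
    field_simp
    ring
  rw [h6.deriv]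
  field_simp

/-- the identity at a point -/
theorem point {ε σ : ℝ} {g h : TensorField} {x : E3} {u : E3 → ℝ} {G : E3 → Cov} {L lam : ℝ → ℝ}
    (hε : 0 < ε) (hu : 0 < u x) (hR : Rise ε σ L lam) :
    Real.exp (-wOf ε u x / ε) = u x ∧
    deriv lam (wOf ε u x) = L (u x) * u x ^ 2 / ε ^ 2 ∧
    deriv lam (wOf ε u x) + ε * deriv (deriv lam) (wOf ε u x)
      = -(deriv L (u x) * u x ^ 3 + L (u x) * u x ^ 2) / ε ^ 2 ∧
    len g x (G x) = u x / ε * len g x (gOf ε u G x) ∧
    beps ε g x (gOf ε u G x) (h x) = beps ε g x (G x) (h x) ∧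
    btan g x (gOf ε u G x) (h x) = btan g x (G x) (h x) := by
  have e1 : Real.exp (-wOf ε u x / ε) = u x := by
    unfold wOf
    have : -(-ε * Real.log (u x)) / ε = Real.log (u x) := by
      field_simp
    rw [this, Real.exp_log hu]
  have e2 : deriv lam (wOf ε u x) = L (u x) * u x ^ 2 / ε ^ 2 := by
    rw [hR.deriv, e1]
  have hc : -ε / u x < 0 := div_neg_of_neg_of_pos (by linarith) hu
  have e4 : gOf ε u G x = fun i => -ε / u x * G x i := by
    funext i
    unfold gOf
    ring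
  refine ⟨e1, e2, ?_, ?_, ?_, ?_⟩
  · have e3 := deriv2 hε hR (wOf ε u x)
    rw [e1] at e3
    rw [e2, e3]
    ring
  · rw [e4, RADN.len_smul, abs_of_neg hc]
    field_simp
  · rw [e4, RADN.beps_smul ε g x hc]
  · unfold btan
    rw [e4, RADN.bnn_smul g x hc]

theorem tsupport_sub {ε σ : ℝ} {L lam : ℝ → ℝ} (hR : Rise ε σ L lam) {s : ℝ}
    (hs : s ∈ tsupport (deriv lam)) : |Real.exp (-s / ε) - 1| ≤ σ := by
  have hcl : IsClosed {s : ℝ | |Real.exp (-s / ε) - 1| ≤ σ} := by
    refine isClosed_le ?_ continuous_const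
    fun_prop
  refine closure_minimal (fun t ht => ?_) hcl hs
  by_contra hcon
  have h1 : L (Real.exp (-t / ε)) = 0 := hR.suppL _ (not_le.mp hcon)
  exact ht (by rw [hR.deriv, h1]; ring)

theorem derivL_zero {ε σ : ℝ} {L lam : ℝ → ℝ} (hR : Rise ε σ L lam) {t : ℝ}
    (ht : σ < |t - 1|) : deriv L t = 0 := by
  have hop : IsOpen {t : ℝ | σ < |t - 1|} := by
    refine isOpen_lt continuous_const ?_
    fun_prop
  have h1 : L =ᶠ[𝓝 t] fun _ => (0 : ℝ) := by
    filter_upwards [hop.mem_nhds ht] with s hs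
    exact hR.suppL s hs
  rw [h1.deriv_eq]
  exact deriv_const t (0 : ℝ)

theorem vn_eq (p : Cov) : vn p = vsz p := rfl

/-- the cubic term is integrable -/
theorem cubic_int (hINT : Stmt_INT) (hL4 : Stmt_L4) {ε : ℝ} {U K : Set E3} {g h : TensorField}
    {w : E3 → ℝ} {G : E3 → Cov} {M : E3 → Bil} (hε : 0 < ε) (hε1 : ε < 1) (hU : IsOpen U)
    (hg : MetricOn U g) (hh : TensorOn U h) (hw : H2On U w G M) (hEq : EqW U ε g h G M)
    (hK : IsCompact K) (hKU : K ⊆ U) :
    IntegrableOn (fun x => len g x (G x) ^ 3 * volDen g x) K := by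
  obtain ⟨-, i4, -⟩ := hINT ε U g h w G M hε hε1 hU hg hh hw hEq K hK hKU
  have hGK := (hL4 U w G M hU hw).memG K hK hKU
  have hc := MCF.coef hU hg hh hK hKU
  have mG : ∀ i, AEMeasurable (fun x => G x i) (volume.restrict K) := fun i =>
    (hGK i).aestronglyMeasurable.aemeasurable
  have hvc : ContinuousOn (fun x => volDen g x) K := fun x hx =>
    (MCF.volDen_smooth hU hg (hKU hx)).continuousAt.continuousWithinAt
  have hvi : IntegrableOn (fun x => volDen g x) K := hvc.integrableOn_compact hK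
  refine (hvi.add i4).mono' (((MCF.m_len hc mG).pow_const 3).mul hc.vol).aestronglyMeasurable ?_
  refine (ae_restrict_iff' hK.measurableSet).mpr (Eventually.of_forall fun x hx => ?_)
  have hv : 0 < volDen g x := MCF.volDen_pos hg (hKU hx)
  have hl : 0 ≤ len g x (G x) := Real.sqrt_nonneg _
  rw [Real.norm_eq_abs, abs_of_nonneg (by positivity)]
  simp only [Pi.add_apply]
  have h3 : len g x (G x) ^ 3 ≤ 1 + len g x (G x) ^ 4 := by
    rcases le_total (len g x (G x)) 1 with h1 | h1
    · have := pow_le_one₀ hl h1 (n := 3)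
      have := pow_nonneg hl 4
      linarith
    · have : len g x (G x) ^ 3 ≤ len g x (G x) ^ 4 := pow_le_pow_right₀ h1 (by norm_num)
      linarith
  calc len g x (G x) ^ 3 * volDen g x ≤ (1 + len g x (G x) ^ 4) * volDen g x :=
        mul_le_mul_of_nonneg_right h3 hv.le
    _ = _ := by ring

end HXBTaux

open HXBTaux in
/-- HXBT: the boundary term has a sign. -/
theorem HXBT (hHXSYM : Stmt_HXSYM) (hXID : Stmt_XID) (hLOGW : Stmt_LOGW) (hINT : Stmt_INT)
    (hL4 : Stmt_L4) : Stmt_HXBT := by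
  intro ε R σ g h u G M L lam hε hε2 hR hσ hσ2 hg hh hMir hS hpos hloc hRise
  have hε1 : ε < 1 := by linarith
  set U := Ann (1 / 2) R with hUdef
  set K := cAnn (2 / 3) (3 / 2) with hKdef
  have hU : IsOpen U := isOpen_Ann _ _
  have hgU : MetricOn U g := ⟨fun i j => (hg.smooth i j).mono (Set.subset_univ _),
    fun x _ => hg.posDef x (Set.mem_univ x)⟩
  have hhU : TensorOn U h := ⟨fun i j => (hh.smooth i j).mono (Set.subset_univ _),
    fun x _ => hh.symm x (Set.mem_univ x)⟩
  obtain ⟨hw, hEq, -⟩ := hLOGW ε U g h u G M hε hε1 hU hgU hhU hS.h2 hpos hS.eq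
  have hK : IsCompact K := by
    have h1 : K = Metric.closedBall (0 : E3) (3 / 2) ∩ {x : E3 | 2 / 3 ≤ ‖x‖} := by
      ext x
      simp only [hKdef, cAnn, Set.mem_ofPred_eq, Set.mem_inter_iff, mem_closedBall_zero_iff]
      tauto
    rw [h1]
    exact (isCompact_closedBall _ _).inter_right (isClosed_le continuous_const continuous_norm)
  have hA2 : Ann (1 / 2) 2 ⊆ U := fun x hx => ⟨hx.1, lt_of_lt_of_le hx.2 (by linarith)⟩
  have hKA : K ⊆ Ann (1 / 2) 2 := fun x hx =>
    ⟨lt_of_lt_of_le (by norm_num) hx.1, lt_of_le_of_lt hx.2 (by norm_num)⟩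
  have hKU : K ⊆ U := hKA.trans hA2
  have hpt := fun (x : E3) (hx : x ∈ U) => point (g := g) (h := h) (G := G) (u := u) (x := x)
    hε (hpos x hx) hRise
  have hx1 := hXID ε (1 / 2) R g h (wOf ε u) (gOf ε u G) (mOf ε u G M) hε hε1 (by norm_num)
    (by linarith) hgU hhU hw hEq (fun K' hK' hK'U =>
      (hINT ε U g h _ _ _ hε hε1 hU hgU hhU hw hEq K' hK' hK'U).1) (deriv lam) K
    ((hRise.smooth.iterate_deriv 1).of_le (by norm_cast)) hK hKU (fun x hx hs => by
      have h1 := tsupport_sub hRise hs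
      rw [(hpt x hx).1] at h1
      exact hloc x hx h1)
  rw [hx1]
  -- zero outside
  have hout : ∀ x ∈ U, x ∉ K → σ < |u x - 1| := fun x hx hxK => by
    by_contra hcon
    exact hxK (hloc x hx (not_lt.mp hcon))
  obtain ⟨hs1, hs2⟩ := hHXSYM ε g h u G M hg hh hMir
    ⟨hS.h2.cont.mono hA2, fun K' hK' hK'U => hS.h2.memG K' hK' (hK'U.trans hA2),
      fun K' hK' hK'U => hS.h2.memM K' hK' (hK'U.trans hA2),
      fun K' hK' hK'U => hS.h2.approx K' hK' (hK'U.trans hA2)⟩ hS.refl
  have hA2m : MeasurableSet (Ann (1 / 2) 2) := (isOpen_Ann _ _).measurableSet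
  -- the second integral
  have hB : ∫ x in U, deriv lam (wOf ε u x) * len g x (gOf ε u G x) ^ 2
      * (2 / (2 - ε) * beps ε g x (gOf ε u G x) (h x) - btan g x (gOf ε u G x) (h x))
      * volDen g x = 0 := by
    rw [setIntegral_eq_of_subset_of_forall_sdiff_eq_zero hU.measurableSet hA2 fun x hx => by
      have h1 : L (u x) = 0 := hRise.suppL _ (hout x hx.1 fun hc => hx.2 (hKA hc))
      rw [(hpt x hx.1).2.1, h1]
      ring]
    rw [← hs2 L hRise.even]
    refine setIntegral_congr_fun hA2m fun x hx => ?_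
    obtain ⟨-, e2, -, e4, e5, e6⟩ := hpt x (hA2 hx)
    rw [e2, e5, e6, e4]
    field_simp
  rw [hB, add_zero]
  -- the first integral
  have hcub : IntegrableOn (fun x => len g x (gOf ε u G x) ^ 3 * volDen g x) K :=
    cubic_int hINT hL4 hε hε1 hU hgU hhU hw hEq hK hKU
  have hucont : ContinuousOn u K := hS.cont.continuousOn
  have c1 : ContinuousOn (fun x => deriv L (u x) * u x ^ 3) K :=
    ((hRise.smoothL.continuous_deriv (by simp)).comp_continuousOn hucont).mul (hucont.pow 3)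
  have c2 : ContinuousOn (fun x => L (u x) * u x ^ 2) K :=
    (hRise.smoothL.continuous.comp_continuousOn hucont).mul (hucont.pow 2)
  have i1 := hcub.continuousOn_mul c1 hK
  have i2 := hcub.continuousOn_mul c2 hK
  have hA : ∫ x in U, (deriv lam (wOf ε u x) + ε * deriv (deriv lam) (wOf ε u x))
      * len g x (gOf ε u G x) ^ 3 * volDen g x =
      -(1 / ε ^ 2) * ((∫ x in K, deriv L (u x) * u x ^ 3 *
          (len g x (gOf ε u G x) ^ 3 * volDen g x))
        + ∫ x in K, L (u x) * u x ^ 2 * (len g x (gOf ε u G x) ^ 3 * volDen g x)) := by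
    rw [setIntegral_eq_of_subset_of_forall_sdiff_eq_zero hU.measurableSet hKU fun x hx => by
      have h0 := hout x hx.1 hx.2
      rw [(hpt x hx.1).2.2.1, hRise.suppL _ h0, derivL_zero hRise h0]
      ring]
    rw [← integral_add i1 i2, ← integral_const_mul]
    refine setIntegral_congr_fun hK.measurableSet fun x hx => ?_
    obtain ⟨-, -, e3, -⟩ := hpt x (hKU hx)
    rw [e3]
    ring
  have hI1 : ∫ x in K, deriv L (u x) * u x ^ 3 * (len g x (gOf ε u G x) ^ 3 * volDen g x) = 0 := by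
    have h1 : ∫ x in K, deriv L (u x) * u x ^ 3 * (len g x (gOf ε u G x) ^ 3 * volDen g x)
        = ε ^ 3 * ∫ x in K, deriv L (u x) * len g x (G x) ^ 3 * volDen g x := by
      rw [← integral_const_mul]
      refine setIntegral_congr_fun hK.measurableSet fun x hx => ?_
      obtain ⟨-, -, -, e4, -⟩ := hpt x (hKU hx)
      rw [e4]
      field_simp
    have h2 : ∫ x in Ann (1 / 2) 2, deriv L (u x) * len g x (G x) ^ 3 * volDen g x
        = ∫ x in K, deriv L (u x) * len g x (G x) ^ 3 * volDen g x :=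
      setIntegral_eq_of_subset_of_forall_sdiff_eq_zero hA2m hKA fun x hx => by
        rw [derivL_zero hRise (hout x (hA2 hx.1) hx.2)]
        ring
    rw [h1, ← h2, hs1 (deriv L) (deriv_odd hRise.even), mul_zero]
  have hI2 : 0 ≤ ∫ x in K, L (u x) * u x ^ 2 * (len g x (gOf ε u G x) ^ 3 * volDen g x) := by
    refine setIntegral_nonneg hK.measurableSet fun x hx => ?_
    have h1 : 0 ≤ L (u x) := hRise.nonneg _
    have h2 : 0 ≤ volDen g x := Real.sqrt_nonneg _
    have h3 : 0 ≤ len g x (gOf ε u G x) := Real.sqrt_nonneg _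
    positivity
  rw [hA, hI1, zero_add]
  have h2 : 0 < 2 - ε := by linarith
  have h3 : 0 ≤ 1 / (2 - ε) * (1 / ε ^ 2) := by positivity
  have h4 := mul_nonneg h3 hI2
  linarith

end Pool.Agent.PFlow.HX
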