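import Pool.Agent.PFlow.StmtsHX
import Pool.Agent.PFlow.M_BAD
import Pool.Agent.PenroseSph.Calc

/-!
# HXC: the first derivatives are controlled by the second ones
-/

open MeasureTheory Filter Topology
open scoped ContDiff ENNReal

namespace Pool.Agent.PFlow.HX

open Pool.Agent.PenroseSph Pool.Agent.PFlow

namespace HXCaux

variable {μ : Measure E3}

theorem N_sq {φ : E3 → ℝ} (hφ : MemLp φ 2 μ) : MBAD.N μ φ ^ 2 = ∫ x, φ x ^ 2 ∂μ := by
  unfold MBAD.N
  rw [hφ.eLpNorm_eq_integral_rpow_norm (by norm_num) (by norm_num)]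
  have h0 : 0 ≤ ∫ x, φ x ^ 2 ∂μ := integral_nonneg fun x => sq_nonneg _
  have h1 : ∫ x, ‖φ x‖ ^ (2 : ℝ≥0∞).toReal ∂μ = ∫ x, φ x ^ 2 ∂μ := by
    refine integral_congr_ae (Eventually.of_forall fun x => ?_)
    show ‖φ x‖ ^ (2 : ℝ≥0∞).toReal = φ x ^ 2
    rw [ENNReal.toReal_ofNat, Real.rpow_ofNat, Real.norm_eq_abs, sq_abs]
  rw [h1, ENNReal.toReal_ofReal (by positivity), ENNReal.toReal_ofNat, ← Real.rpow_natCast,
    ← Real.rpow_mul h0]
  norm_num

theorem N_eq {φ : E3 → ℝ} (hφ : MemLp φ 2 μ) :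
    MBAD.N μ φ = Real.sqrt (∫ x, φ x ^ 2 ∂μ) := by
  rw [← N_sq hφ, Real.sqrt_sq (MBAD.N_nonneg _)]

/-- Convergence of weighted squares. -/
theorem tendsto_wsq {c : E3 → ℝ} {f : ℕ → E3 → ℝ} {F : E3 → ℝ}
    (hc : AEStronglyMeasurable c μ) (hc1 : ∀ x, |c x| ≤ 1) (hf : ∀ n, MemLp (f n) 2 μ)
    (hF : MemLp F 2 μ) (h : Tendsto (fun n => ∫ x, (f n x - F x) ^ 2 ∂μ) atTop (𝓝 0)) :
    Tendsto (fun n => ∫ x, (c x * f n x) ^ 2 ∂μ) atTop (𝓝 (∫ x, (c x * F x) ^ 2 ∂μ)) := by
  have hm : ∀ {φ : E3 → ℝ}, MemLp φ 2 μ → MemLp (fun x => c x * φ x) 2 μ := by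
    intro φ hφ
    refine hφ.mono (hc.mul hφ.1) (Eventually.of_forall fun x => ?_)
    rw [norm_mul]
    exact mul_le_of_le_one_left (norm_nonneg _) (hc1 x)
  have hd : ∀ n, MemLp (fun x => f n x - F x) 2 μ := fun n => (hf n).sub hF
  have hle : ∀ n, MBAD.N μ (fun x => c x * (f n x - F x)) ≤ MBAD.N μ (fun x => f n x - F x) := by
    intro n
    refine MBAD.N_mono (hd n) (Eventually.of_forall fun x => ?_)
    rw [abs_mul]
    exact mul_le_of_le_one_left (abs_nonneg _) (hc1 x)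
  have h0 : Tendsto (fun n => MBAD.N μ (fun x => f n x - F x)) atTop (𝓝 0) := by
    have h1 := (Real.continuous_sqrt.tendsto 0).comp h
    rw [Real.sqrt_zero] at h1
    refine h1.congr fun n => ?_
    rw [N_eq (hd n)]
    rfl
  have hN : Tendsto (fun n => MBAD.N μ (fun x => c x * f n x)) atTop
      (𝓝 (MBAD.N μ (fun x => c x * F x))) := by
    rw [tendsto_iff_norm_sub_tendsto_zero]
    refine squeeze_zero (fun n => norm_nonneg _) (fun n => ?_) h0
    refine le_trans ?_ (hle n)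
    rw [Real.norm_eq_abs, abs_sub_le_iff]
    constructor
    · have e : (fun x => c x * f n x) = fun x => c x * F x + c x * (f n x - F x) := by
        funext x
        ring
      have := MBAD.N_add (hm hF) (hm (hd n))
      rw [← e] at this
      linarith
    · have e : (fun x => c x * F x) = fun x => c x * f n x + -(c x * (f n x - F x)) := by
        funext x
        ring
      have h2 := MBAD.N_add (hm (hf n)) (hm (hd n)).neg
      have h3 : MBAD.N μ (-fun x => c x * (f n x - F x)) =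
          MBAD.N μ (fun x => c x * (f n x - F x)) := by
        unfold MBAD.N
        rw [eLpNorm_neg]
      rw [h3] at h2
      have h4 : (fun x => c x * f n x + (-fun x => c x * (f n x - F x)) x) =
          fun x => c x * F x := by
        rw [e]
        rfl
      rw [h4] at h2
      linarith
  have := hN.pow 2
  rw [N_sq (hm hF)] at this
  refine this.congr fun n => ?_
  rw [N_sq (hm (hf n))]

/-- The estimate for smooth functions. -/
theorem smooth_est {ζ : E3 → ℝ} (hζ : CutZ ζ) {v : E3 → ℝ} (hv : ContDiff ℝ ∞ v) {T Z : ℝ}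
    (hT0 : 0 ≤ T) (hT : ∀ x ∈ tsupport ζ, |v x| ≤ T) (hZ : ∀ i x, |pd i ζ x| ≤ Z) (i : Fin 3) :
    ∫ x in tsupport ζ, (ζ x * pd i v x) ^ 2 ≤ T * (MBAD.N (volume.restrict (tsupport ζ)) (fun _ => 1) *
      (2 * Z * MBAD.N (volume.restrict (tsupport ζ)) (fun x => ζ x * pd i v x) +
        MBAD.N (volume.restrict (tsupport ζ)) (fun x => ζ x ^ 2 * pd i (pd i v) x))) := by
  set K := tsupport ζ with hK
  have hKc : IsCompact K := hζ.compact
  have hg : ContDiff ℝ ∞ (pd i v) := MBAD.contDiff_pd hv i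
  have hgg : ContDiff ℝ ∞ (pd i (pd i v)) := MBAD.contDiff_pd hg i
  have hpz : ContDiff ℝ ∞ (pd i ζ) := MBAD.contDiff_pd hζ.smooth i
  have hZ0 : 0 ≤ Z := (abs_nonneg _).trans (hZ i 0)
  set k : E3 → ℝ := fun x => ζ x * (ζ x * pd i v x) with hk
  have hks : ContDiff ℝ ∞ k := hζ.smooth.mul (hζ.smooth.mul hg)
  have hkc : HasCompactSupport k := hζ.compact.mul_right
  have hk1 : ContDiff ℝ 1 k := hks.of_le (by simp)
  have hdk : HasCompactSupport (pd i k) := hkc.fderiv_apply ℝ _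
  have hcdk : Continuous (pd i k) := (MBAD.contDiff_pd hks i).continuous
  have i1 : Integrable (fun x => pd i k x * v x) :=
    (hcdk.mul hv.continuous).integrable_of_hasCompactSupport hdk.mul_right
  have i2 : Integrable (fun x => k x * pd i v x) :=
    (hks.continuous.mul hg.continuous).integrable_of_hasCompactSupport hkc.mul_right
  have i3 : Integrable (fun x => k x * v x) :=
    (hks.continuous.mul hv.continuous).integrable_of_hasCompactSupport hkc.mul_right
  have e1 : ∫ x, k x * pd i v x = - ∫ x, pd i k x * v x := by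
    unfold pd
    exact integral_mul_fderiv_eq_neg_fderiv_mul_of_integrable i1 i2 i3
      (fun x _ => hk1.differentiable (by simp) x)
      (fun x _ => hv.differentiable (by simp) x)
  have hz0 : ∀ x, x ∉ K → ζ x = 0 := fun x hx => image_eq_zero_of_notMem_tsupport hx
  have hdk0 : ∀ x, x ∉ K → pd i k x = 0 := by
    intro x hx
    have : x ∉ tsupport (fderiv ℝ k) := fun h => hx ((tsupport_mul_subset_left
      (f := ζ) (g := fun x => ζ x * pd i v x)) (tsupport_fderiv_subset ℝ h))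
    unfold pd
    rw [image_eq_zero_of_notMem_tsupport this]
    rfl
  have e2 : ∫ x in K, (ζ x * pd i v x) ^ 2 = ∫ x, k x * pd i v x := by
    rw [setIntegral_eq_integral_of_forall_compl_eq_zero]
    · refine integral_congr_ae (Eventually.of_forall fun x => ?_)
      show (ζ x * pd i v x) ^ 2 = ζ x * (ζ x * pd i v x) * pd i v x
      ring
    · intro x hx
      rw [hz0 x hx, zero_mul]
      norm_num
  have e3 : ∫ x, pd i k x * v x = ∫ x in K, pd i k x * v x := by
    rw [setIntegral_eq_integral_of_forall_compl_eq_zero]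
    intro x hx
    rw [hdk0 x hx, zero_mul]
  have e4 : ∀ x, pd i k x = 2 * pd i ζ x * (ζ x * pd i v x) + ζ x ^ 2 * pd i (pd i v) x := by
    intro x
    have d1 : DifferentiableAt ℝ ζ x := hζ.smooth.differentiable (by simp) x
    have d2 : DifferentiableAt ℝ (pd i v) x := hg.differentiable (by simp) x
    have h1 : pd i k x = ζ x * pd i (fun y => ζ y * pd i v y) x + ζ x * pd i v x * pd i ζ x :=
      pd_mul d1 (d1.mul d2)
    have h2 : pd i (fun y => ζ y * pd i v y) x = ζ x * pd i (pd i v) x + pd i v x * pd i ζ x :=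
      pd_mul d1 d2
    rw [h1, h2]
    ring
  have m1 : MemLp (fun _ : E3 => (1 : ℝ)) 2 (volume.restrict K) :=
    MBAD.memLp_cont hKc continuous_const
  have m2 : MemLp (fun x => ζ x * pd i v x) 2 (volume.restrict K) :=
    MBAD.memLp_cont hKc (hζ.smooth.continuous.mul hg.continuous)
  have m3 : MemLp (fun x => ζ x ^ 2 * pd i (pd i v) x) 2 (volume.restrict K) :=
    MBAD.memLp_cont hKc ((hζ.smooth.continuous.pow 2).mul hgg.continuous)
  obtain ⟨j2, c2⟩ := MBAD.cs m1 m2
  obtain ⟨j3, c3⟩ := MBAD.cs m1 m3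
  rw [e2, e1, e3]
  have hpt : ∀ x ∈ K, |pd i k x * v x| ≤
      T * (2 * Z * |1 * (ζ x * pd i v x)| + |1 * (ζ x ^ 2 * pd i (pd i v) x)|) := by
    intro x hx
    rw [abs_mul, mul_comm, one_mul, one_mul]
    refine mul_le_mul (hT x hx) ?_ (abs_nonneg _) hT0
    rw [e4]
    refine (abs_add_le _ _).trans (add_le_add_left ?_ _)
    rw [abs_mul, abs_mul, abs_of_pos (by norm_num : (0 : ℝ) < 2)]
    exact mul_le_mul_of_nonneg_right (mul_le_mul_of_nonneg_left (hZ i x) (by norm_num))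
      (abs_nonneg _)
  have hb : Integrable (fun x => T * (2 * Z * |1 * (ζ x * pd i v x)| +
      |1 * (ζ x ^ 2 * pd i (pd i v) x)|)) (volume.restrict K) :=
    ((j2.abs.const_mul _).add j3.abs).const_mul _
  calc -∫ x in K, pd i k x * v x ≤ |∫ x in K, pd i k x * v x| := neg_le_abs _
    _ ≤ ∫ x in K, |pd i k x * v x| := abs_integral_le_integral_abs
    _ ≤ ∫ x in K, T * (2 * Z * |1 * (ζ x * pd i v x)| + |1 * (ζ x ^ 2 * pd i (pd i v) x)|) := by
        refine integral_mono_ae i1.abs.integrableOn hb ?_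
        filter_upwards [ae_restrict_mem hKc.measurableSet] with x hx
        exact hpt x hx
    _ = T * (2 * Z * (∫ x in K, |1 * (ζ x * pd i v x)|) +
          ∫ x in K, |1 * (ζ x ^ 2 * pd i (pd i v) x)|) := by
        rw [integral_const_mul, integral_add (j2.abs.const_mul _) j3.abs, integral_const_mul]
    _ ≤ _ := by
        refine mul_le_mul_of_nonneg_left ?_ hT0
        have h1 := mul_le_mul_of_nonneg_left c2 (by positivity : 0 ≤ 2 * Z)
        have h2 : MBAD.N (volume.restrict K) (fun _ => 1) *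
            (2 * Z * MBAD.N (volume.restrict K) (fun x => ζ x * pd i v x) +
              MBAD.N (volume.restrict K) (fun x => ζ x ^ 2 * pd i (pd i v) x)) =
            2 * Z * (MBAD.N (volume.restrict K) (fun _ => 1) *
              MBAD.N (volume.restrict K) (fun x => ζ x * pd i v x)) +
            MBAD.N (volume.restrict K) (fun _ => 1) *
              MBAD.N (volume.restrict K) (fun x => ζ x ^ 2 * pd i (pd i v) x) := by
          ring
        rw [h2]
        exact add_le_add h1 c3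

theorem measurable_ann (a b : ℝ) : MeasurableSet (Ann a b) :=
  ((isOpen_lt continuous_const continuous_norm).inter
    (isOpen_lt continuous_norm continuous_const)).measurableSet

theorem sq_vsz (p : Cov) : vsz p ^ 2 = ∑ i, p i ^ 2 :=
  Real.sq_sqrt (Finset.sum_nonneg fun _ _ => sq_nonneg _)

theorem sq_msz (M : Bil) : msz M ^ 2 = ∑ i, ∑ j, M i j ^ 2 :=
  Real.sq_sqrt (Finset.sum_nonneg fun _ _ => Finset.sum_nonneg fun _ _ => sq_nonneg _)

end HXCaux

/-- The first derivatives are controlled by the second ones. -/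
theorem HXC : Stmt_HXC := by
  intro S ζ hS hζ
  set K := tsupport ζ with hK
  have hKc : IsCompact K := hζ.compact
  have hz0 : ∀ x, x ∉ K → ζ x = 0 := fun x hx => image_eq_zero_of_notMem_tsupport hx
  obtain ⟨Z, hZ⟩ : ∃ Z : ℝ, ∀ (i : Fin 3) (x : E3), |pd i ζ x| ≤ Z := by
    have h1 : ∀ i : Fin 3, ∃ Z : ℝ, ∀ x : E3, |pd i ζ x| ≤ Z := by
      intro i
      have hc : Continuous (pd i ζ) := (MBAD.contDiff_pd hζ.smooth i).continuous
      have hcs : HasCompactSupport (pd i ζ) := hζ.compact.fderiv_apply ℝ _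
      exact hc.bounded_above_of_compact_support hcs
    choose Z hZ using h1
    refine ⟨∑ i, |Z i|, fun i x => (hZ i x).trans ((le_abs_self _).trans ?_)⟩
    exact Finset.single_le_sum (f := fun i => |Z i|) (fun _ _ => abs_nonneg _) (Finset.mem_univ i)
  have hZ0 : 0 ≤ Z := (abs_nonneg _).trans (hZ 0 0)
  set V := MBAD.N (volume.restrict K) (fun _ => 1) with hV
  have hV0 : 0 ≤ V := MBAD.N_nonneg _
  refine ⟨(S + 1) * ((V + 1) * (6 * Z + 3)), by positivity, ?_⟩
  intro u G M h hu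
  have hsub : K ⊆ Ann (1 / 2) 2 := hζ.supp
  have hG := h.memG K hKc hsub
  have hM := h.memM K hKc hsub
  obtain ⟨v, hv, hunif, hGt, hMt⟩ := h.approx K hKc hsub
  have hAm := HXCaux.measurable_ann (1 / 2) 2
  have hζ1 : ∀ x, |ζ x| ≤ 1 := fun x => by
    rw [abs_of_nonneg (hζ.nonneg x)]
    exact hζ.le_one x
  have hζ2 : ∀ x, |ζ x ^ 2| ≤ 1 := fun x => by
    rw [abs_pow]
    exact pow_le_one₀ (abs_nonneg _) (hζ1 x)
  have hcm : AEStronglyMeasurable ζ (volume.restrict K) :=
    hζ.smooth.continuous.aestronglyMeasurable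
  have hcm2 : AEStronglyMeasurable (fun x => ζ x ^ 2) (volume.restrict K) :=
    (hζ.smooth.continuous.pow 2).aestronglyMeasurable
  have hm : ∀ {c φ : E3 → ℝ}, AEStronglyMeasurable c (volume.restrict K) → (∀ x, |c x| ≤ 1) →
      MemLp φ 2 (volume.restrict K) → MemLp (fun x => c x * φ x) 2 (volume.restrict K) := by
    intro c φ hc hc1 hφ
    refine hφ.mono (hc.mul hφ.1) (Eventually.of_forall fun x => ?_)
    rw [norm_mul]
    exact mul_le_of_le_one_left (norm_nonneg _) (hc1 x)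
  have i1 : ∀ i, IntegrableOn (fun x => (ζ x * G x i) ^ 2) K := fun i =>
    (hm hcm hζ1 (hG i)).integrable_sq
  have i2 : ∀ i j, IntegrableOn (fun x => (ζ x ^ 2 * M x i j) ^ 2) K := fun i j =>
    (hm hcm2 hζ2 (hM i j)).integrable_sq
  have eA : (fun x => ζ x ^ 2 * vsz (G x) ^ 2) = fun x => ∑ i, (ζ x * G x i) ^ 2 := by
    funext x
    rw [HXCaux.sq_vsz, Finset.mul_sum]
    exact Finset.sum_congr rfl fun i _ => by ring
  have eB : (fun x => ζ x ^ 4 * msz (M x) ^ 2) = fun x => ∑ i, ∑ j, (ζ x ^ 2 * M x i j) ^ 2 := by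
    funext x
    rw [HXCaux.sq_msz, Finset.mul_sum]
    refine Finset.sum_congr rfl fun i _ => ?_
    rw [Finset.mul_sum]
    exact Finset.sum_congr rfl fun j _ => by ring
  have zA : ∀ x ∈ Ann (1 / 2) 2 \ K, ∑ i, (ζ x * G x i) ^ 2 = 0 := by
    intro x hx
    refine Finset.sum_eq_zero fun i _ => ?_
    rw [hz0 x hx.2, zero_mul]
    norm_num
  have zB : ∀ x ∈ Ann (1 / 2) 2 \ K, ∑ i, ∑ j, (ζ x ^ 2 * M x i j) ^ 2 = 0 := by
    intro x hx
    refine Finset.sum_eq_zero fun i _ => Finset.sum_eq_zero fun j _ => ?_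
    rw [hz0 x hx.2]
    norm_num
  have jA : IntegrableOn (fun x => ∑ i, (ζ x * G x i) ^ 2) K :=
    integrable_finsetSum _ fun i _ => i1 i
  have jB : IntegrableOn (fun x => ∑ i, ∑ j, (ζ x ^ 2 * M x i j) ^ 2) K :=
    integrable_finsetSum _ fun i _ => integrable_finsetSum _ fun j _ => i2 i j
  have intA : ∫ x in Ann (1 / 2) 2, ∑ i, (ζ x * G x i) ^ 2 = ∑ i, ∫ x in K, (ζ x * G x i) ^ 2 := by
    rw [setIntegral_eq_of_subset_of_forall_diff_eq_zero hAm hsub zA]
    exact integral_finsetSum _ fun i _ => i1 i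
  have intB : ∫ x in Ann (1 / 2) 2, ∑ i, ∑ j, (ζ x ^ 2 * M x i j) ^ 2 =
      ∑ i, ∑ j, ∫ x in K, (ζ x ^ 2 * M x i j) ^ 2 := by
    rw [setIntegral_eq_of_subset_of_forall_diff_eq_zero hAm hsub zB]
    rw [integral_finsetSum _ fun i _ => integrable_finsetSum _ fun j _ => i2 i j]
    exact Finset.sum_congr rfl fun i _ => integral_finsetSum _ fun j _ => i2 i j
  refine ⟨?_, ?_, ?_⟩
  · rw [eA]
    exact jA.of_forall_diff_eq_zero hAm zA
  · rw [eB]
    exact jB.of_forall_diff_eq_zero hAm zB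
  rw [eA, eB, intA, intB]
  -- the sequences
  set a : ℕ → ℝ := fun n => ∑ i, ∫ x in K, (ζ x * pd i (v n) x) ^ 2 with ha
  set b : ℕ → ℝ := fun n => ∑ i, ∑ j, ∫ x in K, (ζ x ^ 2 * pd i (pd j (v n)) x) ^ 2 with hb
  have mG : ∀ n i, MemLp (pd i (v n)) 2 (volume.restrict K) := fun n i =>
    MBAD.memLp_cont hKc (MBAD.contDiff_pd (hv n) i).continuous
  have mM : ∀ n i j, MemLp (pd i (pd j (v n))) 2 (volume.restrict K) := fun n i j =>
    MBAD.memLp_cont hKc (MBAD.contDiff_pd (MBAD.contDiff_pd (hv n) j) i).continuous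
  have ta : Tendsto a atTop (𝓝 (∑ i, ∫ x in K, (ζ x * G x i) ^ 2)) :=
    tendsto_finsetSum _ fun i _ =>
      HXCaux.tendsto_wsq hcm hζ1 (fun n => mG n i) (hG i) (hGt i)
  have tb : Tendsto b atTop (𝓝 (∑ i, ∑ j, ∫ x in K, (ζ x ^ 2 * M x i j) ^ 2)) :=
    tendsto_finsetSum _ fun i _ => tendsto_finsetSum _ fun j _ =>
      HXCaux.tendsto_wsq hcm2 hζ2 (fun n => mM n i j) (hM i j) (hMt i j)
  have tsa := (Real.continuous_sqrt.tendsto _).comp ta
  have tsb := (Real.continuous_sqrt.tendsto _).comp tb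
  refine le_of_tendsto_of_tendsto ta ((tsb.add tsa).const_mul _) ?_
  have hev : ∀ᶠ n in atTop, ∀ x ∈ K, dist (u x) (v n x) < 1 :=
    Metric.tendstoUniformlyOn_iff.1 hunif 1 one_pos
  filter_upwards [hev] with n hn
  have hT : ∀ x ∈ K, |v n x| ≤ S + 1 := by
    intro x hx
    have h1 := hn x hx
    have h2 := hu x (hsub hx)
    rw [Real.dist_eq] at h1
    have h3 : |v n x| ≤ |u x| + |u x - v n x| := by
      have := abs_sub_abs_le_abs_sub (v n x) (u x)
      rw [abs_sub_comm (v n x)] at this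
      linarith
    linarith
  have key : ∀ i : Fin 3, ∫ x in K, (ζ x * pd i (v n) x) ^ 2 ≤
      (S + 1) * (V * (2 * Z * Real.sqrt (a n) + Real.sqrt (b n))) := by
    intro i
    refine (HXCaux.smooth_est hζ (hv n) (by positivity) hT hZ i).trans ?_
    rw [HXCaux.N_eq (hm hcm hζ1 (mG n i)), HXCaux.N_eq (hm hcm2 hζ2 (mM n i i))]
    have h1 : Real.sqrt (∫ x in K, (ζ x * pd i (v n) x) ^ 2) ≤ Real.sqrt (a n) :=
      Real.sqrt_le_sqrt (Finset.single_le_sum
        (f := fun i => ∫ x in K, (ζ x * pd i (v n) x) ^ 2)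
        (fun _ _ => integral_nonneg fun _ => sq_nonneg _) (Finset.mem_univ i))
    have h2 : Real.sqrt (∫ x in K, (ζ x ^ 2 * pd i (pd i (v n)) x) ^ 2) ≤ Real.sqrt (b n) := by
      refine Real.sqrt_le_sqrt (le_trans ?_ (Finset.single_le_sum
        (f := fun i => ∑ j, ∫ x in K, (ζ x ^ 2 * pd i (pd j (v n)) x) ^ 2)
        (fun _ _ => Finset.sum_nonneg fun _ _ => integral_nonneg fun _ => sq_nonneg _)
        (Finset.mem_univ i)))
      exact Finset.single_le_sum
        (f := fun j => ∫ x in K, (ζ x ^ 2 * pd i (pd j (v n)) x) ^ 2)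
        (fun _ _ => integral_nonneg fun _ => sq_nonneg _) (Finset.mem_univ i)
    refine mul_le_mul_of_nonneg_left ?_ (by positivity)
    refine mul_le_mul_of_nonneg_left ?_ hV0
    exact add_le_add (mul_le_mul_of_nonneg_left h1 (by positivity)) h2
  have hsum : a n ≤ 3 * ((S + 1) * (V * (2 * Z * Real.sqrt (a n) + Real.sqrt (b n)))) := by
    have := Finset.sum_le_sum fun (i : Fin 3) (_ : i ∈ Finset.univ) => key i
    rw [Finset.sum_const, Finset.card_univ, Fintype.card_fin, nsmul_eq_mul] at this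
    exact_mod_cast this
  refine hsum.trans ?_
  have s1 : 0 ≤ Real.sqrt (a n) := Real.sqrt_nonneg _
  have s2 : 0 ≤ Real.sqrt (b n) := Real.sqrt_nonneg _
  show _ ≤ (S + 1) * ((V + 1) * (6 * Z + 3)) * (Real.sqrt (b n) + Real.sqrt (a n))
  have e : (S + 1) * ((V + 1) * (6 * Z + 3)) * (Real.sqrt (b n) + Real.sqrt (a n)) -
      3 * ((S + 1) * (V * (2 * Z * Real.sqrt (a n) + Real.sqrt (b n)))) =
      (S + 1) * ((6 * Z + 3) * (Real.sqrt (b n) + Real.sqrt (a n)) +
        V * (6 * Z * Real.sqrt (b n) + 3 * Real.sqrt (a n))) := by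
    ring
  have h0 : 0 ≤ (S + 1) * ((6 * Z + 3) * (Real.sqrt (b n) + Real.sqrt (a n)) +
        V * (6 * Z * Real.sqrt (b n) + 3 * Real.sqrt (a n))) := by positivity
  linarith

end Pool.Agent.PFlow.HX
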