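import Pool.Agent.PFlow.StmtsHX

/-!
# HXCUT: a cut-off function near the unit sphere
-/

open MeasureTheory Filter Topology
open scoped ContDiff ENNReal

namespace Pool.Agent.PFlow.HX

open Pool.Agent.PenroseSph Pool.Agent.PFlow

theorem HXCUT : Stmt_HXCUT := by
  set ζ : E3 → ℝ := fun x => Real.smoothTransition (5 * (‖x‖ ^ 2 - 1 / 3)) *
    Real.smoothTransition (3 - ‖x‖ ^ 2) with hζ
  have hsm : ContDiff ℝ ∞ ζ := by
    have h1 : ContDiff ℝ ∞ (fun x : E3 => ‖x‖ ^ 2) := contDiff_norm_sq ℝ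
    exact (Real.smoothTransition.contDiff.comp (contDiff_const.mul (h1.sub contDiff_const))).mul
      (Real.smoothTransition.contDiff.comp (contDiff_const.sub h1))
  have hsub : Function.support ζ ⊆ {x : E3 | 1 / 3 ≤ ‖x‖ ^ 2 ∧ ‖x‖ ^ 2 ≤ 3} := by
    intro x hx
    rw [Function.mem_support] at hx
    constructor
    · by_contra hc
      apply hx
      rw [hζ]
      simp only
      rw [Real.smoothTransition.zero_of_nonpos (by linarith [not_le.mp hc]), zero_mul]
    · by_contra hc
      apply hx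
      rw [hζ]
      simp only
      rw [Real.smoothTransition.zero_of_nonpos (x := 3 - ‖x‖ ^ 2) (by linarith [not_le.mp hc]),
        mul_zero]
  have hcl : IsClosed {x : E3 | 1 / 3 ≤ ‖x‖ ^ 2 ∧ ‖x‖ ^ 2 ≤ 3} :=
    (isClosed_le continuous_const (continuous_norm.pow 2)).inter
      (isClosed_le (continuous_norm.pow 2) continuous_const)
  have hts : tsupport ζ ⊆ {x : E3 | 1 / 3 ≤ ‖x‖ ^ 2 ∧ ‖x‖ ^ 2 ≤ 3} := closure_minimal hsub hcl
  refine ⟨ζ, ⟨hsm, ?_, ?_, ?_, ?_⟩, ?_⟩
  · refine IsCompact.of_isClosed_subset (isCompact_closedBall (0 : E3) 2) (isClosed_tsupport ζ) ?_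
    intro x hx
    have h1 := (hts hx).2
    rw [mem_closedBall_zero_iff]
    nlinarith [norm_nonneg x]
  · intro x hx
    have h1 := hts hx
    refine ⟨?_, ?_⟩
    · nlinarith [norm_nonneg x, h1.1]
    · nlinarith [norm_nonneg x, h1.2]
  · intro x
    exact mul_nonneg (Real.smoothTransition.nonneg _) (Real.smoothTransition.nonneg _)
  · intro x
    exact mul_le_one₀ (Real.smoothTransition.le_one _) (Real.smoothTransition.nonneg _)
      (Real.smoothTransition.le_one _)
  · intro x hx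
    have h1 : (3 : ℝ) / 4 ≤ ‖x‖ := hx.1
    have h2 : ‖x‖ ≤ 4 / 3 := hx.2
    rw [hζ]
    simp only
    rw [Real.smoothTransition.one_of_one_le (by nlinarith), Real.smoothTransition.one_of_one_le
      (by nlinarith), one_mul]

end Pool.Agent.PFlow.HX
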