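import Pool.Agent.PFlow.StmtsHX

/-!
# HXLEV: the levels of `u` close to the boundary level `1`
-/

open MeasureTheory Filter Topology

namespace Pool.Agent.PFlow.HX

open Pool.Agent.PenroseSph

private theorem norm_inv' (x : E3) : ‖inversion x‖ = ‖x‖⁻¹ := by
  unfold inversion
  rw [norm_smul, Real.norm_eq_abs, abs_of_nonneg (by positivity)]
  rcases eq_or_ne ‖x‖ 0 with h | h
  · simp [h]
  · field_simp

private theorem inv_eq' (x : E3) (hx : ‖x‖ = 1) : inversion x = x := by
  unfold inversion
  rw [hx]
  simp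

/-- HXLEV: levels close to the boundary level. -/
theorem HXLEV : Stmt_HXLEV := by
  intro ε R c s₁ g h u G M hε hε2 hR hc hs hS hpos hlt hup hr
  obtain ⟨r, hr1, hrR, hr⟩ := hr
  have hw : ∀ x ∈ Ann (1 / 2) R, (0 < wOf ε u x ↔ u x < 1) := by
    intro x hx
    unfold wOf
    have hu := hpos x hx
    constructor
    · intro h0
      by_contra hge
      have hge' : 1 ≤ u x := not_lt.1 hge
      have h1 : 0 ≤ Real.log (u x) := Real.log_nonneg hge'
      nlinarith
    · intro h1
      have h2 : Real.log (u x) < 0 := Real.log_neg hu h1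
      nlinarith
  have hone : ∀ x : E3, ‖x‖ = 1 → u x = 1 := by
    intro x hx
    have h1 := hS.refl x ⟨by rw [hx]; norm_num, by rw [hx]; norm_num⟩
    rw [inv_eq' x hx] at h1
    linarith
  have hin : ∀ x : E3, 1 / 2 < ‖x‖ → ‖x‖ < 1 → 1 < u x := by
    intro x h1 h2
    have hx := hS.refl x ⟨h1, by linarith⟩
    have h3 : 1 < ‖inversion x‖ := by
      rw [norm_inv']
      exact (one_lt_inv₀ (by linarith)).2 h2
    have h4 : ‖inversion x‖ < R := by
      rw [norm_inv']
      have h5 : ‖x‖⁻¹ < 2 := by
        rw [inv_lt_comm₀ (by linarith) (by norm_num)]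
        linarith
      linarith
    have h6 := hlt _ h3 h4
    linarith
  have hA : ∀ x ∈ Ann (1 / 2) R, (u x < 1 ↔ 1 < ‖x‖) := by
    intro x hx
    constructor
    · intro h1
      by_contra h2
      rcases lt_or_eq_of_le (not_lt.1 h2) with h3 | h3
      · have h4 := hin x hx.1 h3
        linarith
      · have h4 := hone x h3
        linarith
    · intro h1
      exact hlt x h1 hx.2
  have hB : ∀ x ∈ Ann (1 / 2) R, (u x = 1 ↔ ‖x‖ = 1) := by
    intro x hx
    constructor
    · intro h1
      rcases lt_trichotomy ‖x‖ 1 with h3 | h3 | h3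
      · have h4 := hin x hx.1 h3
        linarith
      · exact h3
      · have h4 := hlt x h3 hx.2
        linarith
    · intro h1
      exact hone x h1
  refine ⟨fun x hx => ⟨hA x hx, hB x hx, (hw x hx).trans (hA x hx)⟩, ?_⟩
  set e₁ : ℝ := Real.exp (-(s₁ / ε)) with he₁
  have he1 : e₁ < 1 := by
    rw [he₁]
    have : 0 < s₁ / ε := div_pos hs hε
    exact Real.exp_lt_one_iff.2 (by linarith)
  -- far away
  have hfar : ∀ x : E3, r ≤ ‖x‖ → ‖x‖ < R → u x ≤ e₁ := by
    intro x h1 h2
    have hx : x ∈ Ann (1 / 2) R := ⟨by linarith, h2⟩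
    have h3 := hr x h1 h2
    unfold wOf at h3
    have hu := hpos x hx
    have h4 : Real.log (u x) < -(s₁ / ε) := by
      have h5 : s₁ / ε < -Real.log (u x) := by
        rw [div_lt_iff₀ hε]
        linarith
      linarith
    have h6 := (Real.log_lt_iff_lt_exp hu).1 h4
    exact h6.le
  -- the sphere of radius 3/2
  have hmid : ∀ x : E3, ‖x‖ = 3 / 2 → u x ≤ 1 - c := by
    intro x hx
    have h1 := hS.refl x ⟨by rw [hx]; norm_num, by rw [hx]; norm_num⟩
    have h2 : ‖inversion x‖ = 2 / 3 := by
      rw [norm_inv', hx]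
      norm_num
    have h3 := hup (inversion x) (by rw [h2]; norm_num) (by rw [h2])
    linarith
  obtain ⟨R', hR'1, hR'2⟩ := exists_between (max_lt hrR (by linarith : (2 : ℝ) < R))
  have hR'r : r < R' := lt_of_le_of_lt (le_max_left _ _) hR'1
  have hR'2' : 2 < R' := lt_of_le_of_lt (le_max_right _ _) hR'1
  have hout : ∀ x : E3, 3 / 2 < ‖x‖ → ‖x‖ < R → u x ≤ max (1 - c) e₁ := by
    intro x h1 h2
    by_cases h3 : r ≤ ‖x‖
    · exact (hfar x h3 h2).trans (le_max_right _ _)
    · have h3' : ‖x‖ < r := not_le.1 h3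
      have hcont : Continuous (fun y : E3 => ‖y‖) := continuous_norm
      have hDo : IsOpen (Ann (3 / 2) R') := by
        have : Ann (3 / 2) R' = {y : E3 | 3 / 2 < ‖y‖} ∩ {y : E3 | ‖y‖ < R'} := by
          ext y
          rfl
        rw [this]
        exact (isOpen_lt continuous_const hcont).inter (isOpen_lt hcont continuous_const)
      have hCc : IsClosed (cAnn (3 / 2) R') := by
        have : cAnn (3 / 2) R' = {y : E3 | 3 / 2 ≤ ‖y‖} ∩ {y : E3 | ‖y‖ ≤ R'} := by
          ext y
          rfl
        rw [this]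
        exact (isClosed_le continuous_const hcont).inter (isClosed_le hcont continuous_const)
      have hcl : closure (Ann (3 / 2) R') ⊆ cAnn (3 / 2) R' :=
        closure_minimal (fun y hy => ⟨hy.1.le, hy.2.le⟩) hCc
      have hcc : IsCompact (closure (Ann (3 / 2) R')) := by
        apply (isCompact_closedBall (0 : E3) R').of_isClosed_subset isClosed_closure
        intro y hy
        have := hcl hy
        rw [mem_closedBall_zero_iff]
        exact this.2
      have hsub : closure (Ann (3 / 2) R') ⊆ Ann (1 / 2) R := by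
        intro y hy
        have := hcl hy
        exact ⟨by linarith [this.1], by linarith [this.2]⟩
      obtain ⟨⟨y, hy, hxy⟩, -⟩ := hS.noIsland _ hDo hcc hsub x ⟨h1, h3'.trans hR'r⟩
      have hy1 : y ∈ cAnn (3 / 2) R' := hcl hy.1
      have hy2 : y ∉ Ann (3 / 2) R' := by
        have := hy.2
        rwa [hDo.interior_eq] at this
      rcases lt_or_eq_of_le hy1.1 with h4 | h4
      · have h5 : R' ≤ ‖y‖ := by
          by_contra h6
          exact hy2 ⟨h4, not_le.1 h6⟩
        have h6 := hfar y (by linarith) (by linarith [hy1.2])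
        exact (hxy.trans h6).trans (le_max_right _ _)
      · exact (hxy.trans (hmid y h4.symm)).trans (le_max_left _ _)
  refine ⟨min (min c (1 - e₁)) 1 / 2, ?_, ?_, ?_⟩
  · have : 0 < min (min c (1 - e₁)) 1 := lt_min (lt_min hc (by linarith)) one_pos
    linarith
  · have : min (min c (1 - e₁)) 1 ≤ 1 := min_le_right _ _
    linarith
  · intro x hx hux
    have hm0 : 0 < min (min c (1 - e₁)) 1 := lt_min (lt_min hc (by linarith)) one_pos
    have hm1 : min (min c (1 - e₁)) 1 ≤ c := (min_le_left _ _).trans (min_le_left _ _)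
    have hm2 : min (min c (1 - e₁)) 1 ≤ 1 - e₁ := (min_le_left _ _).trans (min_le_right _ _)
    have habs := abs_le.1 hux
    constructor
    · by_contra h1
      have h2 := hup x hx.1 (not_le.1 h1).le
      linarith [habs.2]
    · by_contra h1
      have h2 := hout x (not_le.1 h1) hx.2
      rcases le_max_iff.1 h2 with h3 | h3
      · linarith [habs.1]
      · linarith [habs.1]

end Pool.Agent.PFlow.HX
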