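import Pool.Agent.PFlow.StmtsHX

/-!
# HXRAY: estimates in the collar for smooth functions equal to `1` on the sphere
-/

open MeasureTheory Filter Topology
open scoped ContDiff ENNReal

namespace Pool.Agent.PFlow.HX.HXRAYaux

open Pool.Agent.PenroseSph Pool.Agent.PFlow

theorem fderiv_sum (f : E3 → ℝ) (x t : E3) : fderiv ℝ f x t = ∑ i, t i * pd i f x := by
  have h1 : t = ∑ i, t i • EuclideanSpace.single i (1 : ℝ) := by
    ext j
    simp [Fin.sum_univ_three]
    fin_cases j <;> simp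
  conv_lhs => rw [h1]
  rw [map_sum]
  refine Finset.sum_congr rfl fun i _ => ?_
  rw [map_smul, smul_eq_mul]
  rfl

theorem pd_contDiff {v : E3 → ℝ} (hv : ContDiff ℝ ∞ v) (i : Fin 3) : ContDiff ℝ ∞ (pd i v) := by
  unfold pd
  exact (hv.fderiv_right (m := ∞) (by simp)).clm_apply contDiff_const

theorem hess_cont {v : E3 → ℝ} (hv : ContDiff ℝ ∞ v) :
    Continuous (fun x => msz (hess2 v x)) := by
  unfold msz
  refine Real.continuous_sqrt.comp ?_
  refine continuous_finsetSum _ fun i _ => continuous_finsetSum _ fun j _ => ?_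
  exact ((pd_contDiff (pd_contDiff hv j) i).continuous).pow 2

theorem msz_nonneg (M : Bil) : 0 ≤ msz M := Real.sqrt_nonneg _

theorem norm_sq (x : E3) : ‖x‖ ^ 2 = ∑ i, x i ^ 2 := by
  rw [EuclideanSpace.norm_sq_eq]
  simp

/-- Cauchy-Schwarz. -/
theorem bil_le (M : Bil) (p q : Cov) :
    ∑ i, p i * ∑ j, q j * M j i ≤ vsz p * vsz q * msz M := by
  have h1 : ∑ i, p i * ∑ j, q j * M j i = ∑ x : Fin 3 × Fin 3, (p x.1 * q x.2) * M x.2 x.1 := by
    rw [Fintype.sum_prod_type]
    refine Finset.sum_congr rfl fun i _ => ?_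
    rw [Finset.mul_sum]
    refine Finset.sum_congr rfl fun j _ => ?_
    ring
  have h2 : (∑ x : Fin 3 × Fin 3, (p x.1 * q x.2) * M x.2 x.1) ^ 2 ≤
      (∑ x : Fin 3 × Fin 3, (p x.1 * q x.2) ^ 2) * ∑ x : Fin 3 × Fin 3, M x.2 x.1 ^ 2 :=
    Finset.sum_mul_sq_le_sq_mul_sq _ _ _
  have h3 : ∑ x : Fin 3 × Fin 3, (p x.1 * q x.2) ^ 2 = (∑ i, p i ^ 2) * ∑ j, q j ^ 2 := by
    rw [Fintype.sum_prod_type, Finset.sum_mul_sum]
    refine Finset.sum_congr rfl fun i _ => Finset.sum_congr rfl fun j _ => ?_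
    ring
  have h4 : ∑ x : Fin 3 × Fin 3, M x.2 x.1 ^ 2 = ∑ i, ∑ j, M i j ^ 2 := by
    rw [Fintype.sum_prod_type, Finset.sum_comm]
  rw [h1]
  unfold vsz msz
  rw [← Real.sqrt_mul (Finset.sum_nonneg fun _ _ => sq_nonneg _),
    ← Real.sqrt_mul (mul_nonneg (Finset.sum_nonneg fun _ _ => sq_nonneg _)
      (Finset.sum_nonneg fun _ _ => sq_nonneg _))]
  rw [h3, h4] at h2
  exact Real.le_sqrt_of_sq_le h2

/-- The derivative of a smooth function along a ray. -/
theorem line_deriv {f : E3 → ℝ} (hf : ContDiff ℝ ∞ f) (x : E3) (s : ℝ) :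
    HasDerivAt (fun s : ℝ => f (s • x)) (∑ j, x j * pd j f (s • x)) s := by
  have h1 : HasFDerivAt f (fderiv ℝ f (s • x)) (s • x) :=
    ((hf.differentiable (by simp)).differentiableAt).hasFDerivAt
  have h2 : HasDerivAt (fun s : ℝ => s • x) x s := by
    simpa using (hasDerivAt_id s).smul_const x
  have h3 := h1.comp_hasDerivAt s h2
  rw [fderiv_sum] at h3
  exact h3

theorem ray_cont {v : E3 → ℝ} (hv : ContDiff ℝ ∞ v) (x : E3) :
    Continuous (fun s : ℝ => ‖x‖ * msz (hess2 v (s • x))) := by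
  refine continuous_const.mul ((hess_cont hv).comp ?_)
  exact continuous_id.smul continuous_const

/-- The basic estimate along a ray. -/
theorem ray {v : E3 → ℝ} (hv : ContDiff ℝ ∞ v) (x : E3) (n : Cov) (hn : vsz n ≤ 1) {a : ℝ}
    (ha : a ≤ 1) :
    ∑ i, n i * pd i v x ≤ (∑ i, n i * pd i v (a • x)) +
      ∫ s in a..1, ‖x‖ * msz (hess2 v (s • x)) := by
  have hvx : vsz (fun i => x i) = ‖x‖ := by
    unfold vsz
    rw [← norm_sq, Real.sqrt_sq (norm_nonneg x)]
  have h1 : ∀ s : ℝ, HasDerivAt (fun s : ℝ => ∑ i, n i * pd i v (s • x))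
      (∑ i, n i * ∑ j, x j * pd j (pd i v) (s • x)) s := by
    intro s
    have h2 := HasDerivAt.fun_sum (u := Finset.univ)
      (A := fun (i : Fin 3) (s : ℝ) => n i * pd i v (s • x))
      (A' := fun i => n i * ∑ j, x j * pd j (pd i v) (s • x)) (x := s)
      (fun i _ => (line_deriv (pd_contDiff hv i) x s).const_mul (n i))
    exact h2
  have hc : Continuous (fun s : ℝ => ∑ i, n i * ∑ j, x j * pd j (pd i v) (s • x)) := by
    refine continuous_finsetSum _ fun i _ => continuous_const.mul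
      (continuous_finsetSum _ fun j _ => continuous_const.mul ?_)
    exact (pd_contDiff (pd_contDiff hv i) j).continuous.comp (continuous_id.smul continuous_const)
  have h3 := intervalIntegral.integral_eq_sub_of_hasDerivAt (a := a) (b := 1)
    (fun s _ => h1 s) (hc.intervalIntegrable _ _)
  have h4 : ∫ s in a..1, (∑ i, n i * ∑ j, x j * pd j (pd i v) (s • x)) ≤
      ∫ s in a..1, ‖x‖ * msz (hess2 v (s • x)) := by
    refine intervalIntegral.integral_mono_on ha (hc.intervalIntegrable _ _)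
      ((ray_cont hv x).intervalIntegrable _ _) fun s _ => ?_
    have h5 := bil_le (hess2 v (s • x)) n (fun i => x i)
    rw [hvx] at h5
    have h6 : ∑ i, n i * ∑ j, x j * pd j (pd i v) (s • x) =
        ∑ i, n i * ∑ j, (fun i => x i) j * hess2 v (s • x) j i := rfl
    rw [h6]
    refine h5.trans ?_
    have h7 : 0 ≤ ‖x‖ * msz (hess2 v (s • x)) := mul_nonneg (norm_nonneg _) (msz_nonneg _)
    nlinarith
  simp only [one_smul] at h3
  linarith

/-- The tangential derivatives vanish on the unit sphere. -/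
theorem tan_zero {v : E3 → ℝ} (hv : ContDiff ℝ ∞ v) (h1 : ∀ x : E3, ‖x‖ = 1 → v x = 1)
    (w n : E3) (hw : ‖w‖ = 1) (hn : ∑ i, n i * w i = 0) : ∑ i, n i * pd i v w = 0 := by
  have hw2 : ∑ i, w i ^ 2 = 1 := by rw [← norm_sq, hw]; norm_num
  have hnorm : ∀ t : ℝ, ‖w + t • n‖ ^ 2 = 1 + t ^ 2 * ∑ i, n i ^ 2 := by
    intro t
    rw [norm_sq]
    have e : ∀ i, (w + t • n) i ^ 2 = w i ^ 2 + 2 * t * (n i * w i) + t ^ 2 * n i ^ 2 := by
      intro i
      simp only [PiLp.add_apply, PiLp.smul_apply, smul_eq_mul]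
      ring
    simp only [e, Finset.sum_add_distrib, ← Finset.mul_sum]
    rw [hw2, hn]
    ring
  set c : ℝ := ∑ i, n i ^ 2 with hc
  have hc0 : 0 ≤ c := Finset.sum_nonneg fun _ _ => sq_nonneg _
  have hpos : ∀ t : ℝ, 0 < 1 + t ^ 2 * c := fun t => by positivity
  have hsq : ∀ t : ℝ, ‖w + t • n‖ = Real.sqrt (1 + t ^ 2 * c) := by
    intro t
    rw [← hnorm t, Real.sqrt_sq (norm_nonneg _)]
  -- the curve
  have hd1 : HasDerivAt (fun t : ℝ => 1 + t ^ 2 * c) 0 0 := by
    have h2 := ((hasDerivAt_id (0 : ℝ)).pow 2).mul_const c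
    have h3 := h2.const_add 1
    simpa using h3
  have hd2 : HasDerivAt (fun t : ℝ => (Real.sqrt (1 + t ^ 2 * c))⁻¹) 0 0 := by
    have h2 := hd1.sqrt (by simp)
    have h3 : HasDerivAt (fun t : ℝ => (Real.sqrt (1 + t ^ 2 * c))⁻¹) _ 0 := h2.inv (by simp)
    exact h3.congr_deriv (by simp)
  have hd3 : HasDerivAt (fun t : ℝ => w + t • n) n 0 := by
    simpa using ((hasDerivAt_id (0 : ℝ)).smul_const n).const_add w
  have hd4 : HasDerivAt (fun t : ℝ => (Real.sqrt (1 + t ^ 2 * c))⁻¹ • (w + t • n)) n 0 := by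
    have h2 : HasDerivAt (fun t : ℝ => (Real.sqrt (1 + t ^ 2 * c))⁻¹ • (w + t • n)) _ 0 :=
      hd2.smul hd3
    exact h2.congr_deriv (by simp)
  have hv1 : HasFDerivAt v (fderiv ℝ v w) ((fun t : ℝ => (Real.sqrt (1 + t ^ 2 * c))⁻¹ •
      (w + t • n)) 0) := by
    have e : (fun t : ℝ => (Real.sqrt (1 + t ^ 2 * c))⁻¹ • (w + t • n)) 0 = w := by simp
    rw [e]
    exact ((hv.differentiable (by simp)).differentiableAt).hasFDerivAt
  have h5 := hv1.comp_hasDerivAt 0 hd4
  have h6 : (v ∘ fun t : ℝ => (Real.sqrt (1 + t ^ 2 * c))⁻¹ • (w + t • n)) = fun _ => 1 := by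
    funext t
    refine h1 _ ?_
    rw [norm_smul, hsq, Real.norm_eq_abs, abs_of_nonneg (inv_nonneg.2 (Real.sqrt_nonneg _))]
    exact inv_mul_cancel₀ (Real.sqrt_pos.2 (hpos t)).ne'
  rw [h6] at h5
  have h7 := h5.unique (hasDerivAt_const (0 : ℝ) (1 : ℝ))
  rw [fderiv_sum] at h7
  exact h7

theorem int_nonneg {v : E3 → ℝ} (x : E3) {a : ℝ} (ha : a ≤ 1) :
    0 ≤ ∫ s in a..1, ‖x‖ * msz (hess2 v (s • x)) :=
  intervalIntegral.integral_nonneg ha fun _ _ => mul_nonneg (norm_nonneg _) (msz_nonneg _)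

/-- The pointwise estimate of the tangential part. -/
theorem tan_le {v : E3 → ℝ} (hv : ContDiff ℝ ∞ v) (h1 : ∀ x : E3, ‖x‖ = 1 → v x = 1) (x : E3)
    (hx : 1 ≤ ‖x‖) : tanP x (grad v x) ≤ ∫ s in (1 / ‖x‖)..1, ‖x‖ * msz (hess2 v (s • x)) := by
  have hx0 : 0 < ‖x‖ := by linarith
  have ha : 1 / ‖x‖ ≤ 1 := by rw [div_le_one hx0]; exact hx
  set q : Cov := fun i => grad v x i - (∑ j, grad v x j * x j) / ‖x‖ ^ 2 * x i with hq
  change vsz q ≤ _
  rcases eq_or_ne (vsz q) 0 with h0 | h0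
  · rw [h0]
    exact int_nonneg x ha
  have hq0 : 0 < vsz q := lt_of_le_of_ne (Real.sqrt_nonneg _) (Ne.symm h0)
  have hqq : vsz q ^ 2 = ∑ i, q i ^ 2 := Real.sq_sqrt (Finset.sum_nonneg fun _ _ => sq_nonneg _)
  have hqx : ∑ i, q i * x i = 0 := by
    have e : ∀ i, q i * x i = grad v x i * x i - (∑ j, grad v x j * x j) / ‖x‖ ^ 2 * x i ^ 2 := by
      intro i
      rw [hq]
      ring
    simp only [e, Finset.sum_sub_distrib, ← Finset.mul_sum]
    rw [← norm_sq]
    field_simp
    ring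
  have hqp : ∑ i, q i * grad v x i = vsz q ^ 2 := by
    rw [hqq]
    have e : ∀ i, q i * grad v x i = q i ^ 2 + (∑ j, grad v x j * x j) / ‖x‖ ^ 2 * (q i * x i) := by
      intro i
      have e2 : grad v x i = q i + (∑ j, grad v x j * x j) / ‖x‖ ^ 2 * x i := by
        rw [hq]
        ring
      conv_lhs => rw [e2]
      ring
    simp only [e, Finset.sum_add_distrib, ← Finset.mul_sum]
    rw [hqx]
    ring
  set n : Cov := fun i => q i / vsz q with hn
  have hn1 : vsz n ≤ 1 := by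
    have e : ∑ i, n i ^ 2 = 1 := by
      have e2 : ∀ i, n i ^ 2 = q i ^ 2 / vsz q ^ 2 := fun i => by rw [hn, div_pow]
      simp only [e2, ← Finset.sum_div]
      rw [← hqq]
      exact div_self (pow_ne_zero _ h0)
    unfold vsz
    rw [e, Real.sqrt_one]
  have h2 := ray hv x n hn1 ha
  have h3 : ∑ i, n i * pd i v x = vsz q := by
    have e : ∀ i, n i * pd i v x = q i * grad v x i / vsz q := by
      intro i
      rw [hn]
      change q i / vsz q * pd i v x = q i * pd i v x / vsz q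
      ring
    simp only [e, ← Finset.sum_div]
    rw [hqp, pow_two, mul_div_assoc, div_self h0, mul_one]
  have h4 : ∑ i, n i * pd i v ((1 / ‖x‖) • x) = 0 := by
    refine tan_zero hv h1 ((1 / ‖x‖) • x) (WithLp.toLp 2 n) ?_ ?_
    · rw [norm_smul, Real.norm_eq_abs, abs_of_pos (by positivity)]
      field_simp
    · have e : ∀ i, (WithLp.toLp 2 n : E3) i * ((1 / ‖x‖) • x) i = (1 / (vsz q * ‖x‖)) * (q i * x i) := by
        intro i
        change q i / vsz q * (1 / ‖x‖ * x i) = _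
        field_simp
      simp only [e, ← Finset.mul_sum]
      rw [hqx, mul_zero]
  rw [h3, h4, zero_add] at h2
  exact h2

/-- The pointwise estimate of the radial part. -/
theorem neg_le {v : E3 → ℝ} (hv : ContDiff ℝ ∞ v) (h1 : ∀ x : E3, ‖x‖ = 1 → v x = 1) (x : E3)
    (hx : 1 < ‖x‖) : negP x (-grad v x) ≤ max ((v x - 1) / (‖x‖ - 1)) 0 +
      ∫ s in (1 / ‖x‖)..1, ‖x‖ * msz (hess2 v (s • x)) := by
  have hx0 : 0 < ‖x‖ := by linarith
  have ha : 1 / ‖x‖ < 1 := by rw [div_lt_one hx0]; exact hx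
  have hI := int_nonneg (v := v) x ha.le
  -- mean value
  have hdv : ∀ s : ℝ, HasDerivAt (fun s : ℝ => v (s • x)) (∑ j, x j * pd j v (s • x)) s :=
    fun s => line_deriv hv x s
  obtain ⟨s₀, hs₀, hs₀'⟩ := exists_hasDerivAt_eq_slope (fun s : ℝ => v (s • x))
    (fun s => ∑ j, x j * pd j v (s • x)) ha
    (fun s _ => (hdv s).continuousAt.continuousWithinAt) (fun s _ => hdv s)
  have hw : v ((1 / ‖x‖) • x) = 1 := by
    refine h1 _ ?_
    rw [norm_smul, Real.norm_eq_abs, abs_of_pos (by positivity)]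
    field_simp
  rw [one_smul, hw] at hs₀'
  set n : Cov := fun i => x i / ‖x‖ with hn
  have hn1 : vsz n ≤ 1 := by
    have e : ∑ i, n i ^ 2 = 1 := by
      have e2 : ∀ i, n i ^ 2 = x i ^ 2 / ‖x‖ ^ 2 := fun i => by rw [hn, div_pow]
      simp only [e2, ← Finset.sum_div]
      rw [← norm_sq]
      exact div_self (pow_ne_zero _ hx0.ne')
    unfold vsz
    rw [e, Real.sqrt_one]
  have hns : ∀ y : E3, ∑ i, n i * pd i v y = (∑ i, x i * pd i v y) / ‖x‖ := by
    intro y
    rw [Finset.sum_div]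
    refine Finset.sum_congr rfl fun i _ => ?_
    rw [hn]
    ring
  have h2 := ray hv x n hn1 hs₀.2.le
  rw [hns, hns, hs₀'] at h2
  have h3 : (v x - 1) / (1 - 1 / ‖x‖) / ‖x‖ = (v x - 1) / (‖x‖ - 1) := by
    have e1 : 1 - 1 / ‖x‖ ≠ 0 := by
      have : 0 < 1 - 1 / ‖x‖ := by linarith
      exact this.ne'
    have e2 : ‖x‖ - 1 ≠ 0 := by
      have : 0 < ‖x‖ - 1 := by linarith
      exact this.ne'
    rw [div_div]
    congr 1
    field_simp
  rw [h3] at h2
  have h4 : ∫ s in s₀..1, ‖x‖ * msz (hess2 v (s • x)) ≤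
      ∫ s in (1 / ‖x‖)..1, ‖x‖ * msz (hess2 v (s • x)) := by
    have h5 := intervalIntegral.integral_add_adjacent_intervals (μ := volume) (a := 1 / ‖x‖)
      (b := s₀) (c := 1)
      ((ray_cont hv x).intervalIntegrable _ _) ((ray_cont hv x).intervalIntegrable _ _)
    have h6 : 0 ≤ ∫ s in (1 / ‖x‖)..s₀, ‖x‖ * msz (hess2 v (s • x)) :=
      intervalIntegral.integral_nonneg hs₀.1.le fun _ _ =>
        mul_nonneg (norm_nonneg _) (msz_nonneg _)
    linarith
  have h5 : -((∑ j, (-grad v x) j * x j) / ‖x‖) = (∑ i, x i * pd i v x) / ‖x‖ := by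
    rw [← neg_div, ← Finset.sum_neg_distrib]
    congr 1
    refine Finset.sum_congr rfl fun i _ => ?_
    change -(-(pd i v x) * x i) = _
    ring
  unfold negP
  rw [h5]
  refine max_le ?_ (add_nonneg (le_max_right _ _) hI)
  have h6 := le_max_left ((v x - 1) / (‖x‖ - 1)) 0
  linarith

/-! ### Integration over the collar -/

theorem closed_cAnn (a b : ℝ) : IsClosed (cAnn a b) :=
  (isClosed_le continuous_const continuous_norm).inter
    (isClosed_le continuous_norm continuous_const)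

theorem compact_cAnn (a b : ℝ) : IsCompact (cAnn a b) := by
  refine Metric.isCompact_of_isClosed_isBounded (closed_cAnn a b) ?_
  refine (Metric.isBounded_closedBall (x := (0 : E3)) (r := b)).subset fun x hx => ?_
  rw [mem_closedBall_zero_iff]
  exact hx.2

/-- The majorant. -/
noncomputable def KK (R : ℝ) (h : E3 → ℝ) (x : E3) : ℝ :=
  R * ∫ s in Set.Icc (1 / R) 1, (cAnn 1 R).indicator h (s • x)

section
variable {h : E3 → ℝ} (hc : Continuous h) (h0 : ∀ x, 0 ≤ h x) {R : ℝ} (hR : 1 ≤ R)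

include hc

theorem ind_meas : Measurable ((cAnn 1 R).indicator h) :=
  hc.measurable.indicator (closed_cAnn 1 R).measurableSet

theorem ind_bound : ∃ B : ℝ, ∀ y, ‖(cAnn 1 R).indicator h y‖ ≤ B := by
  obtain ⟨B, hB⟩ := (compact_cAnn 1 R).exists_bound_of_continuousOn hc.continuousOn
  refine ⟨max B 0, fun y => ?_⟩
  by_cases hy : y ∈ cAnn 1 R
  · rw [Set.indicator_of_mem hy]
    exact (hB y hy).trans (le_max_left _ _)
  · rw [Set.indicator_of_notMem hy, norm_zero]
    exact le_max_right _ _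

theorem prod_int : Integrable (Function.uncurry fun (x : E3) (s : ℝ) =>
    (cAnn 1 R).indicator h (s • x))
    ((volume.restrict (cAnn 1 R)).prod (volume.restrict (Set.Icc (1 / R) 1))) := by
  obtain ⟨B, hB⟩ := ind_bound hc (R := R)
  have : IsFiniteMeasure (volume.restrict (cAnn 1 R) : Measure E3) :=
    ⟨by rw [Measure.restrict_apply_univ]; exact (compact_cAnn 1 R).measure_lt_top⟩
  have hm : Measurable (Function.uncurry fun (x : E3) (s : ℝ) =>
      (cAnn 1 R).indicator h (s • x)) :=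
    (ind_meas hc).comp (measurable_snd.smul measurable_fst)
  exact Integrable.of_bound hm.aestronglyMeasurable B (Eventually.of_forall fun z => hB _)

theorem slice_int (x : E3) : IntegrableOn (fun s : ℝ => (cAnn 1 R).indicator h (s • x))
    (Set.Icc (1 / R) 1) := by
  obtain ⟨B, hB⟩ := ind_bound hc (R := R)
  have hm : Measurable (fun s : ℝ => (cAnn 1 R).indicator h (s • x)) :=
    (ind_meas hc).comp (measurable_id.smul_const x)
  exact Integrable.of_bound hm.aestronglyMeasurable B (Eventually.of_forall fun z => hB _)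

theorem KK_int : IntegrableOn (KK R h) (cAnn 1 R) := by
  have h1 := (prod_int hc (R := R)).integral_prod_left
  exact h1.const_mul R

include h0 hR

theorem le_KK (x : E3) (hx : x ∈ cAnn 1 R) :
    ∫ s in (1 / ‖x‖)..1, ‖x‖ * h (s • x) ≤ KK R h x := by
  have hx0 : 0 < ‖x‖ := by linarith [hx.1]
  have ha : 1 / ‖x‖ ≤ 1 := by rw [div_le_one hx0]; exact hx.1
  rw [intervalIntegral.integral_of_le ha]
  unfold KK
  rw [← integral_const_mul]
  have hsub : Set.Ioc (1 / ‖x‖) 1 ⊆ Set.Icc (1 / R) 1 := by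
    intro s hs
    refine ⟨?_, hs.2⟩
    exact (one_div_le_one_div_of_le hx0 hx.2).trans hs.1.le
  have h1 : ∀ s : ℝ, 0 ≤ R * (cAnn 1 R).indicator h (s • x) := fun s =>
    mul_nonneg (by linarith) (Set.indicator_nonneg (fun y _ => h0 y) _)
  refine le_trans ?_ (setIntegral_mono_set ((slice_int hc x).const_mul R)
    (Eventually.of_forall h1) (LE.le.eventuallyLE hsub))
  refine setIntegral_mono_on ?_ (((slice_int hc x).mono_set hsub).const_mul R) measurableSet_Ioc
    fun s hs => ?_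
  · have h2 : Continuous fun s : ℝ => ‖x‖ * h (s • x) :=
      continuous_const.mul (hc.comp (continuous_id.smul continuous_const))
    exact (h2.integrableOn_Icc (a := 1 / ‖x‖) (b := 1)).mono_set Set.Ioc_subset_Icc_self
  · have hs0 : 0 < s := lt_trans (by positivity) hs.1
    have hmem : s • x ∈ cAnn 1 R := by
      have e : ‖s • x‖ = s * ‖x‖ := by rw [norm_smul, Real.norm_eq_abs, abs_of_pos hs0]
      constructor
      · rw [e]
        have := hs.1
        rw [div_lt_iff₀ hx0] at this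
        exact this.le
      · rw [e]
        calc s * ‖x‖ ≤ 1 * ‖x‖ := mul_le_mul_of_nonneg_right hs.2 hx0.le
          _ ≤ R := by rw [one_mul]; exact hx.2
    rw [Set.indicator_of_mem hmem]
    exact mul_le_mul_of_nonneg_right hx.2 (h0 _)

theorem KK_nonneg (x : E3) : 0 ≤ KK R h x :=
  mul_nonneg (by linarith) (integral_nonneg fun s => Set.indicator_nonneg (fun y _ => h0 y) _)

theorem KK_le : ∫ x in cAnn 1 R, KK R h x ≤ (R - 1) * R ^ 3 * ∫ x in cAnn 1 R, h x := by
  have hR0 : 0 < R := by linarith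
  have : IsFiniteMeasure (volume.restrict (cAnn 1 R) : Measure E3) :=
    ⟨by rw [Measure.restrict_apply_univ]; exact (compact_cAnn 1 R).measure_lt_top⟩
  set H := ∫ x in cAnn 1 R, h x with hH
  have hH0 : 0 ≤ H := integral_nonneg fun x => h0 x
  have e1 : ∫ x in cAnn 1 R, KK R h x = R * ∫ s in Set.Icc (1 / R) 1, ∫ x in cAnn 1 R,
      (cAnn 1 R).indicator h (s • x) := by
    unfold KK
    rw [integral_const_mul]
    congr 1
    exact integral_integral_swap (prod_int hc)
  have hi : ∫ y, (cAnn 1 R).indicator h y = H := by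
    rw [integral_indicator (closed_cAnn 1 R).measurableSet]
  have hint : Integrable ((cAnn 1 R).indicator h) :=
    (integrable_indicator_iff (closed_cAnn 1 R).measurableSet).2
      (hc.continuousOn.integrableOn_compact (compact_cAnn 1 R))
  have h2 : ∀ s ∈ Set.Icc (1 / R) 1, ∫ x in cAnn 1 R, (cAnn 1 R).indicator h (s • x) ≤
      R ^ 3 * H := by
    intro s hs
    have hs0 : 0 < s := lt_of_lt_of_le (by positivity) hs.1
    have hint' : Integrable (fun x : E3 => (cAnn 1 R).indicator h (s • x)) :=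
      hint.comp_smul hs0.ne'
    calc ∫ x in cAnn 1 R, (cAnn 1 R).indicator h (s • x)
        ≤ ∫ x : E3, (cAnn 1 R).indicator h (s • x) :=
          setIntegral_le_integral hint' (Eventually.of_forall fun x =>
            Set.indicator_nonneg (fun y _ => h0 y) _)
      _ = |(s ^ 3)⁻¹| * H := by
          rw [Measure.integral_comp_smul, finrank_euclideanSpace, Fintype.card_fin, hi,
            smul_eq_mul]
      _ ≤ R ^ 3 * H := by
          refine mul_le_mul_of_nonneg_right ?_ hH0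
          rw [abs_of_pos (by positivity)]
          rw [inv_le_comm₀ (by positivity) (by positivity)]
          calc (R ^ 3)⁻¹ = (1 / R) ^ 3 := by rw [one_div, inv_pow]
            _ ≤ s ^ 3 := pow_le_pow_left₀ (by positivity) hs.1 3
  have hI := (prod_int hc (R := R)).swap.integral_prod_left
  have h3 : ∫ s in Set.Icc (1 / R) 1, ∫ x in cAnn 1 R, (cAnn 1 R).indicator h (s • x) ≤
      ∫ s in Set.Icc (1 / R) 1, R ^ 3 * H := by
    refine setIntegral_mono_on hI ?_ measurableSet_Icc h2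
    exact integrableOn_const (by simp)
  have h4 : ∫ s in Set.Icc (1 / R) 1, R ^ 3 * H = (1 - 1 / R) * (R ^ 3 * H) := by
    rw [setIntegral_const, smul_eq_mul, Real.volume_real_Icc_of_le (by
      rw [div_le_one hR0]; exact hR)]
  rw [e1]
  rw [h4] at h3
  calc R * ∫ s in Set.Icc (1 / R) 1, ∫ x in cAnn 1 R, (cAnn 1 R).indicator h (s • x)
      ≤ R * ((1 - 1 / R) * (R ^ 3 * H)) := mul_le_mul_of_nonneg_left h3 hR0.le
    _ = (R - 1) * R ^ 3 * H := by
        field_simp

end

theorem exp_bd {τ : ℝ} (h0 : 0 < τ) (h1 : τ ≤ 1 / 10) :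
    (Real.exp τ - 1) * Real.exp τ ^ 3 ≤ 4 * τ := by
  have h2 : 1 - τ ≤ Real.exp (-τ) := by
    have := Real.add_one_le_exp (-τ)
    linarith
  have h3 : Real.exp τ * (1 - τ) ≤ 1 := by
    calc Real.exp τ * (1 - τ) ≤ Real.exp τ * Real.exp (-τ) :=
          mul_le_mul_of_nonneg_left h2 (Real.exp_pos _).le
      _ = 1 := by rw [← Real.exp_add, add_neg_cancel, Real.exp_zero]
  have h4 : 1 ≤ Real.exp τ := Real.one_le_exp h0.le
  have h5 : Real.exp τ ≤ 10 / 9 := by nlinarith
  have h6 : Real.exp τ - 1 ≤ 10 / 9 * τ := by nlinarith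
  have h7 : Real.exp τ ^ 3 ≤ (10 / 9) ^ 3 := pow_le_pow_left₀ (by linarith) h5 3
  calc (Real.exp τ - 1) * Real.exp τ ^ 3 ≤ (10 / 9 * τ) * (10 / 9) ^ 3 :=
        mul_le_mul h6 h7 (by positivity) (by positivity)
    _ ≤ 4 * τ := by nlinarith

theorem rad_cont {v : E3 → ℝ} (hv : ContDiff ℝ ∞ v) {a b : ℝ} (ha : 0 < a) :
    ContinuousOn (fun x : E3 => ∑ j, grad v x j * x j) (cAnn a b) := by
  refine Continuous.continuousOn ?_
  refine continuous_finsetSum _ fun j _ => ?_
  exact (pd_contDiff hv j).continuous.mul (by fun_prop)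

theorem tanP_cont {v : E3 → ℝ} (hv : ContDiff ℝ ∞ v) {a b : ℝ} (ha : 0 < a) :
    ContinuousOn (fun x : E3 => tanP x (grad v x)) (cAnn a b) := by
  unfold tanP vsz
  refine Real.continuous_sqrt.comp_continuousOn ?_
  refine continuousOn_finsetSum _ fun i _ => ContinuousOn.pow ?_ 2
  refine ((pd_contDiff hv i).continuous.continuousOn).sub (ContinuousOn.mul ?_ (by fun_prop))
  refine (rad_cont hv ha).div (by fun_prop) fun x hx => ?_
  have : 0 < ‖x‖ := lt_of_lt_of_le ha hx.1
  positivity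

theorem negP_cont {v : E3 → ℝ} (hv : ContDiff ℝ ∞ v) {a b : ℝ} (ha : 0 < a) :
    ContinuousOn (fun x : E3 => negP x (-grad v x)) (cAnn a b) := by
  unfold negP
  refine ContinuousOn.sup (ContinuousOn.neg ?_) continuousOn_const
  refine ContinuousOn.div ?_ continuous_norm.continuousOn fun x hx => ?_
  · refine Continuous.continuousOn ?_
    refine continuous_finsetSum _ fun j _ => ?_
    exact (pd_contDiff hv j).continuous.neg.mul (by fun_prop)
  · have : 0 < ‖x‖ := lt_of_lt_of_le ha hx.1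
    exact this.ne'

theorem quot_cont {v : E3 → ℝ} (hv : ContDiff ℝ ∞ v) {a b : ℝ} (ha : 1 < a) :
    ContinuousOn (fun x : E3 => max ((v x - 1) / (‖x‖ - 1)) 0) (cAnn a b) := by
  refine ContinuousOn.sup ?_ continuousOn_const
  refine ContinuousOn.div ((hv.continuous.sub continuous_const).continuousOn)
    ((continuous_norm.sub continuous_const).continuousOn) fun x hx => ?_
  have : 0 < ‖x‖ - 1 := by linarith [hx.1]
  exact this.ne'

end Pool.Agent.PFlow.HX.HXRAYaux

namespace Pool.Agent.PFlow.HX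

open Pool.Agent.PenroseSph Pool.Agent.PFlow

open HXRAYaux in
/-- HXRAY. -/
theorem HXRAY : Stmt_HXRAY := by
  intro v τ hv h1 h0 hτ
  have hR : 1 ≤ Real.exp τ := Real.one_le_exp h0.le
  have hc := hess_cont hv
  have hn : ∀ x, 0 ≤ msz (hess2 v x) := fun x => msz_nonneg _
  have hK := KK_le hc hn hR
  have hKi := KK_int hc (R := Real.exp τ)
  have hH0 : 0 ≤ ∫ x in cAnn 1 (Real.exp τ), msz (hess2 v x) := integral_nonneg fun x => hn x
  have hK' : ∫ x in cAnn 1 (Real.exp τ), KK (Real.exp τ) (fun x => msz (hess2 v x)) x ≤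
      4 * τ * ∫ x in cAnn 1 (Real.exp τ), msz (hess2 v x) :=
    hK.trans (mul_le_mul_of_nonneg_right (exp_bd h0 hτ) hH0)
  refine ⟨?_, ?_⟩
  · refine le_trans ?_ hK'
    refine setIntegral_mono_on ((tanP_cont hv one_pos).integrableOn_compact (compact_cAnn _ _)) hKi
      (closed_cAnn _ _).measurableSet fun x hx => ?_
    exact (tan_le hv h1 x hx.1).trans (le_KK hc hn hR x hx)
  · intro δ hδ hδτ
    have hδ1 : 1 < Real.exp δ := Real.one_lt_exp_iff.2 hδ
    have hsub : cAnn (Real.exp δ) (Real.exp τ) ⊆ cAnn 1 (Real.exp τ) := fun x hx =>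
      ⟨hδ1.le.trans hx.1, hx.2⟩
    have hqi : IntegrableOn (fun x : E3 => max ((v x - 1) / (‖x‖ - 1)) 0)
        (cAnn (Real.exp δ) (Real.exp τ)) :=
      (quot_cont hv hδ1).integrableOn_compact (compact_cAnn _ _)
    have h2 : ∫ x in cAnn (Real.exp δ) (Real.exp τ), negP x (-grad v x) ≤
        ∫ x in cAnn (Real.exp δ) (Real.exp τ), (max ((v x - 1) / (‖x‖ - 1)) 0 +
          KK (Real.exp τ) (fun x => msz (hess2 v x)) x) := by
      refine setIntegral_mono_on ((negP_cont hv (by linarith)).integrableOn_compact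
        (compact_cAnn _ _)) (hqi.add (hKi.mono_set hsub)) (closed_cAnn _ _).measurableSet
        fun x hx => ?_
      have h3 := neg_le hv h1 x (hδ1.trans_le hx.1)
      have h4 := le_KK hc hn hR x (hsub hx)
      linarith
    rw [integral_add hqi (hKi.mono_set hsub)] at h2
    have h5 : ∫ x in cAnn (Real.exp δ) (Real.exp τ),
        KK (Real.exp τ) (fun x => msz (hess2 v x)) x ≤
        ∫ x in cAnn 1 (Real.exp τ), KK (Real.exp τ) (fun x => msz (hess2 v x)) x :=
      setIntegral_mono_set hKi (Eventually.of_forall fun x => KK_nonneg hc hn hR x)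
        (LE.le.eventuallyLE hsub)
    linarith

end Pool.Agent.PFlow.HX
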