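import Pool.Agent.PFlow.StmtsHX
import Pool.Agent.PFlow.E.LEYb

/-!
# HXSYM: integrals of odd quantities vanish
-/

set_option autoImplicit false

open MeasureTheory Filter Topology
open scoped ContDiff ENNReal

namespace Pool.Agent.PFlow.HX

open Pool.Agent.PenroseSph Pool.Agent.PFlow Pool.Agent.PFlow.GB.COVGm
open Pool.Agent.PFlow.LEYaux

namespace HXSYMaux

theorem ne_zero {x : E3} (hx : x ∈ Ann (1 / 2) 2) : x ≠ 0 := by
  rintro rfl
  have := hx.1
  rw [norm_zero] at this
  linarith

theorem maps {x : E3} (hx : x ∈ Ann (1 / 2) 2) : inversion x ∈ Ann (1 / 2) 2 := by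
  have h0 := ne_zero hx
  have hn : 0 < ‖x‖ := norm_pos_iff.2 h0
  obtain ⟨h1, h2⟩ := hx
  refine ⟨?_, ?_⟩
  · rw [HSM2.norm_inversion x h0, lt_inv_comm₀ (by norm_num) hn]
    linarith
  · rw [HSM2.norm_inversion x h0, inv_lt_comm₀ hn (by norm_num)]
    linarith

theorem image_eq : inversion '' Ann (1 / 2) 2 = Ann (1 / 2) 2 := by
  ext x
  constructor
  · rintro ⟨y, hy, rfl⟩
    exact maps hy
  · intro hx
    exact ⟨inversion x, maps hx, HSM2.inversion_inversion x (ne_zero hx)⟩

theorem isOpen_ann : IsOpen (Ann (1 / 2) 2) :=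
  (isOpen_lt continuous_const continuous_norm).inter (isOpen_lt continuous_norm continuous_const)

/-- An odd quantity has integral zero. -/
theorem integral_odd {q : E3 → ℝ}
    (h : ∀ᵐ x ∂(volume.restrict (Ann (1 / 2) 2)),
      |(inversionJac x).det| * q (inversion x) = -q x) :
    ∫ x in Ann (1 / 2) 2, q x = 0 := by
  have hm : MeasurableSet (Ann (1 / 2) 2) := isOpen_ann.measurableSet
  have h1 : ∫ x in Ann (1 / 2) 2, q x = ∫ x in Ann (1 / 2) 2, -q x := by
    conv_lhs => rw [← image_eq]
    rw [integral_image hm (fun x hx => ne_zero hx)]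
    exact integral_congr_ae h
  rw [integral_neg] at h1
  linarith

section

variable {g h : TensorField} (hg : MetricOn Set.univ g) (hM : Mirror g h)

include hg hM

omit hg in
theorem metric0 {x : E3} (hx : x ∈ Ann (1 / 2) 2) : inverted g x = g x :=
  (hM x (by linarith [hx.1]) (by linarith [hx.2])).1

omit hg in
theorem tensor0 {x : E3} (hx : x ∈ Ann (1 / 2) 2) :
    pb (PenroseConvex.jac inversion x) (h (inversion x)) = -h x := by
  rw [pb_eq, jac_inversion (ne_zero hx)]
  exact (hM x (by linarith [hx.1]) (by linarith [hx.2])).2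

omit hg in
theorem vol0 {x : E3} (hx : x ∈ Ann (1 / 2) 2) :
    |(inversionJac x).det| * volDen g (inversion x) = volDen g x := by
  have h1 : (g x).det = (inversionJac x).det ^ 2 * (g (inversion x)).det := by
    rw [← metric0 hM hx]
    unfold inverted
    rw [Matrix.det_mul, Matrix.det_mul, Matrix.det_transpose]
    ring
  unfold volDen
  rw [h1, Real.sqrt_mul (sq_nonneg _), Real.sqrt_sq_eq_abs]

omit hM in
theorem on0 : MetricOn {0}ᶜ g where
  smooth := fun i j => (hg.smooth i j).mono (Set.subset_univ _)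
  posDef := fun x _ => hg.posDef x (Set.mem_univ _)

theorem len0 {x : E3} (hx : x ∈ Ann (1 / 2) 2) (p : Cov) :
    len g (inversion x) p = len g x (pc (PenroseConvex.jac inversion x) p) := by
  rw [← len_pc (rel_chg (chg_inversion (on0 hg) (ne_zero hx)))]
  exact len_congr (metric0 hM hx) _

theorem beps0 {x : E3} (hx : x ∈ Ann (1 / 2) 2) (ε : ℝ) {p q : Cov}
    (hp : pc (PenroseConvex.jac inversion x) p = -q) :
    beps ε g (inversion x) p (h (inversion x)) = -beps ε g x q (h x) := by
  rw [← beps_inv (on0 hg) (ne_zero hx), beps_congr (metric0 hM hx), hp,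
    tensor0 hM hx, beps_neg]

end

theorem btan_eq (g : TensorField) (x : E3) (p : Cov) (B : Bil) :
    btan g x p B = beps 0 g x p B := by
  unfold btan beps
  ring

end HXSYMaux

open HXSYMaux

theorem HXSYM (hHXANTI : Stmt_HXANTI) : Stmt_HXSYM := by
  intro ε g h u G M hg _ hM hu hodd
  have hG := (hHXANTI u G M hu hodd).1
  have hmem : ∀ᵐ x ∂(volume.restrict (Ann (1 / 2) 2)), x ∈ Ann (1 / 2) 2 :=
    ae_restrict_mem isOpen_ann.measurableSet
  have hpc : ∀ {x : E3}, x ∈ Ann (1 / 2) 2 →
      (∀ i, ∑ a, inversionJac x a i * G (inversion x) a = -G x i) →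
      pc (PenroseConvex.jac inversion x) (G (inversion x)) = -G x := by
    intro x hx h1
    funext i
    rw [Pi.neg_apply, ← h1 i]
    unfold pc
    rw [jac_inversion (ne_zero hx)]
    exact Finset.sum_congr rfl fun a _ => mul_comm _ _
  refine ⟨fun F hF => integral_odd ?_, fun L hL => integral_odd ?_⟩
  · filter_upwards [hG, hmem] with x h1 hx
    have e1 := hpc hx h1
    rw [hodd x hx, hF, len0 hg hM hx, e1, len_neg]
    have e2 := vol0 hM hx
    linear_combination (-(F (u x)) * len g x (G x) ^ 3) * e2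
  · filter_upwards [hG, hmem] with x h1 hx
    have e1 := hpc hx h1
    rw [hodd x hx, hL, len0 hg hM hx, e1, len_neg, btan_eq, btan_eq, beps0 hg hM hx ε e1,
      beps0 hg hM hx 0 e1]
    have e2 := vol0 hM hx
    linear_combination (L (u x) * len g x (G x) ^ 2 *
      (2 / (2 - ε) * -beps ε g x (G x) (h x) - -beps 0 g x (G x) (h x))) * e2

end Pool.Agent.PFlow.HX
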