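import Pool.Agent.PFlow.StmtsHX
import Pool.Agent.PenroseSph.SphereDiv

/-!
# HXTR: the first derivatives in the collar, smooth functions
-/

open MeasureTheory Filter Topology Set
open scoped ContDiff ENNReal

namespace Pool.Agent.PFlow.HX

open Pool.Agent.PenroseSph

namespace HXTRaux

/-! ### Polar coordinates -/

theorem polar_prod {F : E3 → ℝ} (hF : Integrable F (volume : Measure E3)) :
    Integrable (fun p : Metric.sphere (0 : E3) 1 × Ioi (0 : ℝ) => F (p.2.1 • (p.1 : E3)))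
      (sph.prod (.volumeIoiPow 2)) ∧
    ∫ x, F x = ∫ p : Metric.sphere (0 : E3) 1 × Ioi (0 : ℝ), F (p.2.1 • (p.1 : E3))
        ∂(sph.prod (.volumeIoiPow 2)) := by
  have hdim : Module.finrank ℝ E3 - 1 = 2 := by simp
  have h1 : ∫ x, F x = ∫ x : ({(0 : E3)}ᶜ : Set E3), F x.1 ∂((volume : Measure E3).comap (↑)) := by
    rw [integral_subtype_comap (measurableSet_singleton _).compl fun x ↦ F x,
      restrict_compl_singleton]
  have h2 : ∫ x : ({(0 : E3)}ᶜ : Set E3), F x.1 ∂((volume : Measure E3).comap (↑))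
      = ∫ p : Metric.sphere (0 : E3) 1 × Ioi (0 : ℝ), F (p.2.1 • (p.1 : E3))
        ∂(sph.prod (.volumeIoiPow 2)) := by
    have := (volume : Measure E3).measurePreserving_homeomorphUnitSphereProd.integral_comp
      (Homeomorph.measurableEmbedding _) (fun p => F (p.2.1 • (p.1 : E3)))
    rw [hdim] at this
    rw [← this]
    refine integral_congr_ae (Eventually.of_forall fun x => ?_)
    simp only [homeomorphUnitSphereProd_apply_snd_coe, homeomorphUnitSphereProd_apply_fst_coe]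
    congr 1
    have : ‖(x : E3)‖ ≠ 0 := norm_ne_zero_iff.2 x.2
    rw [smul_smul, mul_inv_cancel₀ this, one_smul]
  refine ⟨?_, h1.trans h2⟩
  have := (volume : Measure E3).measurePreserving_homeomorphUnitSphereProd.integrable_comp_emb
    (Homeomorph.measurableEmbedding _) (g := fun p => F (p.2.1 • (p.1 : E3)))
  rw [hdim] at this
  rw [← this]
  have h3 : Integrable (fun x : ({(0 : E3)}ᶜ : Set E3) => F x.1)
      ((volume : Measure E3).comap (↑)) := by
    have h4 := (integrableOn_iff_comap_subtypeVal (μ := (volume : Measure E3)) (f := F)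
      (measurableSet_singleton (0 : E3)).compl).1 hF.integrableOn
    exact h4
  refine h3.congr (Eventually.of_forall fun x => ?_)
  simp only [Function.comp_apply, homeomorphUnitSphereProd_apply_snd_coe,
    homeomorphUnitSphereProd_apply_fst_coe]
  congr 1
  have : ‖(x : E3)‖ ≠ 0 := norm_ne_zero_iff.2 x.2
  rw [smul_smul, mul_inv_cancel₀ this, one_smul]

theorem inner_eq (F : E3 → ℝ) (q : Metric.sphere (0 : E3) 1) :
    ∫ r : Ioi (0 : ℝ), F (r.1 • (q : E3)) ∂(Measure.volumeIoiPow 2) =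
      ∫ r in Ioi (0 : ℝ), r ^ 2 * F (r • (q : E3)) := by
  simp only [Measure.volumeIoiPow, ENNReal.ofReal]
  rw [integral_withDensity_eq_integral_smul,
    integral_subtype_comap measurableSet_Ioi
      fun a ↦ Real.toNNReal (a ^ 2) • F (a • (q : E3)),
    setIntegral_congr_fun measurableSet_Ioi fun x hx ↦ ?_]
  · rw [NNReal.smul_def, Real.coe_toNNReal _ (pow_nonneg (le_of_lt hx) _), smul_eq_mul]
  · exact (measurable_subtype_coe.pow_const _).real_toNNReal

theorem polar_le {F H : E3 → ℝ} (hF : Integrable F (volume : Measure E3))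
    (hH : Integrable H (volume : Measure E3))
    (h : ∀ q : Metric.sphere (0 : E3) 1, ∫ r in Ioi (0 : ℝ), r ^ 2 * F (r • (q : E3)) ≤
      ∫ r in Ioi (0 : ℝ), r ^ 2 * H (r • (q : E3))) : ∫ x, F x ≤ ∫ x, H x := by
  obtain ⟨i1, e1⟩ := polar_prod hF
  obtain ⟨i2, e2⟩ := polar_prod hH
  rw [e1, e2, integral_prod _ i1, integral_prod _ i2]
  refine integral_mono i1.integral_prod_left i2.integral_prod_left fun q => ?_
  show ∫ r : Ioi (0 : ℝ), F (r.1 • (q : E3)) ∂(Measure.volumeIoiPow 2) ≤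
    ∫ r : Ioi (0 : ℝ), H (r.1 • (q : E3)) ∂(Measure.volumeIoiPow 2)
  rw [inner_eq, inner_eq]
  exact h q

theorem smul_mem_cAnn {a b r : ℝ} (hr : 0 ≤ r) (q : Metric.sphere (0 : E3) 1) :
    r • (q : E3) ∈ cAnn a b ↔ r ∈ Icc a b := by
  show (a ≤ ‖r • (q : E3)‖ ∧ ‖r • (q : E3)‖ ≤ b) ↔ a ≤ r ∧ r ≤ b
  rw [norm_smul, norm_eq_of_mem_sphere, mul_one, Real.norm_eq_abs, abs_of_nonneg hr]

theorem inner_indicator (f : E3 → ℝ) {a b : ℝ} (ha : 0 < a) (hab : a ≤ b)
    (q : Metric.sphere (0 : E3) 1) :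
    ∫ r in Ioi (0 : ℝ), r ^ 2 * (cAnn a b).indicator f (r • (q : E3)) =
      ∫ r in a..b, r ^ 2 * f (r • (q : E3)) := by
  rw [intervalIntegral.integral_of_le hab, ← integral_Icc_eq_integral_Ioc,
    ← integral_indicator measurableSet_Ioi, ← integral_indicator measurableSet_Icc]
  congr 1
  funext r
  by_cases hr : 0 < r
  · rw [indicator_of_mem (show r ∈ Ioi (0 : ℝ) from hr)]
    by_cases h : r ∈ Icc a b
    · rw [indicator_of_mem h, indicator_of_mem ((smul_mem_cAnn hr.le q).2 h)]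
    · rw [indicator_of_notMem h, indicator_of_notMem (fun h' => h ((smul_mem_cAnn hr.le q).1 h')),
        mul_zero]
  · rw [indicator_of_notMem (show r ∉ Ioi (0 : ℝ) from hr), indicator_of_notMem]
    intro h
    exact hr (lt_of_lt_of_le ha h.1)

theorem isClosed_cAnn (a b : ℝ) : IsClosed (cAnn a b) :=
  (isClosed_le continuous_const continuous_norm).inter
    (isClosed_le continuous_norm continuous_const)

theorem isCompact_cAnn (a b : ℝ) : IsCompact (cAnn a b) := by
  refine Metric.isCompact_of_isClosed_isBounded (isClosed_cAnn a b) ?_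
  refine (Metric.isBounded_closedBall (x := (0 : E3)) (r := b)).subset fun x hx => ?_
  rw [mem_closedBall_zero_iff]
  exact hx.2

/-! ### One dimensional inequality -/

theorem one_dim {a b : ℝ → ℝ} (ha : Continuous a) (hb : Continuous b) (ha0 : ∀ r, 0 ≤ a r)
    (hb0 : ∀ r, 0 ≤ b r) {τ : ℝ} (hτ : 0 < τ) (hτ' : τ ≤ 1 / 10)
    (h : ∀ r ∈ Icc (1 : ℝ) (4 / 3), ∀ s ∈ Icc (1 : ℝ) (4 / 3),
      a r ≤ a s + ∫ σ in (1 : ℝ)..(4 / 3), b σ) :
    ∫ r in (1 : ℝ)..Real.exp τ, r ^ 2 * a r ≤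
      100 * τ * ∫ r in (1 : ℝ)..(4 / 3), r ^ 2 * (a r + b r) := by
  obtain ⟨J, hJ⟩ : ∃ J, J = ∫ r in (1 : ℝ)..(4 / 3), r ^ 2 * (a r + b r) := ⟨_, rfl⟩
  have hexp1 : Real.exp τ - 1 ≤ 2 * τ := by
    have h1 := Real.abs_exp_sub_one_le (x := τ) (by rw [abs_of_pos hτ]; linarith)
    rw [abs_of_pos hτ] at h1
    exact (le_abs_self _).trans h1
  have hexp2 : 1 ≤ Real.exp τ := Real.one_le_exp hτ.le
  have hexp3 : Real.exp τ ≤ 4 / 3 := by linarith
  have hia : IntervalIntegrable a volume (1 : ℝ) (4 / 3) := ha.intervalIntegrable _ _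
  have hib : IntervalIntegrable b volume (1 : ℝ) (4 / 3) := hb.intervalIntegrable _ _
  have hJ1 : (∫ r in (1 : ℝ)..(4 / 3), a r) + ∫ r in (1 : ℝ)..(4 / 3), b r ≤ J := by
    rw [← intervalIntegral.integral_add hia hib, hJ]
    refine intervalIntegral.integral_mono_on (by norm_num) (hia.add hib)
      (Continuous.intervalIntegrable (by fun_prop) _ _) fun r hr => ?_
    have e1 : 1 ≤ r ^ 2 := by nlinarith [hr.1]
    have e2 := ha0 r
    have e3 := hb0 r
    nlinarith
  have hJb : 0 ≤ ∫ r in (1 : ℝ)..(4 / 3), b r :=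
    intervalIntegral.integral_nonneg (by norm_num) fun r _ => hb0 r
  have hJa : 0 ≤ ∫ r in (1 : ℝ)..(4 / 3), a r :=
    intervalIntegral.integral_nonneg (by norm_num) fun r _ => ha0 r
  -- the mean value
  have hmean : ∀ r ∈ Icc (1 : ℝ) (4 / 3), a r ≤ 3 * J := by
    intro r hr
    have e1 : ∫ _s in (1 : ℝ)..(4 / 3), a r ≤
        ∫ s in (1 : ℝ)..(4 / 3), (a s + ∫ σ in (1 : ℝ)..(4 / 3), b σ) :=
      intervalIntegral.integral_mono_on (by norm_num) intervalIntegrable_const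
        (hia.add intervalIntegrable_const) fun s hs => h r hr s hs
    rw [intervalIntegral.integral_add hia intervalIntegrable_const,
      intervalIntegral.integral_const, intervalIntegral.integral_const, smul_eq_mul,
      smul_eq_mul] at e1
    linarith
  have hJ0 : 0 ≤ J := by linarith
  have e2 : ∫ r in (1 : ℝ)..Real.exp τ, r ^ 2 * a r ≤
      ∫ _r in (1 : ℝ)..Real.exp τ, (16 / 9) * (3 * J) := by
    refine intervalIntegral.integral_mono_on hexp2
      (Continuous.intervalIntegrable (by fun_prop) _ _) intervalIntegrable_const fun r hr => ?_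
    have e3 := hmean r ⟨hr.1, hr.2.trans hexp3⟩
    have e4 : r ^ 2 ≤ 16 / 9 := by
      have : r ≤ 4 / 3 := hr.2.trans hexp3
      nlinarith [hr.1]
    exact mul_le_mul e4 e3 (ha0 r) (by norm_num)
  rw [intervalIntegral.integral_const, smul_eq_mul] at e2
  rw [← hJ]
  have e5 : (Real.exp τ - 1) * (16 / 9 * (3 * J)) ≤ (2 * τ) * (16 / 9 * (3 * J)) :=
    mul_le_mul_of_nonneg_right hexp1 (by linarith)
  nlinarith [mul_nonneg hτ.le hJ0]

/-! ### Derivatives along rays -/

theorem fderiv_sum (f : E3 → ℝ) (x v : E3) : fderiv ℝ f x v = ∑ i, v i * pd i f x := by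
  have h1 : v = ∑ i, v i • EuclideanSpace.single i (1 : ℝ) := by
    ext j
    simp [Pi.single_apply]
  conv_lhs => rw [h1]
  rw [map_sum]
  refine Finset.sum_congr rfl fun i _ => ?_
  rw [map_smul, smul_eq_mul]
  rfl

theorem contDiff_pd {f : E3 → ℝ} (hf : ContDiff ℝ ∞ f) (i : Fin 3) : ContDiff ℝ ∞ (pd i f) := by
  have h1 : ContDiff ℝ ∞ (fderiv ℝ f) := hf.fderiv_right (by norm_cast)
  exact h1.clm_apply contDiff_const

theorem cs_bound (e w : Fin 3 → ℝ) (B : Bil) (he : ∑ i, e i ^ 2 ≤ 1) (hw : ∑ i, w i ^ 2 ≤ 1) :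
    |∑ i, e i * ∑ j, w j * B j i| ≤ msz B := by
  apply Real.abs_le_sqrt
  have h1 : (∑ i, e i * ∑ j, w j * B j i) ^ 2 ≤
      (∑ i, e i ^ 2) * ∑ i, (∑ j, w j * B j i) ^ 2 := Finset.sum_mul_sq_le_sq_mul_sq _ _ _
  have h2 : ∀ i, (∑ j, w j * B j i) ^ 2 ≤ ∑ j, B j i ^ 2 := by
    intro i
    have h3 : (∑ j, w j * B j i) ^ 2 ≤ (∑ j, w j ^ 2) * ∑ j, B j i ^ 2 :=
      Finset.sum_mul_sq_le_sq_mul_sq _ _ _
    have h4 : 0 ≤ ∑ j, B j i ^ 2 := Finset.sum_nonneg fun j _ => sq_nonneg _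
    nlinarith
  have h5 : ∑ i, (∑ j, w j * B j i) ^ 2 ≤ ∑ i, ∑ j, B j i ^ 2 := Finset.sum_le_sum fun i _ => h2 i
  have h6 : 0 ≤ ∑ i, (∑ j, w j * B j i) ^ 2 := Finset.sum_nonneg fun i _ => sq_nonneg _
  have h7 : ∑ i, ∑ j, B j i ^ 2 = ∑ i, ∑ j, B i j ^ 2 := Finset.sum_comm
  nlinarith

theorem ray_le {v : E3 → ℝ} (hv : ContDiff ℝ ∞ v) (q : Metric.sphere (0 : E3) 1)
    {r s : ℝ} (hr : r ∈ Icc (1 : ℝ) (4 / 3)) (hs : s ∈ Icc (1 : ℝ) (4 / 3))
    (hc : Continuous fun σ : ℝ => msz (hess2 v (σ • (q : E3)))) :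
    vsz (grad v (r • (q : E3))) ≤ vsz (grad v (s • (q : E3))) +
      ∫ σ in (1 : ℝ)..(4 / 3), msz (hess2 v (σ • (q : E3))) := by
  have hm0 : 0 ≤ ∫ σ in (1 : ℝ)..(4 / 3), msz (hess2 v (σ • (q : E3))) :=
    intervalIntegral.integral_nonneg (by norm_num) fun σ _ => Real.sqrt_nonneg _
  rcases eq_or_lt_of_le (Real.sqrt_nonneg (∑ i, grad v (r • (q : E3)) i ^ 2)) with h0 | h0
  · have e1 : vsz (grad v (r • (q : E3))) = 0 := h0.symm
    have e2 : 0 ≤ vsz (grad v (s • (q : E3))) := Real.sqrt_nonneg _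
    linarith
  obtain ⟨N, hN⟩ : ∃ N, N = vsz (grad v (r • (q : E3))) := ⟨_, rfl⟩
  have hN0 : 0 < N := by rw [hN]; exact h0
  have hNsq : N ^ 2 = ∑ i, grad v (r • (q : E3)) i ^ 2 := by
    rw [hN]
    exact Real.sq_sqrt (Finset.sum_nonneg fun i _ => sq_nonneg _)
  obtain ⟨e, he⟩ : ∃ e : Fin 3 → ℝ, e = fun i => grad v (r • (q : E3)) i / N := ⟨_, rfl⟩
  have hesq : ∑ i, e i ^ 2 = 1 := by
    simp only [he, div_pow]
    rw [← Finset.sum_div, ← hNsq, div_self (by positivity)]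
  have hwsq : ∑ i, (q : E3) i ^ 2 = 1 := by
    have h1 := EuclideanSpace.norm_sq_eq (q : E3)
    rw [norm_eq_of_mem_sphere] at h1
    simpa using h1.symm
  -- the function
  obtain ⟨φ, hφ⟩ : ∃ φ : ℝ → ℝ, φ = fun σ => ∑ i, e i * pd i v (σ • (q : E3)) := ⟨_, rfl⟩
  have hd : ∀ σ : ℝ, HasDerivAt φ (∑ i, e i * ∑ j, (q : E3) j * hess2 v (σ • (q : E3)) j i) σ := by
    intro σ
    rw [hφ]
    refine HasDerivAt.fun_sum fun i _ => ?_
    refine HasDerivAt.const_mul _ ?_
    have h1 : HasDerivAt (fun σ : ℝ => σ • (q : E3)) (q : E3) σ := by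
      simpa using (hasDerivAt_id σ).smul_const (q : E3)
    have h2 : HasFDerivAt (pd i v) (fderiv ℝ (pd i v) (σ • (q : E3))) (σ • (q : E3)) :=
      ((contDiff_pd hv i).differentiable (by norm_num)).differentiableAt.hasFDerivAt
    have h3 := h2.comp_hasDerivAt σ h1
    rw [fderiv_sum] at h3
    exact h3
  have hcont : Continuous fun σ : ℝ => ∑ i, e i * ∑ j, (q : E3) j * hess2 v (σ • (q : E3)) j i := by
    refine continuous_finsetSum _ fun i _ => continuous_const.mul
      (continuous_finsetSum _ fun j _ => continuous_const.mul ?_)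
    exact (contDiff_pd (contDiff_pd hv i) j).continuous.comp (continuous_id.smul continuous_const)
  have hφr : φ r = N := by
    rw [hφ, he]
    show ∑ i, pd i v (r • (q : E3)) / N * pd i v (r • (q : E3)) = N
    have h1 : ∀ i, pd i v (r • (q : E3)) / N * pd i v (r • (q : E3)) =
        grad v (r • (q : E3)) i ^ 2 / N := by
      intro i
      show _ = pd i v (r • (q : E3)) ^ 2 / N
      ring
    simp only [h1]
    rw [← Finset.sum_div, ← hNsq]
    field_simp
  have hφs : φ s ≤ vsz (grad v (s • (q : E3))) := by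
    rw [hφ]
    refine (le_abs_self _).trans (Real.abs_le_sqrt ?_)
    have h1 : (∑ i, e i * pd i v (s • (q : E3))) ^ 2 ≤
        (∑ i, e i ^ 2) * ∑ i, pd i v (s • (q : E3)) ^ 2 := Finset.sum_mul_sq_le_sq_mul_sq _ _ _
    rw [hesq, one_mul] at h1
    exact h1
  have hint : ∫ σ in s..r, (∑ i, e i * ∑ j, (q : E3) j * hess2 v (σ • (q : E3)) j i) =
      φ r - φ s := intervalIntegral.integral_eq_sub_of_hasDerivAt (fun σ _ => hd σ)
        (hcont.intervalIntegrable _ _)
  have hbd : ‖∫ σ in s..r, (∑ i, e i * ∑ j, (q : E3) j * hess2 v (σ • (q : E3)) j i)‖ ≤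
      |∫ σ in s..r, msz (hess2 v (σ • (q : E3)))| := by
    refine intervalIntegral.norm_integral_le_abs_of_norm_le (Eventually.of_forall fun σ => ?_)
      (hc.intervalIntegrable _ _)
    exact cs_bound e (fun j => (q : E3) j) (hess2 v (σ • (q : E3))) hesq.le hwsq.le
  have hsub : uIoc s r ⊆ uIoc (1 : ℝ) (4 / 3) := by
    rw [uIoc_of_le (by norm_num : (1 : ℝ) ≤ 4 / 3)]
    intro σ hσ
    rcases mem_uIoc.1 hσ with h | h
    · exact ⟨lt_of_le_of_lt hs.1 h.1, h.2.trans hr.2⟩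
    · exact ⟨lt_of_le_of_lt hr.1 h.1, h.2.trans hs.2⟩
  have hmono := intervalIntegral.abs_integral_mono_interval (μ := volume)
    (f := fun σ : ℝ => msz (hess2 v (σ • (q : E3)))) hsub
    (Eventually.of_forall fun σ => Real.sqrt_nonneg _) (hc.intervalIntegrable _ _)
  rw [abs_of_nonneg hm0] at hmono
  rw [hint, Real.norm_eq_abs] at hbd
  have h9 := (le_abs_self _).trans (hbd.trans hmono)
  rw [← hN]
  linarith

/-! ### Continuity -/

theorem cont_grad {v : E3 → ℝ} (hv : ContDiff ℝ ∞ v) : Continuous fun x : E3 => vsz (grad v x) := by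
  refine Real.continuous_sqrt.comp ?_
  refine continuous_finsetSum _ fun i _ => ?_
  exact (contDiff_pd hv i).continuous.pow 2

theorem cont_hess {v : E3 → ℝ} (hv : ContDiff ℝ ∞ v) :
    Continuous fun x : E3 => msz (hess2 v x) := by
  refine Real.continuous_sqrt.comp ?_
  refine continuous_finsetSum _ fun i _ => continuous_finsetSum _ fun j _ => ?_
  exact (contDiff_pd (contDiff_pd hv j) i).continuous.pow 2

end HXTRaux

/-- HXTR. -/
theorem HXTR : Stmt_HXTR := by
  intro v τ hv hτ hτ'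
  have c1 := HXTRaux.cont_grad hv
  have c2 := HXTRaux.cont_hess hv
  have m1 : ∀ a b : ℝ, MeasurableSet (cAnn a b) := fun a b =>
    (HXTRaux.isClosed_cAnn a b).measurableSet
  have i1 : Integrable ((cAnn 1 (Real.exp τ)).indicator fun x => vsz (grad v x)) :=
    (c1.continuousOn.integrableOn_compact (HXTRaux.isCompact_cAnn _ _)).integrable_indicator
      (m1 _ _)
  have i2 : Integrable ((cAnn 1 (4 / 3)).indicator fun x => vsz (grad v x) + msz (hess2 v x)) :=
    ((c1.add c2).continuousOn.integrableOn_compact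
      (HXTRaux.isCompact_cAnn _ _)).integrable_indicator (m1 _ _)
  rw [← integral_indicator (m1 _ _), ← integral_indicator (m1 _ _), ← integral_const_mul]
  refine HXTRaux.polar_le i1 (i2.const_mul _) fun q => ?_
  have e1 : ∀ r : ℝ, r ^ 2 * (100 * τ * (cAnn 1 (4 / 3)).indicator
      (fun x => vsz (grad v x) + msz (hess2 v x)) (r • (q : E3))) =
      100 * τ * (r ^ 2 * (cAnn 1 (4 / 3)).indicator
      (fun x => vsz (grad v x) + msz (hess2 v x)) (r • (q : E3))) := fun r => by ring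
  simp only [e1]
  rw [integral_const_mul, HXTRaux.inner_indicator _ one_pos (Real.one_le_exp hτ.le),
    HXTRaux.inner_indicator _ one_pos (by norm_num)]
  have hray : Continuous fun r : ℝ => r • (q : E3) := continuous_id.smul continuous_const
  exact HXTRaux.one_dim (a := fun r => vsz (grad v (r • (q : E3))))
    (b := fun r => msz (hess2 v (r • (q : E3)))) (c1.comp hray) (c2.comp hray)
    (fun r => Real.sqrt_nonneg _) (fun r => Real.sqrt_nonneg _) hτ hτ'
    fun r hr s hs => HXTRaux.ray_le hv q hr hs (c2.comp hray)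

end Pool.Agent.PFlow.HX
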