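import Pool.Agent.PFlow.StmtsHX

set_option autoImplicit false

/-!
# HXUNI: the derivatives of a function of class `H²` are unique
-/

open MeasureTheory Filter Topology
open scoped ContDiff ENNReal

namespace Pool.Agent.PFlow.HX

open Pool.Agent.PenroseSph Pool.Agent.PFlow

namespace HXUNIaux

lemma memLp_cont {K : Set E3} (hK : IsCompact K) {f : E3 → ℝ} (hf : ContinuousOn f K) :
    MemLp f 2 (volume.restrict K) := by
  have : Fact (volume K < ⊤) := ⟨hK.measure_lt_top⟩
  obtain ⟨C, hC⟩ := hK.exists_bound_of_continuousOn hf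
  refine MemLp.of_bound (hf.aestronglyMeasurable hK.measurableSet) C ?_
  exact (ae_restrict_iff' hK.measurableSet).mpr (ae_of_all _ hC)

lemma abs_int_le {μ : Measure E3} {f g : E3 → ℝ} (hf : MemLp f 2 μ) (hg : MemLp g 2 μ) :
    |∫ x, f x * g x ∂μ| ≤ Real.sqrt (∫ x, f x ^ 2 ∂μ) * Real.sqrt (∫ x, g x ^ 2 ∂μ) := by
  have h1 := integral_mul_norm_le_Lp_mul_Lq (μ := μ) (f := f) (g := g) (p := 2) (q := 2)
    Real.HolderConjugate.two_two (by simpa using hf) (by simpa using hg)
  have h2 : |∫ x, f x * g x ∂μ| ≤ ∫ x, ‖f x‖ * ‖g x‖ ∂μ := by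
    rw [← Real.norm_eq_abs]
    refine (norm_integral_le_integral_norm _).trans (le_of_eq ?_)
    simp only [norm_mul]
  refine h2.trans (h1.trans (le_of_eq ?_))
  have e : ∀ k : E3 → ℝ, (∫ x, ‖k x‖ ^ (2 : ℝ) ∂μ) ^ (1 / 2 : ℝ) = Real.sqrt (∫ x, k x ^ 2 ∂μ) := by
    intro k
    rw [Real.sqrt_eq_rpow]
    congr 1
    refine integral_congr_ae (ae_of_all _ fun x => ?_)
    simp only [Real.norm_eq_abs, Real.rpow_two, sq_abs]
  rw [e, e]

/-- Convergence in `L²(K)` implies convergence of the integrals against a continuous function. -/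
lemma tendsto_int {K : Set E3} (hK : IsCompact K) {f : ℕ → E3 → ℝ} {F ψ : E3 → ℝ}
    (hf : ∀ n, Continuous (f n)) (hF : MemLp F 2 (volume.restrict K)) (hψ : Continuous ψ)
    (h : Tendsto (fun n => ∫ x in K, (f n x - F x) ^ 2) atTop (𝓝 0)) :
    Tendsto (fun n => ∫ x in K, f n x * ψ x) atTop (𝓝 (∫ x in K, F x * ψ x)) := by
  have hψ2 := memLp_cont hK hψ.continuousOn
  have hf2 := fun n => memLp_cont hK (hf n).continuousOn
  rw [← tendsto_sub_nhds_zero_iff]
  have e : ∀ n, (∫ x in K, f n x * ψ x) - ∫ x in K, F x * ψ x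
      = ∫ x in K, (f n x - F x) * ψ x := by
    intro n
    rw [← integral_sub]
    · refine integral_congr_ae (ae_of_all _ fun x => ?_)
      simp only
      ring
    · exact (hf2 n).integrable_mul hψ2
    · exact hF.integrable_mul hψ2
  simp only [e]
  refine squeeze_zero_norm (fun n => ?_) (?_ : Tendsto (fun n =>
    Real.sqrt (∫ x in K, (f n x - F x) ^ 2) * Real.sqrt (∫ x in K, ψ x ^ 2)) atTop (𝓝 0))
  · rw [Real.norm_eq_abs]
    exact abs_int_le ((hf2 n).sub hF) hψ2
  · have h1 := (Real.continuous_sqrt.tendsto 0).comp h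
    rw [Real.sqrt_zero] at h1
    simpa using h1.mul_const (Real.sqrt (∫ x in K, ψ x ^ 2))

/-- Uniform convergence on `K` implies convergence in `L²(K)`. -/
lemma tendsto_unif {K : Set E3} (hK : IsCompact K) {f : ℕ → E3 → ℝ} {w : E3 → ℝ}
    (h : TendstoUniformlyOn f w atTop K) :
    Tendsto (fun n => ∫ x in K, (f n x - w x) ^ 2) atTop (𝓝 0) := by
  have : Fact (volume K < ⊤) := ⟨hK.measure_lt_top⟩
  rw [Metric.tendsto_atTop]
  intro ε hε
  set V := (volume K).toReal with hV
  have hV0 : 0 ≤ V := ENNReal.toReal_nonneg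
  set δ := Real.sqrt (ε / (V + 1)) with hδ
  have hδ0 : 0 < δ := Real.sqrt_pos.mpr (by positivity)
  have hδ2 : δ ^ 2 = ε / (V + 1) := Real.sq_sqrt (by positivity)
  obtain ⟨N, hN⟩ := eventually_atTop.mp (Metric.tendstoUniformlyOn_iff.mp h δ hδ0)
  refine ⟨N, fun n hn => ?_⟩
  rw [Real.dist_0_eq_abs]
  have h1 : ‖∫ x in K, (f n x - w x) ^ 2‖ ≤ δ ^ 2 * volume.real K := by
    refine norm_setIntegral_le_of_norm_le_const hK.measure_lt_top fun x hx => ?_
    rw [Real.norm_eq_abs, abs_of_nonneg (sq_nonneg _)]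
    have h2 := hN n hn x hx
    rw [dist_comm, Real.dist_eq] at h2
    rw [← sq_abs]
    exact pow_le_pow_left₀ (abs_nonneg _) h2.le 2
  rw [Real.norm_eq_abs] at h1
  have h3 : volume.real K = V := rfl
  rw [h3, hδ2] at h1
  refine lt_of_le_of_lt h1 ?_
  rw [div_mul_eq_mul_div, div_lt_iff₀ (by positivity)]
  nlinarith

lemma smooth_pd {f : E3 → ℝ} (hf : ContDiff ℝ ∞ f) (i : Fin 3) : ContDiff ℝ ∞ (pd i f) := by
  have h1 : ContDiff ℝ ∞ (fderiv ℝ f) := hf.fderiv_right (by simp)
  exact h1.clm_apply contDiff_const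

lemma pd_zero {φ : E3 → ℝ} {x : E3} (hx : x ∉ tsupport φ) (i : Fin 3) : pd i φ x = 0 := by
  have h0 : φ =ᶠ[𝓝 x] fun _ => 0 := by
    have : (tsupport φ)ᶜ ∈ 𝓝 x := (isClosed_tsupport φ).isOpen_compl.mem_nhds hx
    filter_upwards [this] with y hy
    exact image_eq_zero_of_notMem_tsupport hy
  unfold pd
  rw [h0.fderiv_eq]
  simp

/-- Integration by parts. -/
lemma ibp {f φ : E3 → ℝ} (hf : ContDiff ℝ ∞ f) (hφ : ContDiff ℝ ∞ φ) (hc : HasCompactSupport φ)
    (i : Fin 3) :
    ∫ x in tsupport φ, pd i f x * φ x = - ∫ x in tsupport φ, f x * pd i φ x := by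
  have hfc := hf.continuous
  have hφc := hφ.continuous
  have hpf := (smooth_pd hf i).continuous
  have hpφ := (smooth_pd hφ i).continuous
  have hsp : HasCompactSupport (pd i φ) := by
    refine HasCompactSupport.intro hc fun x hx => pd_zero hx i
  have i1 : Integrable (fun x => pd i f x * φ x) :=
    (hpf.mul hφc).integrable_of_hasCompactSupport hc.mul_left
  have i2 : Integrable (fun x => f x * pd i φ x) :=
    (hfc.mul hpφ).integrable_of_hasCompactSupport hsp.mul_left
  have i3 : Integrable (fun x => f x * φ x) :=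
    (hfc.mul hφc).integrable_of_hasCompactSupport hc.mul_left
  have h := integral_mul_fderiv_eq_neg_fderiv_mul_of_integrable (μ := (volume : Measure E3))
    (f := f) (g := φ) (v := EuclideanSpace.single i 1) i1 i2 i3
    (fun x _ => (hf.differentiable (by simp)).differentiableAt)
    (fun x _ => (hφ.differentiable (by simp)).differentiableAt)
  rw [setIntegral_eq_integral_of_forall_compl_eq_zero
      (fun x hx => by rw [image_eq_zero_of_notMem_tsupport hx, mul_zero]),
    setIntegral_eq_integral_of_forall_compl_eq_zero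
      (fun x hx => by rw [pd_zero hx, mul_zero])]
  have h' : ∫ x, f x * pd i φ x = - ∫ x, pd i f x * φ x := h
  rw [h', neg_neg]

/-- The first weak derivatives. -/
lemma weak1 {U : Set E3} {w : E3 → ℝ} {G : E3 → Cov} {M : E3 → Bil} (h : H2On U w G M)
    {φ : E3 → ℝ} (hφ : ContDiff ℝ ∞ φ) (hc : HasCompactSupport φ) (hs : tsupport φ ⊆ U)
    (i : Fin 3) :
    ∫ x in tsupport φ, G x i * φ x = - ∫ x in tsupport φ, w x * pd i φ x := by
  obtain ⟨v, hv, hu, h1, -⟩ := h.approx (tsupport φ) hc hs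
  have a := tendsto_int hc (fun n => (smooth_pd (hv n) i).continuous)
    (h.memG (tsupport φ) hc hs i) hφ.continuous (h1 i)
  have b := tendsto_int hc (fun n => (hv n).continuous)
    (memLp_cont hc (h.cont.mono hs)) (smooth_pd hφ i).continuous (tendsto_unif hc hu)
  have c : (fun n => ∫ x in tsupport φ, pd i (v n) x * φ x)
      = fun n => - ∫ x in tsupport φ, v n x * pd i φ x := funext fun n => ibp (hv n) hφ hc i
  rw [c] at a
  exact tendsto_nhds_unique a b.neg

/-- The second weak derivatives. -/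
lemma weak2 {U : Set E3} {w : E3 → ℝ} {G : E3 → Cov} {M : E3 → Bil} (h : H2On U w G M)
    {φ : E3 → ℝ} (hφ : ContDiff ℝ ∞ φ) (hc : HasCompactSupport φ) (hs : tsupport φ ⊆ U)
    (i j : Fin 3) :
    ∫ x in tsupport φ, M x i j * φ x = - ∫ x in tsupport φ, G x j * pd i φ x := by
  obtain ⟨v, hv, -, h1, h2⟩ := h.approx (tsupport φ) hc hs
  have a := tendsto_int hc (fun n => (smooth_pd (smooth_pd (hv n) j) i).continuous)
    (h.memM (tsupport φ) hc hs i j) hφ.continuous (h2 i j)
  have b := tendsto_int hc (fun n => (smooth_pd (hv n) j).continuous)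
    (h.memG (tsupport φ) hc hs j) (smooth_pd hφ i).continuous (h1 j)
  have c : (fun n => ∫ x in tsupport φ, pd i (pd j (v n)) x * φ x)
      = fun n => - ∫ x in tsupport φ, pd j (v n) x * pd i φ x :=
    funext fun n => ibp (smooth_pd (hv n) j) hφ hc i
  rw [c] at a
  exact tendsto_nhds_unique a b.neg

/-- Two functions in `L²_loc(U)` with the same integrals against test functions agree. -/
lemma ae_eq_of_test {U : Set E3} (hU : IsOpen U) {f g : E3 → ℝ}
    (hf : ∀ K : Set E3, IsCompact K → K ⊆ U → MemLp f 2 (volume.restrict K))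
    (hg : ∀ K : Set E3, IsCompact K → K ⊆ U → MemLp g 2 (volume.restrict K))
    (h : ∀ φ : E3 → ℝ, ContDiff ℝ ∞ φ → HasCompactSupport φ → tsupport φ ⊆ U →
      ∫ x in tsupport φ, f x * φ x = ∫ x in tsupport φ, g x * φ x) :
    ∀ᵐ x ∂(volume.restrict U), f x = g x := by
  have hloc : LocallyIntegrableOn (fun x => f x - g x) U := by
    rw [locallyIntegrableOn_iff hU.isLocallyClosed]
    intro K hKU hK
    have : Fact (volume K < ⊤) := ⟨hK.measure_lt_top⟩
    exact ((hf K hK hKU).sub (hg K hK hKU)).integrable (by norm_num)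
  have h0 := hU.ae_eq_zero_of_integral_contDiff_smul_eq_zero hloc fun φ hφ hc hs => by
    have h1 := h φ hφ hc hs
    have hφ2 := memLp_cont hc hφ.continuous.continuousOn
    rw [← setIntegral_eq_integral_of_forall_compl_eq_zero (s := tsupport φ)
      (fun x hx => by rw [image_eq_zero_of_notMem_tsupport hx, zero_smul])]
    have e : ∫ x in tsupport φ, φ x • (f x - g x)
        = (∫ x in tsupport φ, f x * φ x) - ∫ x in tsupport φ, g x * φ x := by
      rw [← integral_sub]
      · refine integral_congr_ae (ae_of_all _ fun x => ?_)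
        simp only [smul_eq_mul]
        ring
      · exact (hf _ hc hs).integrable_mul hφ2
      · exact (hg _ hc hs).integrable_mul hφ2
    rw [e, h1, sub_self]
  rw [ae_restrict_iff' hU.measurableSet]
  filter_upwards [h0] with x hx hxU
  exact sub_eq_zero.mp (hx hxU)

end HXUNIaux

open HXUNIaux

/-- **HXUNI**: the derivatives of a function of class `H²` are unique. -/
theorem HXUNI : Stmt_HXUNI := by
  intro U w G G' M M' hU h h'
  have hG : ∀ i, ∀ᵐ x ∂(volume.restrict U), G x i = G' x i := fun i =>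
    ae_eq_of_test hU (fun K hK hKU => h.memG K hK hKU i) (fun K hK hKU => h'.memG K hK hKU i)
      fun φ hφ hc hs => by rw [weak1 h hφ hc hs, weak1 h' hφ hc hs]
  have hM : ∀ i j, ∀ᵐ x ∂(volume.restrict U), M x i j = M' x i j := fun i j =>
    ae_eq_of_test hU (fun K hK hKU => h.memM K hK hKU i j)
      (fun K hK hKU => h'.memM K hK hKU i j)
      fun φ hφ hc hs => by
        rw [weak2 h hφ hc hs, weak2 h' hφ hc hs]
        congr 1
        refine integral_congr_ae ?_
        have h1 := ae_restrict_of_ae_restrict_of_subset hs (hG j)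
        filter_upwards [h1] with x hx
        rw [hx]
  refine ⟨?_, ?_⟩
  · filter_upwards [ae_all_iff.mpr hG] with x hx
    exact funext hx
  · filter_upwards [ae_all_iff.mpr fun i => ae_all_iff.mpr (hM i)] with x hx
    exact Matrix.ext hx

end Pool.Agent.PFlow.HX
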