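import Pool.Agent.PFlow.StmtsHX

/-!
# The uniform `H²` bound near the unit sphere: assembly
-/

open MeasureTheory Filter Topology
open scoped ContDiff ENNReal

namespace Pool.Agent.PFlow.HX

open Pool.Agent.PenroseSph

namespace LEGaux

lemma isOpen_ann (a b : ℝ) : IsOpen (Ann a b) :=
  (isOpen_lt continuous_const continuous_norm).inter (isOpen_lt continuous_norm continuous_const)

lemma isClosed_cann (a b : ℝ) : IsClosed (cAnn a b) :=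
  (isClosed_le continuous_const continuous_norm).inter
    (isClosed_le continuous_norm continuous_const)

lemma cann_sub : cAnn (3 / 4) (4 / 3) ⊆ Ann (1 / 2) 2 := by
  rintro x ⟨h1, h2⟩
  exact ⟨by linarith, by linarith⟩

/-- The algebra: `c a² ≤ C₂ a b + C₁ b²` and `b² ≤ C₃ (a + b)` bound `a` and `b`. -/
lemma alg (c C1 C2 C3 : ℝ) (hc : 0 < c) (hC1 : 0 < C1) (hC2 : 0 < C2) (hC3 : 0 < C3) :
    ∃ C : ℝ, 0 < C ∧ ∀ a b : ℝ, 0 ≤ a → 0 ≤ b → c * a ^ 2 ≤ C2 * (a * b) + C1 * b ^ 2 →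
      b ^ 2 ≤ C3 * (a + b) → a ^ 2 + b ^ 2 ≤ C := by
  have hK0 : 0 < 2 * (C1 + C2 ^ 2 / (2 * c)) / c := by positivity
  refine ⟨(2 * (C1 + C2 ^ 2 / (2 * c)) / c + 1) *
    (C3 * (Real.sqrt (2 * (C1 + C2 ^ 2 / (2 * c)) / c) + 1)) ^ 2, by positivity, ?_⟩
  intro a b ha hb h1 h2
  have hK : a ^ 2 ≤ 2 * (C1 + C2 ^ 2 / (2 * c)) / c * b ^ 2 := by
    have h3 : C2 * (a * b) ≤ c / 2 * a ^ 2 + C2 ^ 2 / (2 * c) * b ^ 2 := by
      have h4 : c / 2 * a ^ 2 + C2 ^ 2 / (2 * c) * b ^ 2 - C2 * (a * b)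
          = (c * a - C2 * b) ^ 2 / (2 * c) := by
        field_simp
        ring
      have h5 : 0 ≤ (c * a - C2 * b) ^ 2 / (2 * c) := by positivity
      linarith
    have h6 : c / 2 * a ^ 2 ≤ (C1 + C2 ^ 2 / (2 * c)) * b ^ 2 := by nlinarith
    have h7 : a ^ 2 = 2 / c * (c / 2 * a ^ 2) := by field_simp
    have h8 : 2 * (C1 + C2 ^ 2 / (2 * c)) / c * b ^ 2
        = 2 / c * ((C1 + C2 ^ 2 / (2 * c)) * b ^ 2) := by ring
    rw [h7, h8]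
    exact mul_le_mul_of_nonneg_left h6 (by positivity)
  generalize 2 * (C1 + C2 ^ 2 / (2 * c)) / c = K at hK hK0
  have ha' : a ≤ Real.sqrt K * b := by
    have h9 : Real.sqrt (a ^ 2) ≤ Real.sqrt (K * b ^ 2) := Real.sqrt_le_sqrt hK
    rw [Real.sqrt_sq ha, Real.sqrt_mul hK0.le, Real.sqrt_sq hb] at h9
    exact h9
  have hs : 0 ≤ Real.sqrt K := Real.sqrt_nonneg K
  have hB : b ≤ C3 * (Real.sqrt K + 1) := by
    rcases hb.eq_or_lt with h0 | hpos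
    · rw [← h0]; positivity
    · have h10 : b * b ≤ C3 * (Real.sqrt K + 1) * b := by nlinarith
      exact le_of_mul_le_mul_right h10 hpos
  have hb2 : b ^ 2 ≤ (C3 * (Real.sqrt K + 1)) ^ 2 := pow_le_pow_left₀ hb hB 2
  calc a ^ 2 + b ^ 2 ≤ K * b ^ 2 + b ^ 2 := by linarith
    _ = (K + 1) * b ^ 2 := by ring
    _ ≤ (K + 1) * (C3 * (Real.sqrt K + 1)) ^ 2 :=
        mul_le_mul_of_nonneg_left hb2 (by positivity)

end LEGaux

open LEGaux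

theorem LEG (hHXA : Stmt_HXA) (hHXCUT : Stmt_HXCUT) (hHXB : Stmt_HXB) (hHXC : Stmt_HXC) :
    Stmt_LEG := by
  intro ε Λ S hε hε1 hΛ hS
  obtain ⟨c, C1, hc, hC1, hA⟩ := hHXA ε Λ hε hε1 hΛ
  obtain ⟨ζ, hζ, hζ1⟩ := hHXCUT
  obtain ⟨C2, hC2, hB⟩ := hHXB Λ ζ hΛ hζ
  obtain ⟨C3, hC3, hCC⟩ := hHXC S ζ hS hζ
  obtain ⟨C, hC, hfin⟩ := alg c C1 C2 C3 hc hC1 hC2 hC3
  refine ⟨C, hC, ?_⟩
  intro g h u G M hg hbd hH2 hEq hu
  obtain ⟨hiB, hB'⟩ := hB g h u G M hg hbd hH2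
  obtain ⟨hiG, hiM, hC'⟩ := hCC u G M hH2 hu
  have hmeas : MeasurableSet (Ann (1 / 2) 2) := (isOpen_ann _ _).measurableSet
  have hm0 : 0 ≤ ∫ x in Ann (1 / 2) 2, ζ x ^ 4 * msz (M x) ^ 2 :=
    integral_nonneg fun x => by positivity
  have hγ0 : 0 ≤ ∫ x in Ann (1 / 2) 2, ζ x ^ 2 * vsz (G x) ^ 2 :=
    integral_nonneg fun x => by positivity
  -- the integrated inequality
  have hint : c * (∫ x in Ann (1 / 2) 2, ζ x ^ 4 * msz (M x) ^ 2)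
      ≤ (∫ x in Ann (1 / 2) 2, ζ x ^ 4 * (volDen g x * (nsq g x (M x) - trg g x (M x) ^ 2)))
        + C1 * ∫ x in Ann (1 / 2) 2, ζ x ^ 2 * vsz (G x) ^ 2 := by
    rw [← integral_const_mul, ← integral_const_mul, ← integral_add hiB (hiG.const_mul C1)]
    refine integral_mono_ae (hiM.const_mul c) (hiB.add (hiG.const_mul C1)) ?_
    have hmem : ∀ᵐ x ∂(volume.restrict (Ann (1 / 2) 2)), x ∈ Ann (1 / 2) 2 :=
      ae_restrict_mem hmeas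
    filter_upwards [hEq, hmem] with x hx hxA
    have h1 := hA g h x (G x) (M x) (hbd x hxA) hx.1 hx.2
    have hz0 := hζ.nonneg x
    have hz1 := hζ.le_one x
    have hz4 : ζ x ^ 4 ≤ ζ x ^ 2 := pow_le_pow_of_le_one hz0 hz1 (by norm_num)
    have h2 : ζ x ^ 4 * (c * msz (M x) ^ 2)
        ≤ ζ x ^ 4 * (volDen g x * (nsq g x (M x) - trg g x (M x) ^ 2) + C1 * vsz (G x) ^ 2) :=
      mul_le_mul_of_nonneg_left h1 (by positivity)
    have h3 : ζ x ^ 4 * (C1 * vsz (G x) ^ 2) ≤ ζ x ^ 2 * (C1 * vsz (G x) ^ 2) :=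
      mul_le_mul_of_nonneg_right hz4 (by positivity)
    change c * (ζ x ^ 4 * msz (M x) ^ 2)
      ≤ ζ x ^ 4 * (volDen g x * (nsq g x (M x) - trg g x (M x) ^ 2))
        + C1 * (ζ x ^ 2 * vsz (G x) ^ 2)
    linarith
  have ha2 := Real.sq_sqrt hm0
  have hb2 := Real.sq_sqrt hγ0
  have hbound := hfin (Real.sqrt (∫ x in Ann (1 / 2) 2, ζ x ^ 4 * msz (M x) ^ 2))
    (Real.sqrt (∫ x in Ann (1 / 2) 2, ζ x ^ 2 * vsz (G x) ^ 2)) (Real.sqrt_nonneg _)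
    (Real.sqrt_nonneg _) (by rw [ha2, hb2]; linarith) (by rw [hb2]; exact hC')
  rw [ha2, hb2] at hbound
  -- the restriction to the smaller annulus
  have hlast : ∫ x in cAnn (3 / 4) (4 / 3), (vsz (G x) ^ 2 + msz (M x) ^ 2)
      ≤ ∫ x in Ann (1 / 2) 2, (ζ x ^ 2 * vsz (G x) ^ 2 + ζ x ^ 4 * msz (M x) ^ 2) := by
    have h1 : ∫ x in cAnn (3 / 4) (4 / 3), (vsz (G x) ^ 2 + msz (M x) ^ 2)
        = ∫ x in cAnn (3 / 4) (4 / 3), (ζ x ^ 2 * vsz (G x) ^ 2 + ζ x ^ 4 * msz (M x) ^ 2) := by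
      refine setIntegral_congr_fun (isClosed_cann _ _).measurableSet fun x hx => ?_
      change vsz (G x) ^ 2 + msz (M x) ^ 2 = ζ x ^ 2 * vsz (G x) ^ 2 + ζ x ^ 4 * msz (M x) ^ 2
      rw [hζ1 x hx]
      ring
    rw [h1]
    refine setIntegral_mono_set (hiG.add hiM) ?_ (Eventually.of_forall cann_sub)
    exact Eventually.of_forall fun x => by
      change (0 : ℝ) ≤ ζ x ^ 2 * vsz (G x) ^ 2 + ζ x ^ 4 * msz (M x) ^ 2
      positivity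
  have hsum := integral_add hiG hiM
  calc ∫ x in cAnn (3 / 4) (4 / 3), (vsz (G x) ^ 2 + msz (M x) ^ 2)
      ≤ ∫ x in Ann (1 / 2) 2, (ζ x ^ 2 * vsz (G x) ^ 2 + ζ x ^ 4 * msz (M x) ^ 2) := hlast
    _ = (∫ x in Ann (1 / 2) 2, ζ x ^ 2 * vsz (G x) ^ 2)
        + ∫ x in Ann (1 / 2) 2, ζ x ^ 4 * msz (M x) ^ 2 := hsum
    _ ≤ C := by linarith

end Pool.Agent.PFlow.HX
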