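import Pool.Agent.PFlow.E.Asm
import Pool.Agent.PFlow.HX.HXA
import Pool.Agent.PFlow.HX.HXCUT
import Pool.Agent.PFlow.HX.HXBS
import Pool.Agent.PFlow.HX.HXB
import Pool.Agent.PFlow.HX.HXC
import Pool.Agent.PFlow.HX.LEG
import Pool.Agent.PFlow.HX.HXRAY
import Pool.Agent.PFlow.HX.HXTR
import Pool.Agent.PFlow.HX.HXUNI
import Pool.Agent.PFlow.HX.HXANTI
import Pool.Agent.PFlow.HX.COLE
import Pool.Agent.PFlow.HX.HXLEV
import Pool.Agent.PFlow.HX.HXSYM
import Pool.Agent.PFlow.HX.HXLAM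
import Pool.Agent.PFlow.HX.HXBT
import Pool.Agent.PFlow.HX.MIX

/-!
# Block HX: assembly

The three statements of block HX (the uniform second derivative bound `Stmt_LEG`, the collar
estimate `Stmt_COLE` and the level set inequality up to the boundary `Stmt_MIX`) from the modules.
-/

namespace Pool.Agent.PFlow.HX

theorem pHXUNI : Stmt_HXUNI := HXUNI
theorem pHXANTI : Stmt_HXANTI := HXANTI pHXUNI
theorem pHXSYM : Stmt_HXSYM := HXSYM pHXANTI
theorem pHXB : Stmt_HXB := HXB HXBS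

/-- The uniform second derivative bound. -/
theorem hxLEG : Stmt_LEG := LEG HXA HXCUT pHXB HXC

/-- The collar estimate. -/
theorem hxCOLE : Stmt_COLE := COLE HXRAY HXTR pHXANTI

theorem pHXBT : Stmt_HXBT := HXBT pHXSYM eXID AllM.pLOGW AllM.pINT AllM.pL4

/-- The level set inequality up to the boundary. -/
theorem hxMIX : Stmt_MIX := MIX MIfinal AllM.pINT AllM.pLOGW HXLEV HXLAM pHXBT

end Pool.Agent.PFlow.HX
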