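import Pool.Agent.PFlow.StmtsHX

/-!
# HXLAM: the rise function
-/

open MeasureTheory Filter Topology
open scoped ContDiff ENNReal

namespace Pool.Agent.PFlow.HX

namespace HXLAMaux

/-- The even bump at `0` with integral `1`. -/
theorem exists_bump {σ : ℝ} (hσ : 0 < σ) : ∃ ρ : ℝ → ℝ, ContDiff ℝ ∞ ρ ∧ (∀ t, 0 ≤ ρ t) ∧
    (∀ t, ρ (-t) = ρ t) ∧ (∀ t, σ ≤ |t| → ρ t = 0) ∧ ∫ t, ρ t = 1 := by
  let f : ContDiffBump (0 : ℝ) := ⟨σ / 2, σ, by linarith, by linarith⟩
  refine ⟨f.normed volume, f.contDiff_normed, fun t => f.nonneg_normed t, fun t => ?_, fun t ht => ?_,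
    f.integral_normed⟩
  · exact f.normed_neg t
  · by_contra hne
    have h1 : t ∈ Function.support (f.normed volume) := hne
    rw [f.support_normed_eq] at h1
    have h2 : dist t 0 < σ := h1
    rw [Real.dist_eq, sub_zero] at h2
    linarith

theorem integral_shift {σ : ℝ} {ρ : ℝ → ℝ} (hc : Continuous ρ) (he : ∀ t, ρ (-t) = ρ t)
    (hs : ∀ t, σ ≤ |t| → ρ t = 0) (hi : ∫ t, ρ t = 1) : ∫ t, ρ (t - 1) * t = 1 := by
  have hcs : HasCompactSupport ρ := by
    apply HasCompactSupport.intro (isCompact_Icc (a := -σ) (b := σ))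
    intro x hx
    apply hs
    by_contra hcon
    push Not at hcon
    exact hx ⟨(abs_lt.1 hcon).1.le, (abs_lt.1 hcon).2.le⟩
  have h1 : ∫ t, ρ (t - 1) * t = ∫ t, ρ t * (t + 1) := by
    rw [← integral_sub_right_eq_self (fun t => ρ t * (t + 1)) 1]
    simp
  have hint1 : Integrable ρ := hc.integrable_of_hasCompactSupport hcs
  have hint2 : Integrable (fun t => ρ t * t) :=
    (hc.mul continuous_id).integrable_of_hasCompactSupport (hcs.mul_right)
  have h2 : ∫ t, ρ t * t = 0 := by
    have h3 : ∫ t, ρ (-t) * (-t) = ∫ t, ρ t * t := integral_neg_eq_self (fun t => ρ t * t) volume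
    have h4 : ∫ t, ρ (-t) * (-t) = -∫ t, ρ t * t := by
      rw [← integral_neg]
      refine integral_congr_ae (Filter.Eventually.of_forall fun t => ?_)
      simp only [he]
      ring
    linarith
  rw [h1]
  have h5 : ∀ t, ρ t * (t + 1) = ρ t * t + ρ t := fun t => by ring
  simp only [h5]
  rw [integral_add hint2 hint1, h2, hi, zero_add]

end HXLAMaux

open HXLAMaux in
/-- HXLAM: existence of the rise. -/
theorem HXLAM : Stmt_HXLAM := by
  intro ε σ hε _ hσ hσ2
  obtain ⟨ρ, hρ, hρ0, hρe, hρs, hρi⟩ := exists_bump hσ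
  have hone := integral_shift hρ.continuous hρe hρs hρi
  set L : ℝ → ℝ := fun t => ε * ρ (t - 1) with hL
  have hLs : ContDiff ℝ ∞ L := contDiff_const.mul (hρ.comp (contDiff_id.sub contDiff_const))
  have hL0 : ∀ t, σ ≤ |t - 1| → L t = 0 := by
    intro t ht
    simp only [hL]
    rw [hρs _ ht, mul_zero]
  have hLn : ∀ t, 0 ≤ L t := fun t => mul_nonneg hε.le (hρ0 _)
  set q : ℝ → ℝ := fun t => L t * t with hq
  have hqs : ContDiff ℝ ∞ q := hLs.mul contDiff_id
  set F : ℝ → ℝ := fun x => ∫ t in x..2, q t with hF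
  have hFd : ∀ x, HasDerivAt F (-q x) x := by
    intro x
    exact intervalIntegral.integral_hasDerivAt_left (hqs.continuous.intervalIntegrable _ _)
      hqs.continuous.aestronglyMeasurable.stronglyMeasurableAtFilter hqs.continuous.continuousAt
  have hFs : ContDiff ℝ ∞ F := by
    rw [contDiff_infty_iff_deriv]
    refine ⟨fun x => (hFd x).differentiableAt, ?_⟩
    have h1 : deriv F = fun x => -q x := funext fun x => (hFd x).deriv
    rw [h1]
    exact hqs.neg
  set E : ℝ → ℝ := fun s => Real.exp (-s / ε) with hE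
  have hEs : ContDiff ℝ ∞ E := Real.contDiff_exp.comp (contDiff_id.neg.div_const ε)
  have hEd : ∀ s, HasDerivAt E (-(E s / ε)) s := by
    intro s
    have h1 : HasDerivAt (fun s : ℝ => -s / ε) (-1 / ε) s := (hasDerivAt_id s).neg.div_const ε
    have h2 := h1.exp
    have h3 : -(E s / ε) = Real.exp (-s / ε) * (-1 / ε) := by
      simp only [hE]
      ring
    rw [h3]
    exact h2
  set lam : ℝ → ℝ := fun s => ε⁻¹ * F (E s) with hlam
  have hlams : ContDiff ℝ ∞ lam := contDiff_const.mul (hFs.comp hEs)
  have hlamd : ∀ s, HasDerivAt lam (L (E s) * E s ^ 2 / ε ^ 2) s := by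
    intro s
    have h1 := ((hFd (E s)).comp s (hEd s)).const_mul ε⁻¹
    have h2 : L (E s) * E s ^ 2 / ε ^ 2 = ε⁻¹ * (-q (E s) * -(E s / ε)) := by
      simp only [hq]
      field_simp
    rw [h2]
    exact h1
  have hzero : ∀ s, s ≤ -ε * Real.log (1 + σ) → lam s = 0 := by
    intro s hs
    have h1 : 1 + σ ≤ E s := by
      simp only [hE]
      rw [← Real.exp_log (show 0 < 1 + σ by linarith)]
      apply Real.exp_le_exp.2
      rw [le_div_iff₀ hε]
      linarith
    have h2 : F (E s) = 0 := by
      simp only [hF]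
      rw [intervalIntegral.integral_congr (g := fun _ => 0) ?_]
      · simp
      · intro t ht
        have h3 : 1 + σ ≤ t := by
          have h4 := ht.1
          rcases min_choice (E s) 2 with h5 | h5
          · rw [h5] at h4
            linarith
          · rw [h5] at h4
            linarith
        simp only [hq]
        rw [hL0 t (by rw [abs_of_nonneg (by linarith)]; linarith), zero_mul]
    simp only [hlam]
    rw [h2, mul_zero]
  have hoone : ∀ s, -ε * Real.log (1 - σ) ≤ s → lam s = 1 := by
    intro s hs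
    have h1 : E s ≤ 1 - σ := by
      simp only [hE]
      rw [← Real.exp_log (show 0 < 1 - σ by linarith)]
      apply Real.exp_le_exp.2
      rw [div_le_iff₀ hε]
      linarith
    have h2 : F (E s) = ε := by
      simp only [hF]
      rw [intervalIntegral.integral_of_le (by linarith),
        setIntegral_eq_integral_of_forall_compl_eq_zero]
      · simp only [hq, hL]
        have h3 : ∀ t, ε * ρ (t - 1) * t = ε * (ρ (t - 1) * t) := fun t => by ring
        simp only [h3]
        rw [integral_const_mul, hone, mul_one]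
      · intro t ht
        simp only [hq]
        rw [hL0 t ?_, zero_mul]
        by_contra hcon
        push Not at hcon
        have h4 := abs_lt.1 hcon
        exact ht ⟨by linarith [h4.1], by linarith [h4.2]⟩
    simp only [hlam]
    rw [h2]
    exact inv_mul_cancel₀ hε.ne'
  have hmono : Monotone lam := by
    apply monotone_of_deriv_nonneg (fun s => (hlamd s).differentiableAt)
    intro s
    rw [(hlamd s).deriv]
    have := hLn (E s)
    positivity
  refine ⟨L, lam, hLs, hLn, ?_, fun t ht => hL0 t ht.le, hlams, fun s => (hlamd s).deriv, hzero,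
    hoone, fun s => ⟨?_, ?_⟩⟩
  · intro t
    simp only [hL]
    rw [← hρe]
    congr 2
    ring
  · have h1 := hmono (min_le_left s (-ε * Real.log (1 + σ)))
    rw [hzero _ (min_le_right _ _)] at h1
    exact h1
  · have h1 := hmono (le_max_left s (-ε * Real.log (1 - σ)))
    rw [hoone _ (le_max_right _ _)] at h1
    exact h1

end Pool.Agent.PFlow.HX
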